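import Pool.Agent.Helper775.Proj.Rel
import Pool.Agent.Helper775.Tight.Main

/-! Sphere bundles: the cohomology ring of a projective space. -/

set_option autoImplicit false

namespace Pool.Agent.Helper775.Tight

open Set Topology

namespace SoftCx

section one

variable {Y K K' : Type*} [TopologicalSpace Y] [AddCommGroup K] [AddCommGroup K']

/-- the cohomology at `w` is generated by the single class `k` in index `e`. -/
def One (C : SoftCx Y K) (w : Y) (e : ℕ) (k : K) : Prop :=
  (∀ n, n ≠ e → C.Ex {w} n) ∧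
  (∀ c, C.Coc {w} e c → C.Cob {w} e c ∨ C.Cob {w} e (c - k)) ∧ ¬ C.Cob {w} e k

/-- the cohomology of `Z` is that of a sphere of dimension `d - 1` with generator `a`. -/
def RT (C : SoftCx Y K) (one : K) (d : ℕ) (a : K) (Z : Set Y) : Prop :=
  (∀ n c, C.Coc Z n c → C.Cob Z n c ∨ (n = 1 ∧ C.Cob Z n (c - one)) ∨
    (n = d ∧ C.Cob Z n (c - a)) ∨ (n = 1 ∧ n = d ∧ C.Cob Z n (c - (a + one)))) ∧
  ¬ C.Cob Z 1 one ∧ ¬ C.Cob Z d a ∧ (d = 1 → ¬ C.Cob Z 1 (a - one))

variable {M : SoftCx Y K} {F : SoftCx Y K'}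

theorem j15383_aux (φ : Mor M F) (one : K) {d : ℕ} (a : K') (w : Y)
    (hone : M.D one ∈ M.N w 2) (hM : M.Acy one {w}) (hF : F.RT (φ.f one) d a {w}) (n : ℕ)
    (k : K × K') (hk : (cone φ).Coc {w} n k) :
    (cone φ).Cob {w} n k ∨ (n = d + 1 ∧ (cone φ).Cob {w} n (k - (0, a))) := by
  obtain ⟨-, hM1, hM2⟩ := hM
  obtain ⟨hF1, hF2, hF3, hF4⟩ := hF
  simp only [mem_singleton_iff, forall_eq] at hM1
  obtain ⟨e, f⟩ := k
  have hk' := hk w rfl
  rw [cone_D, cone_N] at hk'
  obtain ⟨he, hf⟩ := hk'
  simp only [add_tsub_cancel_right] at he hf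
  rcases n with _ | _ | n
  · left; exact cob_index_zero _ _
  · left
    have h1 := hM1 e (by intro z hz; rw [mem_singleton_iff.1 hz]; exact he)
    rcases h1 with h1 | h1
    · exact Cob.of_mem fun z hz => by
        rw [mem_singleton_iff.1 hz]; exact ⟨h1, F.N_zero _ _⟩
    · exfalso
      apply hF2
      rw [cob_one]
      intro z hz
      rw [mem_singleton_iff.1 hz]
      have h2 := φ.mem w 1 _ h1
      have h3 := F.D_mem w 0 f (F.N_zero w f)
      have h4 := add_mem hf h3
      rw [map_sub] at h2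
      have h5 := sub_mem h4 h2
      have e1 : φ.f e - F.D f + F.D f - (φ.f e - φ.f one) = φ.f one := by abel
      rw [e1] at h5
      exact h5
  · obtain ⟨e', he'⟩ := hM2 (n + 2) (by omega) e
      (by intro z hz; rw [mem_singleton_iff.1 hz]; exact he)
    have he'' := he' w rfl
    have hg : F.Coc {w} (n + 1) (f - φ.f e') := by
      intro z hz
      rw [mem_singleton_iff.1 hz]
      have h1 := φ.mem w (n + 2) _ he''
      have h2 := φ.comm w (n + 2) e'
      rw [map_sub] at h1
      have h3 := neg_mem (add_mem (add_mem hf (neg_mem h1)) h2)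
      convert h3 using 1
      rw [map_sub]; abel
    have key : ∀ (x : K) (c g : K'), M.D x ∈ M.N w (n + 2) →
        f - φ.f e' - φ.f x - c - F.D g ∈ F.N w (n + 1) →
        (cone φ).Cob {w} (n + 2) ((e, f) - (0, c)) := by
      intro x c g hx hg
      refine ⟨(e' + x, -g), fun z hz => ?_⟩
      rw [mem_singleton_iff.1 hz, cone_D, cone_N]
      refine ⟨?_, ?_⟩
      · change e - 0 - M.D (e' + x) ∈ M.N w (n + 2)
        have := sub_mem he'' hx
        rw [map_add]
        convert this using 1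
        abel
      · change f - c - (φ.f (e' + x) - F.D (-g)) ∈ F.N w (n + 1)
        rw [map_add, map_neg]
        convert hg using 1
        abel
    have key0 : ∀ (x : K) (g : K'), M.D x ∈ M.N w (n + 2) →
        f - φ.f e' - φ.f x - F.D g ∈ F.N w (n + 1) →
        (cone φ).Cob {w} (n + 2) (e, f) := by
      intro x g hx hg
      have := key x 0 g hx (by simpa using hg)
      simpa using this
    rcases hF1 _ _ hg with ⟨g', h1⟩ | ⟨h0, h1⟩ | ⟨h0, g', h1⟩ | ⟨h0, h0', h1⟩
    · left
      exact key0 0 g' (by simp) (by simpa using h1 w rfl)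
    · left
      obtain rfl : n = 0 := by omega
      rw [cob_one] at h1
      exact key0 one 0 hone (by simpa using h1 w rfl)
    · right
      refine ⟨by omega, key 0 a g' (by simp) (by simpa using h1 w rfl)⟩
    · right
      obtain rfl : n = 0 := by omega
      rw [cob_one] at h1
      refine ⟨by omega, key one a 0 hone ?_⟩
      have := h1 w rfl
      rw [map_zero, sub_zero]
      convert this using 1
      abel

theorem one_of_rt (φ : Mor M F) (one : K) {d : ℕ} (hd : 1 ≤ d) (a : K') (w : Y)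
    (hone : M.D one ∈ M.N w 2) (hM : M.Acy one {w}) (hF : F.RT (φ.f one) d a {w}) :
    (cone φ).One w (d + 1) (0, a) := by
  refine ⟨?_, ?_, ?_⟩
  · intro n hn k hk
    rcases j15383_aux φ one a w hone hM hF n k hk with h | ⟨h, -⟩
    · exact h
    · exact absurd h hn
  · intro k hk
    rcases j15383_aux φ one a w hone hM hF (d + 1) k hk with h | ⟨-, h⟩
    · left; exact h
    · right; exact h
  · rintro ⟨⟨e', f'⟩, h⟩
    obtain ⟨-, hM1, hM2⟩ := hM
    obtain ⟨hF1, hF2, hF3, hF4⟩ := hF
    simp only [mem_singleton_iff, forall_eq] at hM1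
    have h' := h w rfl
    rw [cone_D, cone_N] at h'
    obtain ⟨h1, h2⟩ := h'
    change (0 : K) - M.D e' ∈ M.N w (d + 1) at h1
    change a - (φ.f e' - F.D f') ∈ F.N w (d + 1 - 1) at h2
    rw [Nat.add_sub_cancel] at h2
    have h3 : M.D e' ∈ M.N w (d + 1) := by simpa using neg_mem h1
    have hc : M.Coc {w} d e' := by intro z hz; rw [mem_singleton_iff.1 hz]; exact h3
    rcases Nat.lt_or_ge d 2 with hd2 | hd2
    · obtain rfl : d = 1 := by omega
      rcases hM1 e' hc with h4 | h4
      · apply hF3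
        refine ⟨-f', fun z hz => ?_⟩
        rw [mem_singleton_iff.1 hz, map_neg]
        have h5 := add_mem h2 (φ.mem w 1 _ h4)
        convert h5 using 1
        abel
      · apply hF4 rfl
        refine ⟨-f', fun z hz => ?_⟩
        rw [mem_singleton_iff.1 hz, map_neg]
        have h6 := φ.mem w 1 _ h4
        rw [map_sub] at h6
        have h5 := add_mem h2 h6
        convert h5 using 1
        abel
    · obtain ⟨e'', he⟩ := hM2 d hd2 e' hc
      have he'' := he w rfl
      apply hF3
      refine ⟨φ.f e'' - f', fun z hz => ?_⟩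
      rw [mem_singleton_iff.1 hz, map_sub]
      have h4 := φ.mem w d _ he''
      have h5 := φ.comm w d e''
      rw [map_sub] at h4
      have h6 := sub_mem (add_mem h2 h4) h5
      convert h6 using 1
      abel

theorem One.congr {C : SoftCx Y K} {w : Y} {e : ℕ} {k k' : K} (h : C.One w e k)
    (hk : C.Cob {w} e (k - k')) : C.One w e k' := by
  obtain ⟨h1, h2, h3⟩ := h
  refine ⟨h1, ?_, ?_⟩
  · intro c hc
    rcases h2 c hc with h | h
    · left; exact h
    · right
      have := h.add hk
      convert this using 1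
      abel
  · intro h
    apply h3
    have := hk.add h
    convert this using 1
    abel

/-- the cone of a morphism which hits the generator is exact. -/
theorem cone_one_ex {C : SoftCx Y K'} {s : ℕ} (ψ : Mor (M.shift s) C) (one : K) (w : Y)
    (hone : M.D one ∈ M.N w 2) (hM : M.Acy one {w}) (hC : C.One w (s + 1) (ψ.f one)) (n : ℕ) :
    (cone ψ).Ex {w} n := by
  obtain ⟨-, hM1, hM2⟩ := hM
  obtain ⟨hC1, hC2, hC3⟩ := hC
  simp only [mem_singleton_iff, forall_eq] at hM1
  rintro ⟨e, f⟩ hk
  have hk' := hk w rfl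
  rw [cone_D, cone_N] at hk'
  obtain ⟨he, hf⟩ := hk'
  change M.D e ∈ M.N w (n + 1 - s) at he
  change ψ.f e - C.D f ∈ C.N w n at hf
  rcases n with _ | n
  · exact cob_index_zero _ _
  -- the case where `e` is negligible
  have key : e ∈ M.N w (n + 1 - s) → n ≠ s + 1 → (cone ψ).Cob {w} (n + 1) (e, f) := by
    intro h1 hn
    have h2 : ψ.f e ∈ C.N w (n + 1) := ψ.mem w (n + 1) e h1
    have h3 : C.Coc {w} n f := by
      intro z hz
      rw [mem_singleton_iff.1 hz]
      have := sub_mem h2 hf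
      convert this using 1
      abel
    obtain ⟨g, hg⟩ := hC1 n hn f h3
    refine ⟨(0, -g), fun z hz => ?_⟩
    rw [mem_singleton_iff.1 hz, cone_D, cone_N]
    refine ⟨?_, ?_⟩
    · change e - M.D 0 ∈ M.N w (n + 1 - s)
      simpa using h1
    · change f - (ψ.f 0 - C.D (-g)) ∈ C.N w n
      have := hg w rfl
      rw [map_zero, map_neg]
      convert this using 1
      abel
  rcases Nat.lt_or_ge n s with hns | hns
  · refine key ?_ (by omega)
    have : n + 1 - s = 0 := by omega
    rw [this]; exact M.N_zero _ _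
  · rcases Nat.eq_or_lt_of_le hns with hns | hns
    · subst hns
      have e1 : s + 1 + 1 - s = 2 := by omega
      have e2 : s + 1 - s = 1 := by omega
      rw [e1] at he
      rcases hM1 e (by intro z hz; rw [mem_singleton_iff.1 hz]; exact he) with h1 | h1
      · refine key ?_ (by omega)
        rw [e2]; exact h1
      · exfalso
        apply hC3
        refine ⟨f, fun z hz => ?_⟩
        rw [mem_singleton_iff.1 hz]
        have h2 := ψ.mem w (s + 1) (e - one) (by
          change e - one ∈ M.N w (s + 1 - s)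
          rw [e2]; exact h1)
        rw [map_sub] at h2
        have h3 := sub_mem hf h2
        convert h3 using 1
        abel
    · obtain ⟨e', he'⟩ := hM2 (n + 1 - s) (by omega) e (by
        intro z hz
        rw [mem_singleton_iff.1 hz]
        have e1 : n + 1 + 1 - s = n + 1 - s + 1 := by omega
        rw [e1] at he
        exact he)
      have he'' := he' w rfl
      have h1 := ψ.mem w (n + 1) (e - M.D e') he''
      have h2 := ψ.comm w (n + 1) e'
      change C.D (ψ.f e') - ψ.f (M.D e') ∈ C.N w (n + 1) at h2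
      rw [map_sub] at h1
      have hg : C.Coc {w} n (f - ψ.f e') := by
        intro z hz
        rw [mem_singleton_iff.1 hz]
        have h3 := neg_mem (add_mem (sub_mem hf h1) h2)
        convert h3 using 1
        rw [map_sub]; abel
      have key2 : ∀ (x : K) (g : K'), M.D x ∈ M.N w (n + 1 - s) →
          f - ψ.f e' - ψ.f x - C.D g ∈ C.N w n → (cone ψ).Cob {w} (n + 1) (e, f) := by
        intro x g hx hg
        refine ⟨(e' + x, -g), fun z hz => ?_⟩
        rw [mem_singleton_iff.1 hz, cone_D, cone_N]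
        refine ⟨?_, ?_⟩
        · change e - M.D (e' + x) ∈ M.N w (n + 1 - s)
          have := sub_mem he'' hx
          rw [map_add]
          convert this using 1
          abel
        · change f - (ψ.f (e' + x) - C.D (-g)) ∈ C.N w n
          rw [map_add, map_neg]
          convert hg using 1
          abel
      by_cases hn : n = s + 1
      · subst hn
        rcases hC2 _ hg with ⟨g', h3⟩ | ⟨g', h3⟩
        · exact key2 0 g' (by simp) (by simpa using h3 w rfl)
        · refine key2 one g' ?_ (by simpa using h3 w rfl)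
          have e1 : s + 1 + 1 - s = 2 := by omega
          rw [e1]; exact hone
      · obtain ⟨g', h3⟩ := hC1 n hn _ hg
        exact key2 0 g' (by simp) (by simpa using h3 w rfl)

theorem push_rt {X : Type*} [TopologicalSpace X] [T2Space X] [T2Space Y]
    (C : SoftCx X K) (p : X → Y) (hp : Continuous p) (G : Set X) (hG : IsCompact G)
    (one : K) (d : ℕ) (a : K) (Z : Set Y) :
    (push C p hp G hG).RT one d a Z ↔ C.RT one d a (G ∩ p ⁻¹' Z) := by
  unfold RT
  simp only [push_coc, push_cob]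

end one

section glue

variable {Y K : Type*} [MetricSpace Y] [AddCommGroup K]

theorem cob_of_pointwise {C : SoftCx Y K} {Z : Set Y} (hZ : IsCompact Z) {e : ℕ} {k : K}
    (hk : C.Coc Z e k) (h1 : ∀ z ∈ Z, C.Cob {z} e k) (h2 : ∀ z ∈ Z, ∀ m < e, C.Ex {z} m) :
    C.Cob Z e k := by
  cases e with
  | zero => exact cob_index_zero Z k
  | succ n =>
    refine not_cob_induction hZ fun Z' hZ' hc hmin => ?_
    rcases Z'.eq_empty_or_nonempty with rfl | ⟨z, hz⟩
    · exact Cob.of_mem (by simp)
    have h3 : C.Cob {z} (n + 1) k := h1 z (hZ' hz)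
    obtain ⟨U, hU, hzU, hcU⟩ := h3.isOpen
    obtain ⟨r, hr, hrU⟩ := Metric.isOpen_iff.1 hU z (hzU rfl)
    have hA : IsCompact (Z' ∩ Metric.closedBall z (r / 2)) :=
      hc.inter_right Metric.isClosed_closedBall
    have hB : IsCompact (Z' \ Metric.ball z (r / 2)) := hc.diff Metric.isOpen_ball
    have hun : Z' = (Z' ∩ Metric.closedBall z (r / 2)) ∪ (Z' \ Metric.ball z (r / 2)) := by
      ext x
      simp only [mem_union, mem_inter_iff, Metric.mem_closedBall, mem_sdiff, Metric.mem_ball]
      constructor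
      · intro hx
        rcases le_or_gt (dist x z) (r / 2) with h | h
        · exact Or.inl ⟨hx, h⟩
        · exact Or.inr ⟨hx, not_lt.2 h.le⟩
      · rintro (h | h)
        · exact h.1
        · exact h.1
    rw [hun]
    refine mv hA.isClosed hB.isClosed ?_ ?_ ?_
    · refine ex_of_pointwise n (hA.inter hB) fun w hw m hm => h2 w (hZ' hw.1.1) m (by omega)
    · refine hcU.mono fun x hx => hrU ?_
      have := hx.2
      rw [Metric.mem_closedBall] at this
      rw [Metric.mem_ball]
      linarith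
    · refine hmin _ sdiff_subset hB fun h => ?_
      have : z ∈ Z' \ Metric.ball z (r / 2) := by rw [h]; exact hz
      exact this.2 (Metric.mem_ball_self (by positivity))

theorem j15385_union {C : SoftCx Y K} {e : ℕ} {Z₁ Z₂ : Set Y} (hZ₁ : IsCompact Z₁)
    (hZ₂ : IsCompact Z₂) {k₁ k₂ : K} (hk₁ : C.Coc Z₁ e k₁) (hk₂ : C.Coc Z₂ e k₂)
    (ho₁ : ∀ w ∈ Z₁, C.One w e k₁) (ho₂ : ∀ w ∈ Z₂, C.One w e k₂) :
    ∃ k, C.Coc (Z₁ ∪ Z₂) e k ∧ ∀ w ∈ Z₁ ∪ Z₂, C.One w e k := by
  have h1 : C.Cob (Z₁ ∩ Z₂) e (k₁ - k₂) := by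
    apply cob_of_pointwise (hZ₁.inter_right hZ₂.isClosed)
    · exact Coc.sub (Coc.mono hk₁ inter_subset_left) (Coc.mono hk₂ inter_subset_right)
    · intro z hz
      have h2 : C.Coc {z} e k₁ := Coc.mono hk₁ (singleton_subset_iff.2 hz.1)
      rcases (ho₂ z hz.2).2.1 k₁ h2 with h3 | h3
      · exact absurd h3 (ho₁ z hz.1).2.2
      · exact h3
    · intro z hz m hm
      exact (ho₁ z hz.1).1 m (by omega)
  obtain ⟨g, hg⟩ := h1
  obtain ⟨m, hm1, hm2⟩ := C.soft e (k₁ - k₂ - C.D g) Z₁ Z₂ hZ₁.isClosed hZ₂.isClosed hg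
  refine ⟨k₁ - C.D g - m, ?_, ?_⟩
  · rintro z (hz | hz)
    · have h3 : C.D (k₁ - C.D g - m) = C.D k₁ - C.D (C.D g) - C.D m := by
        rw [map_sub, map_sub]
      rw [h3]
      exact sub_mem (sub_mem (hk₁ z hz) (C.DD_mem z _ g)) (C.D_mem z e m (hm1 z hz))
    · have h3 : C.D (k₁ - C.D g - m) = C.D k₂ + C.D (k₁ - k₂ - C.D g - m) := by
        rw [← map_add]; congr 1; abel
      rw [h3]
      exact add_mem (hk₂ z hz) (C.D_mem z e _ (hm2 z hz))
  · rintro z (hz | hz)
    · apply One.congr (ho₁ z hz)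
      refine ⟨g, ?_⟩
      intro z' hz'
      rw [mem_singleton_iff] at hz'
      subst hz'
      have h3 : k₁ - (k₁ - C.D g - m) - C.D g = m := by abel
      rw [h3]; exact hm1 z' hz
    · apply One.congr (ho₂ z hz)
      apply Cob.of_mem
      intro z' hz'
      rw [mem_singleton_iff] at hz'
      subst hz'
      have h3 : k₂ - (k₁ - C.D g - m) = -(k₁ - k₂ - C.D g - m) := by abel
      rw [h3]; exact neg_mem (hm2 z' hz)

/-- gluing of the local generators. -/
theorem exists_generator {C : SoftCx Y K} {A : Set Y} (hA : IsCompact A) {e : ℕ}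
    (h : ∀ w ∈ A, ∃ U : Set Y, IsOpen U ∧ w ∈ U ∧ ∃ k, C.Coc (U ∩ A) e k ∧
      ∀ w' ∈ U ∩ A, C.One w' e k) :
    ∃ k, C.Coc A e k ∧ ∀ w ∈ A, C.One w e k := by
  have key : ∃ Z : Set Y, IsCompact Z ∧ A ⊆ Z ∧ ∃ k, C.Coc Z e k ∧ ∀ w ∈ Z, C.One w e k := by
    refine IsCompact.induction_on (s := A) hA
      (p := fun s => ∃ Z : Set Y, IsCompact Z ∧ s ⊆ Z ∧ ∃ k, C.Coc Z e k ∧
        ∀ w ∈ Z, C.One w e k) ?_ ?_ ?_ ?_
    · exact ⟨∅, isCompact_empty, subset_rfl, 0, fun z hz => absurd hz (notMem_empty z),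
        fun z hz => absurd hz (notMem_empty z)⟩
    · rintro s t hst ⟨Z, hZ, htZ, hk⟩
      exact ⟨Z, hZ, hst.trans htZ, hk⟩
    · rintro s t ⟨Z₁, hZ₁, hsZ, k₁, hk₁, ho₁⟩ ⟨Z₂, hZ₂, htZ, k₂, hk₂, ho₂⟩
      exact ⟨Z₁ ∪ Z₂, hZ₁.union hZ₂, union_subset_union hsZ htZ,
        j15385_union hZ₁ hZ₂ hk₁ hk₂ ho₁ ho₂⟩
    · intro w hw
      obtain ⟨U, hU, hwU, k, hk, ho⟩ := h w hw
      obtain ⟨r, hr, hrU⟩ := Metric.nhds_basis_closedBall.mem_iff.1 (hU.mem_nhds hwU)
      have hsub : Metric.closedBall w r ∩ A ⊆ U ∩ A := inter_subset_inter_left A hrU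
      refine ⟨Metric.closedBall w r ∩ A, ?_, Metric.closedBall w r ∩ A,
        hA.inter_left Metric.isClosed_closedBall, subset_rfl, k, Coc.mono hk hsub,
        fun z hz => ho z (hsub hz)⟩
      exact Filter.inter_mem (mem_nhdsWithin_of_mem_nhds (Metric.closedBall_mem_nhds w hr))
        self_mem_nhdsWithin
  obtain ⟨Z, _, hAZ, k, hk, ho⟩ := key
  exact ⟨k, Coc.mono hk hAZ, fun w hw => ho w (hAZ hw)⟩

end glue

end SoftCx

open SoftCx

/-- powers of a class. -/
def upow {X : Type*} (d : ℕ) (u : Ch X) : ℕ → Ch X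
  | 0 => one
  | (i + 1) => cup d u (upow d u i)

section upow

variable {X : Type*} [MetricSpace X] {d : ℕ} {u : Ch X}

theorem J15386_cup_left {X : Type*} [MetricSpace X] {d : ℕ} {u b : Ch X} {z : X} (n : ℕ)
    (hu : dd u ∈ Nz z (d + 2)) : cup (d + 1) (dd u) b ∈ Nz z n := by
  obtain ⟨W, hW, hzW, h3⟩ := exists_of_mem_Nz (by omega) hu
  refine mem_Nz_of (hW.mem_nhds hzW) fun l _ hx => ?_
  rcases Nat.lt_or_ge (d + 1) l.length with h | h
  · rw [cup_of_lt h]
    have h4 : (l.take (d + 1 + 1)).length = d + 2 := by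
      rw [List.length_take]
      omega
    rw [h3 _ h4 fun y hy => hx y (List.mem_of_mem_take hy), zero_mul]
  · exact cup_of_le h

theorem J15386_cup_right {X : Type*} [MetricSpace X] {d : ℕ} {u b : Ch X} {z : X} {n : ℕ}
    (hn : n ≠ 0) (hb : b ∈ Nz z n) : cup d u b ∈ Nz z (n + d) := by
  obtain ⟨W, hW, hzW, h3⟩ := exists_of_mem_Nz hn hb
  refine mem_Nz_of (hW.mem_nhds hzW) fun l hl hx => ?_
  rcases Nat.lt_or_ge d l.length with h | h
  · rw [cup_of_lt h]
    have h4 : (l.drop d).length = n := by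
      rw [List.length_drop]
      omega
    rw [h3 _ h4 fun y hy => hx y (List.mem_of_mem_drop hy), mul_zero]
  · exact cup_of_le h

theorem J15386_leib {X : Type*} (d : ℕ) (u b : Ch X) :
    dd (cup d u b) = cup (d + 1) (dd u) b + cup d u (dd b) := by
  funext l
  exact leibniz d u b l

theorem upow_coc (hu : (AS X).Coc univ (d + 1) u) (i : ℕ) :
    (AS X).Coc univ (i * d + 1) (upow d u i) := by
  induction i with
  | zero =>
    intro z _
    have h := one_D_mem (Ω := X) z
    rw [Nat.zero_mul]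
    exact h
  | succ i ih =>
    intro z hz
    have h1 : dd (upow d u i) ∈ Nz z (i * d + 1 + 1) := by
      have h := ih z hz
      rw [AS_D, AS_N] at h
      exact h
    have h2 : dd u ∈ Nz z (d + 2) := by
      have h := hu z hz
      rw [AS_D, AS_N] at h
      exact h
    rw [AS_D, AS_N]
    change dd (cup d u (upow d u i)) ∈ _
    rw [J15386_leib]
    have h3 : (i + 1) * d + 1 + 1 = i * d + 1 + 1 + d := by ring
    rw [h3]
    exact add_mem (J15386_cup_left _ h2) (J15386_cup_right (by omega) h1)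

theorem upow_cob_succ (hu : (AS X).Coc univ (d + 1) u) {Z : Set X} {i : ℕ}
    (h : (AS X).Cob Z (i * d + 1) (upow d u i)) :
    (AS X).Cob Z ((i + 1) * d + 1) (upow d u (i + 1)) := by
  obtain ⟨b, hb⟩ := h
  refine ⟨cup d u b, fun z hz => ?_⟩
  have h1 : upow d u i - dd b ∈ Nz z (i * d + 1) := by
    have h := hb z hz
    rw [AS_D, AS_N] at h
    exact h
  have h2 : dd u ∈ Nz z (d + 2) := by
    have h := hu z (mem_univ z)
    rw [AS_D, AS_N] at h
    exact h
  rw [AS_D, AS_N]
  change cup d u (upow d u i) - dd (cup d u b) ∈ _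
  have h3 : (i + 1) * d + 1 = i * d + 1 + d := by ring
  rw [h3, J15386_leib]
  have h4 : cup d u (upow d u i) = cup d u (upow d u i - dd b) + cup d u (dd b) := by
    rw [← cup_add_right, sub_add_cancel]
  have h5 : cup d u (upow d u i) - (cup (d + 1) (dd u) b + cup d u (dd b)) =
      cup d u (upow d u i - dd b) - cup (d + 1) (dd u) b := by
    rw [h4]
    abel
  rw [h5]
  exact sub_mem (J15386_cup_right (by omega) h1) (J15386_cup_left _ h2)

end upow

/-- transfer of `RT` between homeomorphic sets. -/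
theorem rt_transfer {Ω Ω' : Type*} [MetricSpace Ω] [MetricSpace Ω'] {F : Set Ω} {F' : Set Ω'}
    {g : Ω → Ω'} {g' : Ω' → Ω}
    (hg : ∀ x ∈ F, ContinuousAt g x) (hg' : ∀ y ∈ F', ContinuousAt g' y) (hF : MapsTo g F F')
    (hF' : MapsTo g' F' F) (hgg : ∀ x ∈ F, g' (g x) = x) (hgg' : ∀ y ∈ F', g (g' y) = y)
    {d : ℕ} {a : Ch Ω'} (ha : (AS Ω').Coc F' d a) (h : (AS Ω').RT one d a F') :
    (AS Ω).RT one d (pb g a) F := by
  obtain ⟨h1, h2, h3, h4⟩ := h
  have hback : ∀ {n : ℕ} {c : Ch Ω} (x : Ch Ω'), (AS Ω).Coc F n c →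
      (AS Ω').Cob F' n (pb g' c - x) → (AS Ω).Cob F n (c - pb g x) := by
    intro n c x hc hx
    have h5 := cob_pb hg hF hx
    have h6 := cob_retract hg hg' hF hF' hgg hc
    have h7 := h6.add h5
    have e : c - pb g (pb g' c) + pb g (pb g' c - x) = c - pb g x := by
      have e2 : pb g (pb g' c - x) = pb g (pb g' c) - pb g x := rfl
      rw [e2]
      abel
    rw [e] at h7
    exact h7
  have haa : (AS Ω').Cob F' d (a - pb g' (pb g a)) :=
    cob_retract hg' hg hF' hF hgg' ha
  refine ⟨?_, ?_, ?_, ?_⟩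
  · intro n c hc
    have hc' := coc_pb hg' hF' hc
    rcases h1 n (pb g' c) hc' with h5 | ⟨hn, h5⟩ | ⟨hn, h5⟩ | ⟨hn, hn', h5⟩
    · left
      have h6 := hback (n := n) (c := c) 0 hc (by rw [sub_zero]; exact h5)
      have e : c - pb g (0 : Ch Ω') = c := by
        have e2 : pb g (0 : Ch Ω') = 0 := rfl
        rw [e2, sub_zero]
      rw [e] at h6
      exact h6
    · right; left
      have h6 := hback (n := n) (c := c) one hc h5
      rw [pb_one] at h6
      exact ⟨hn, h6⟩
    · right; right; left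
      exact ⟨hn, hback (n := n) (c := c) a hc h5⟩
    · right; right; right
      have h6 := hback (n := n) (c := c) (a + one) hc h5
      have e : pb g (a + one) = pb g a + one := by
        have e2 : pb g (a + one) = pb g a + pb g one := rfl
        rw [e2, pb_one]
      rw [e] at h6
      exact ⟨hn, hn', h6⟩
  · intro h5
    apply h2
    have h6 := cob_pb hg' hF' h5
    rw [pb_one] at h6
    exact h6
  · intro h5
    apply h3
    have h6 := cob_pb hg' hF' h5
    have h7 := haa.add h6
    rw [sub_add_cancel] at h7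
    exact h7
  · intro hd h5
    apply h4 hd
    have h6 := cob_pb hg' hF' h5
    have haa' := haa
    rw [hd] at haa'
    have h7 := haa'.add h6
    have e : a - pb g' (pb g a) + pb g' (pb g a - one) = a - one := by
      have e2 : pb g' (pb g a - one) = pb g' (pb g a) - pb g' one := rfl
      rw [e2, pb_one]
      abel
    rw [e] at h7
    exact h7

theorem j15387_rt_ge {D : ℕ} (hD : 2 ≤ D) : ∃ c : Ch (EuclideanSpace ℝ (Fin D)),
    (AS (EuclideanSpace ℝ (Fin D))).Coc (Sp D D) D c ∧
      (AS (EuclideanSpace ℝ (Fin D))).RT one D c (Sp D D) := by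
  obtain ⟨c, hc, hnc⟩ := sp_top hD le_rfl
  refine ⟨c, hc, ?_, ?_, hnc, fun h => absurd h (by omega)⟩
  · intro n c' hc'
    rcases Nat.lt_or_ge n 2 with hn | hn
    · rcases Nat.eq_zero_or_pos n with h0 | h0
      · subst h0
        exact Or.inl (cob_index_zero _ _)
      · have h1 : n = 1 := by omega
        subst h1
        rcases sp_connected hD le_rfl c' hc' with h | h
        · exact Or.inl (cob_one.2 h)
        · exact Or.inr (Or.inl ⟨rfl, cob_one.2 h⟩)
    · by_cases hnD : n = D
      · subst hnD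
        rcases sp_rank hD le_rfl c' c hc' hc with h | h | h
        · exact Or.inl h
        · exact absurd h hnc
        · exact Or.inr (Or.inr (Or.inl ⟨rfl, h⟩))
      · exact Or.inl (sp_ex (by omega) le_rfl n hn hnD c' hc')
  · intro h
    exact not_one_mem (xa_sp_nonempty (M := D) (k := D) (by omega) le_rfl) (cob_one.1 h)

/-- indicator of the half line -/
noncomputable def j15387_c : Ch (EuclideanSpace ℝ (Fin 1)) := fun l =>
  open Classical in
  match l with
  | [] => 0
  | x :: _ => if 0 < x 0 then 1 else 0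

theorem j15387_rt_one : ∃ c : Ch (EuclideanSpace ℝ (Fin 1)),
    (AS (EuclideanSpace ℝ (Fin 1))).Coc (Sp 1 1) 1 c ∧
      (AS (EuclideanSpace ℝ (Fin 1))).RT one 1 c (Sp 1 1) := by
  classical
  obtain ⟨e, he⟩ : ∃ e : EuclideanSpace ℝ (Fin 1), e 0 = 1 :=
    ⟨EuclideanSpace.single 0 1, by simp⟩
  obtain ⟨e', he'⟩ : ∃ e' : EuclideanSpace ℝ (Fin 1), e' 0 = -1 :=
    ⟨EuclideanSpace.single 0 (-1), by simp⟩
  have hne : e ≠ e' := by
    intro h
    rw [h, he'] at he
    norm_num at he
  have hnorm : ∀ x : EuclideanSpace ℝ (Fin 1), ‖x‖ = |x 0| := by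
    intro x
    rw [EuclideanSpace.norm_eq]
    simp [Real.sqrt_sq_eq_abs]
  have hS : Sp 1 1 = {e} ∪ {e'} := by
    ext x
    constructor
    · rintro ⟨h1, _⟩
      rw [hnorm] at h1
      rcases (abs_eq (zero_le_one)).1 h1 with h2 | h2
      · left
        have : x = e := by
          ext i
          have hi : i = 0 := Subsingleton.elim _ _
          rw [hi, h2, he]
        exact this
      · right
        have : x = e' := by
          ext i
          have hi : i = 0 := Subsingleton.elim _ _
          rw [hi, h2, he']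
        exact this
    · rintro (h | h)
      · have h' : x = e := h
        subst h'
        refine ⟨by rw [hnorm, he, abs_one], fun i hi => ?_⟩
        have := i.isLt
        omega
      · have h' : x = e' := h
        subst h'
        refine ⟨by rw [hnorm, he', abs_neg, abs_one], fun i hi => ?_⟩
        have := i.isLt
        omega
  have hcont : Continuous fun x : EuclideanSpace ℝ (Fin 1) => x 0 := by fun_prop
  have m1 : j15387_c - one ∈ (AS (EuclideanSpace ℝ (Fin 1))).N e 1 := by
    rw [AS_N]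
    refine mem_Nz_of (W := {x | 0 < x 0}) ((isOpen_lt continuous_const hcont).mem_nhds (by
      show 0 < e 0
      rw [he]; norm_num)) fun l hl hx => ?_
    obtain ⟨x, rfl⟩ := List.length_eq_one_iff.1 hl
    have h0 : 0 < x 0 := hx x (by simp)
    show (if 0 < x 0 then (1 : ZMod 2) else 0) - 1 = 0
    rw [if_pos h0, sub_self]
  have m2 : j15387_c ∈ (AS (EuclideanSpace ℝ (Fin 1))).N e' 1 := by
    rw [AS_N]
    refine mem_Nz_of (W := {x | x 0 < 0}) ((isOpen_lt hcont continuous_const).mem_nhds (by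
      show e' 0 < 0
      rw [he']; norm_num)) fun l hl hx => ?_
    obtain ⟨x, rfl⟩ := List.length_eq_one_iff.1 hl
    have h0 : x 0 < 0 := hx x (by simp)
    show (if 0 < x 0 then (1 : ZMod 2) else 0) = 0
    rw [if_neg (not_lt.2 h0.le)]
  have h11 : (one : Ch (EuclideanSpace ℝ (Fin 1))) + one = 0 := by
    funext l
    exact add_self2 _
  have key : ∀ (n : ℕ) (k : Ch (EuclideanSpace ℝ (Fin 1))),
      (∀ z ∈ Sp 1 1, k ∈ (AS (EuclideanSpace ℝ (Fin 1))).N z n) ↔
        k ∈ (AS (EuclideanSpace ℝ (Fin 1))).N e n ∧ k ∈ (AS (EuclideanSpace ℝ (Fin 1))).N e' n := by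
    intro n k
    rw [hS]
    constructor
    · intro h
      exact ⟨h e (Or.inl rfl), h e' (Or.inr rfl)⟩
    · rintro ⟨h1, h2⟩ z (hz | hz)
      · have hz' : z = e := hz
        rw [hz']; exact h1
      · have hz' : z = e' := hz
        rw [hz']; exact h2
  have not1 : ∀ z : EuclideanSpace ℝ (Fin 1), one ∉ (AS (EuclideanSpace ℝ (Fin 1))).N z 1 := by
    intro z h
    refine not_one_mem (Set.singleton_nonempty z) ?_
    intro w hw
    have hw' : w = z := hw
    rw [hw']; exact h
  have hcoc : (AS (EuclideanSpace ℝ (Fin 1))).Coc (Sp 1 1) 1 j15387_c := by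
    have h2 := (key 2 ((AS (EuclideanSpace ℝ (Fin 1))).D j15387_c)).2 ⟨?_, ?_⟩
    · exact h2
    · have h3 := (AS (EuclideanSpace ℝ (Fin 1))).D_mem e 1 _ m1
      have h4 := add_mem h3 (one_D_mem e)
      rw [← map_add, sub_add_cancel] at h4
      exact h4
    · exact (AS (EuclideanSpace ℝ (Fin 1))).D_mem e' 1 _ m2
  have loc : ∀ (z : EuclideanSpace ℝ (Fin 1)) (c' : Ch (EuclideanSpace ℝ (Fin 1))),
      z ∈ Sp 1 1 → (AS (EuclideanSpace ℝ (Fin 1))).Coc (Sp 1 1) 1 c' →
      c' ∈ (AS (EuclideanSpace ℝ (Fin 1))).N z 1 ∨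
        c' - one ∈ (AS (EuclideanSpace ℝ (Fin 1))).N z 1 := by
    intro z c' hz hc'
    rcases (acy_singleton z).2.1 c' (hc'.mono (Set.singleton_subset_iff.2 hz)) with h | h
    · exact Or.inl (h z rfl)
    · exact Or.inr (h z rfl)
  have heS : e ∈ Sp 1 1 := by rw [hS]; exact Or.inl rfl
  have heS' : e' ∈ Sp 1 1 := by rw [hS]; exact Or.inr rfl
  refine ⟨j15387_c, hcoc, ?_, ?_, ?_, ?_⟩
  · intro n c' hc'
    rcases Nat.lt_or_ge n 2 with hn | hn
    · rcases Nat.eq_zero_or_pos n with h0 | h0
      · subst h0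
        exact Or.inl (cob_index_zero _ _)
      · have h1 : n = 1 := by omega
        subst h1
        simp only [cob_one, key, true_and]
        rcases loc e c' heS hc' with a1 | a1 <;> rcases loc e' c' heS' hc' with a2 | a2
        · exact Or.inl ⟨a1, a2⟩
        · refine Or.inr (Or.inr (Or.inr ⟨?_, ?_⟩))
          · have h3 : c' - (j15387_c + one) = c' - (j15387_c - one) - (one + one) := by abel
            rw [h3, h11, sub_zero]
            exact sub_mem a1 m1
          · have h3 : c' - (j15387_c + one) = (c' - one) - j15387_c := by abel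
            rw [h3]
            exact sub_mem a2 m2
        · refine Or.inr (Or.inr (Or.inl ⟨?_, ?_⟩))
          · have h3 : c' - j15387_c = (c' - one) - (j15387_c - one) := by abel
            rw [h3]
            exact sub_mem a1 m1
          · exact sub_mem a2 m2
        · exact Or.inr (Or.inl ⟨a1, a2⟩)
    · left
      obtain ⟨m, rfl⟩ : ∃ m, n = m + 1 := ⟨n - 1, by omega⟩
      have c1 : (AS (EuclideanSpace ℝ (Fin 1))).Cob {e} (m + 1) c' :=
        (acy_singleton e).2.2 (m + 1) hn c' (hc'.mono (Set.singleton_subset_iff.2 heS))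
      have c2 : (AS (EuclideanSpace ℝ (Fin 1))).Cob {e'} (m + 1) c' :=
        (acy_singleton e').2.2 (m + 1) hn c' (hc'.mono (Set.singleton_subset_iff.2 heS'))
      rw [hS]
      refine mv isClosed_singleton isClosed_singleton ?_ c1 c2
      intro k _
      refine ⟨0, fun z hz => ?_⟩
      have h1 : z = e := hz.1
      have h2 : z = e' := hz.2
      exact absurd (h1.symm.trans h2) hne
  · rw [cob_one]
    exact not_one_mem ⟨e, heS⟩
  · rw [cob_one, key]
    rintro ⟨h1, _⟩
    have h2 := sub_mem h1 m1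
    rw [sub_sub_cancel] at h2
    exact not1 e h2
  · intro _
    rw [cob_one, key]
    rintro ⟨_, h1⟩
    have h2 := sub_mem m2 h1
    rw [sub_sub_cancel] at h2
    exact not1 e' h2

theorem j15387_rt {D : ℕ} (hD : 1 ≤ D) : ∃ c : Ch (EuclideanSpace ℝ (Fin D)),
    (AS (EuclideanSpace ℝ (Fin D))).Coc (Sp D D) D c ∧
      (AS (EuclideanSpace ℝ (Fin D))).RT one D c (Sp D D) := by
  rcases hD.eq_or_lt with h | h
  · subst h
    exact j15387_rt_one
  · exact j15387_rt_ge h

/-- the cohomology of the unit sphere of a finite dimensional normed space. -/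
theorem nsphere (V : Type*) [NormedAddCommGroup V] [NormedSpace ℝ V] [FiniteDimensional ℝ V]
    {D : ℕ} (hD : Module.finrank ℝ V = D) (hD1 : 1 ≤ D) :
    ∃ θ : Ch (Metric.sphere (0 : V) 1), (AS (Metric.sphere (0 : V) 1)).Coc univ D θ ∧
      (AS (Metric.sphere (0 : V) 1)).RT one D θ univ := by
  classical
  obtain ⟨c, hc, hRT⟩ := j15387_rt hD1
  have A : V ≃L[ℝ] EuclideanSpace ℝ (Fin D) := ContinuousLinearEquiv.ofFinrankEq (by
    rw [hD, finrank_euclideanSpace_fin])
  -- a point on the sphere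
  have hnt : Nontrivial V := Module.nontrivial_of_finrank_pos (R := ℝ) (by omega)
  obtain ⟨v0, hv0⟩ := exists_ne (0 : V)
  have nrm : ∀ v : V, v ≠ 0 → ‖(‖v‖⁻¹ • v)‖ = 1 := fun v hv => by
    rw [norm_smul, norm_inv, norm_norm, inv_mul_cancel₀ (norm_ne_zero_iff.2 hv)]
  have mem : ∀ v : V, v ≠ 0 → ‖v‖⁻¹ • v ∈ Metric.sphere (0 : V) 1 := fun v hv => by
    rw [mem_sphere_zero_iff_norm]; exact nrm v hv
  set g : Metric.sphere (0 : V) 1 → EuclideanSpace ℝ (Fin D) := fun x =>
    ‖A x.1‖⁻¹ • A x.1 with hgdef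
  set g' : EuclideanSpace ℝ (Fin D) → Metric.sphere (0 : V) 1 := fun y =>
    if h : A.symm y ≠ 0 then ⟨‖A.symm y‖⁻¹ • A.symm y, mem _ h⟩
    else ⟨‖v0‖⁻¹ • v0, mem _ hv0⟩ with hgdef'
  have hne : ∀ x : Metric.sphere (0 : V) 1, A x.1 ≠ 0 := by
    intro x h
    have h1 : x.1 = 0 := by
      have h2 := congrArg A.symm h
      rwa [ContinuousLinearEquiv.symm_apply_apply, map_zero] at h2
    have h3 := x.2
    rw [mem_sphere_zero_iff_norm, h1, norm_zero] at h3
    exact zero_ne_one h3
  have hgc : Continuous g := by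
    have h1 : Continuous fun x : Metric.sphere (0 : V) 1 => A x.1 :=
      A.continuous.comp continuous_subtype_val
    exact (h1.norm.inv₀ fun x => norm_ne_zero_iff.2 (hne x)).smul h1
  have hSne : ∀ y ∈ Sp D D, A.symm y ≠ 0 := by
    rintro y ⟨hy, _⟩ h
    have h1 : y = 0 := by
      have h2 := congrArg A h
      rwa [ContinuousLinearEquiv.apply_symm_apply, map_zero] at h2
    rw [h1, norm_zero] at hy
    exact zero_ne_one hy
  have hg'c : ∀ y ∈ Sp D D, ContinuousAt g' y := by
    intro y hy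
    rw [Topology.IsInducing.subtypeVal.continuousAt_iff]
    have h1 : ContinuousAt (fun y => ‖A.symm y‖⁻¹ • A.symm y) y := by
      have h2 : ContinuousAt (fun y => A.symm y) y := A.symm.continuous.continuousAt
      exact (h2.norm.inv₀ (norm_ne_zero_iff.2 (hSne y hy))).smul h2
    refine h1.congr ?_
    have h3 : ∀ᶠ z in 𝓝 y, A.symm z ≠ 0 :=
      A.symm.continuous.continuousAt.eventually_ne (hSne y hy)
    filter_upwards [h3] with z hz
    show _ = (g' z).1
    simp only [hgdef', dif_pos hz]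
  have hgS : MapsTo g univ (Sp D D) := by
    intro x _
    rw [sp_eq_sphere, mem_sphere_zero_iff_norm]
    show ‖(‖A x.1‖⁻¹ • A x.1)‖ = 1
    rw [norm_smul, norm_inv, norm_norm, inv_mul_cancel₀ (norm_ne_zero_iff.2 (hne x))]
  have hgg : ∀ x ∈ (univ : Set (Metric.sphere (0 : V) 1)), g' (g x) = x := by
    intro x _
    have h1 : A.symm (g x) = ‖A x.1‖⁻¹ • x.1 := by
      show A.symm (‖A x.1‖⁻¹ • A x.1) = _
      rw [map_smul, ContinuousLinearEquiv.symm_apply_apply]
    have hx : ‖x.1‖ = 1 := mem_sphere_zero_iff_norm.1 x.2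
    have hA : ‖A x.1‖ ≠ 0 := norm_ne_zero_iff.2 (hne x)
    have h2 : ‖A.symm (g x)‖ = ‖A x.1‖⁻¹ := by
      rw [h1, norm_smul, norm_inv, norm_norm, hx, mul_one]
    have h3 : A.symm (g x) ≠ 0 := by
      rw [← norm_ne_zero_iff, h2]
      exact inv_ne_zero hA
    apply Subtype.ext
    simp only [hgdef', dif_pos h3]
    rw [h2, h1, inv_inv, smul_smul, mul_inv_cancel₀ hA, one_smul]
  have hgg' : ∀ y ∈ Sp D D, g (g' y) = y := by
    intro y hy
    have h3 := hSne y hy
    have hA : ‖A.symm y‖ ≠ 0 := norm_ne_zero_iff.2 h3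
    have h1 : A (g' y).1 = ‖A.symm y‖⁻¹ • y := by
      simp only [hgdef', dif_pos h3]
      rw [map_smul, ContinuousLinearEquiv.apply_symm_apply]
    have h2 : ‖A (g' y).1‖ = ‖A.symm y‖⁻¹ := by
      rw [h1, norm_smul, norm_inv, norm_norm, hy.1, mul_one]
    show ‖A (g' y).1‖⁻¹ • A (g' y).1 = y
    rw [h2, h1, inv_inv, smul_smul, mul_inv_cancel₀ hA, one_smul]
  exact ⟨pb g c, coc_pb (fun x _ => hgc.continuousAt) hgS hc,
    rt_transfer (fun x _ => hgc.continuousAt) hg'c hgS (fun _ _ => mem_univ _) hgg hgg' hc hRT⟩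

theorem cup_zero_right {Ω : Type*} (d : ℕ) (a : Ch Ω) : cup d a 0 = 0 := by
  funext l
  by_cases h : d < l.length
  · rw [cup_of_lt h]; simp
  · rw [cup_of_le (not_lt.1 h)]; rfl

theorem j15388_cup_mem {Ω : Type*} [TopologicalSpace Ω] (e : ℕ) (a : Ch Ω) {x : Ω} {n : ℕ}
    {k : Ch Ω} (hk : k ∈ Nz x (n - e)) : cup e a k ∈ Nz x n := by
  rcases Nat.lt_or_ge e n with h | h
  · obtain ⟨W, hW, hxW, h3⟩ := exists_of_mem_Nz (by omega) hk
    refine mem_Nz_of (hW.mem_nhds hxW) fun l hl hx => ?_
    rw [cup_of_lt (by omega), h3 _ (by simp; omega) fun y hy => hx y (List.mem_of_mem_drop hy),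
      mul_zero]
  · exact mem_Nz_of Filter.univ_mem fun l hl _ => cup_of_le (by omega)

theorem j15388_cup_left {Ω : Type*} [TopologicalSpace Ω] (e : ℕ) {a : Ch Ω} (b : Ch Ω) {x : Ω}
    (n : ℕ) (ha : a ∈ Nz x (e + 1)) : cup e a b ∈ Nz x n := by
  obtain ⟨W, hW, hxW, h3⟩ := exists_of_mem_Nz (by omega) ha
  refine mem_Nz_of (hW.mem_nhds hxW) fun l hl hx => ?_
  rcases Nat.lt_or_ge e l.length with h | h
  · rw [cup_of_lt h, h3 (l.take (e + 1)) (by simp; omega) fun y hy =>
      hx y (List.mem_of_mem_take hy), zero_mul]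
  · exact cup_of_le h

theorem j15388_pb_cup {Ω Ω' : Type*} (f : Ω → Ω') (d : ℕ) (a b : Ch Ω') :
    pb f (cup d a b) = cup d (pb f a) (pb f b) := by
  funext l
  simp only [pb, cup, List.length_map, List.map_take, List.map_drop]

theorem gys_mem {T P : Type*} [MetricSpace T] [MetricSpace P] [CompactSpace T]
    (q : T → P) (hq : Continuous q) {d : ℕ} (hd : 1 ≤ d) (u : Ch P) (a : Ch T) (z : P) (n : ℕ)
    (k : Ch P) (hk : k ∈ ((AS P).shift d).N z n) :
    ((cup d u k, cup (d - 1) a (pb q k)) : Ch P × Ch T) ∈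
      (cone (phi q hq univ isCompact_univ)).N z n := by
  change k ∈ Nz z (n - d) at hk
  rw [cone_N]
  constructor
  · exact j15388_cup_mem d u hk
  · rw [SoftCx.mem_push_N]
    intro x hx
    have e : q x = z := hx.2
    change cup (d - 1) a (pb q k) ∈ Nz x (n - 1)
    apply j15388_cup_mem
    have e2 : n - 1 - (d - 1) = n - d := by omega
    rw [e2]
    rw [← e] at hk
    exact pb_mem_Nz hq.continuousAt hk

theorem gys_comm {T P : Type*} [MetricSpace T] [MetricSpace P] [CompactSpace T]
    (q : T → P) (hq : Continuous q) {d : ℕ} (hd : 1 ≤ d) (u : Ch P) (a : Ch T)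
    (hu : (AS P).Coc univ (d + 1) u)
    (ha : ∀ x : T, pb q u - dd a ∈ Nz x (d + 1)) (z : P) (n : ℕ) (k : Ch P) :
    (cone (phi q hq univ isCompact_univ)).D (cup d u k, cup (d - 1) a (pb q k)) -
      ((cup d u (dd k), cup (d - 1) a (pb q (dd k))) : Ch P × Ch T) ∈
      (cone (phi q hq univ isCompact_univ)).N z n := by
  rw [cone_N]
  constructor
  · change dd (cup d u k) - cup d u (dd k) ∈ Nz z n
    have e : dd (cup d u k) - cup d u (dd k) = cup (d + 1) (dd u) k := by
      funext l
      rw [Pi.sub_apply, leibniz, add_sub_cancel_right]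
    rw [e]
    exact j15388_cup_left (d + 1) k n (hu z (mem_univ z))
  · rw [SoftCx.mem_push_N]
    intro x hx
    change pb q (cup d u k) - dd (cup (d - 1) a (pb q k)) - cup (d - 1) a (pb q (dd k)) ∈
      Nz x (n - 1)
    have e : pb q (cup d u k) - dd (cup (d - 1) a (pb q k)) - cup (d - 1) a (pb q (dd k)) =
        cup d (pb q u - dd a) (pb q k) := by
      funext l
      have h1 : cup d (pb q u) (pb q k) l =
          cup d (pb q u - dd a) (pb q k) l + cup d (dd a) (pb q k) l := by
        rw [← Pi.add_apply, ← cup_add_left, sub_add_cancel]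
      have h2 := leibniz (d - 1) a (pb q k) l
      rw [Nat.sub_add_cancel hd, dd_pb] at h2
      have h3 := add_self2 (cup (d - 1) a (pb q (dd k)) l)
      rw [Pi.sub_apply, Pi.sub_apply, j15388_pb_cup, h1, h2]
      linear_combination -h3
    rw [e]
    exact j15388_cup_left d (pb q k) (n - 1) (ha x)

/-- the Gysin morphism. -/
noncomputable def Gys {T P : Type*} [MetricSpace T] [MetricSpace P] [CompactSpace T]
    (q : T → P) (hq : Continuous q) {d : ℕ} (hd : 1 ≤ d) (u : Ch P) (a : Ch T)
    (hu : (AS P).Coc univ (d + 1) u)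
    (ha : ∀ x : T, pb q u - dd a ∈ Nz x (d + 1)) :
    Mor ((AS P).shift d) (cone (phi q hq univ isCompact_univ)) where
  f := { toFun := fun b => (cup d u b, cup (d - 1) a (pb q b))
         map_zero' := by
           have h0 : pb q (0 : Ch P) = 0 := rfl
           rw [h0, cup_zero_right, cup_zero_right]; rfl
         map_add' := fun b b' => by
           have h0 : pb q (b + b') = pb q b + pb q b' := rfl
           rw [h0, cup_add_right, cup_add_right]; rfl }
  mem := gys_mem q hq hd u a
  comm := gys_comm q hq hd u a hu ha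

theorem Gys_f {T P : Type*} [MetricSpace T] [MetricSpace P] [CompactSpace T]
    (q : T → P) (hq : Continuous q) {d : ℕ} (hd : 1 ≤ d) (u : Ch P) (a : Ch T)
    (hu : (AS P).Coc univ (d + 1) u)
    (ha : ∀ x : T, pb q u - dd a ∈ Nz x (d + 1)) (b : Ch P) :
    (Gys q hq hd u a hu ha).f b = (cup d u b, cup (d - 1) a (pb q b)) := rfl

theorem j15389_fst {T P : Type*} [MetricSpace T] [MetricSpace P] [CompactSpace T]
    (q : T → P) (hq : Continuous q) {ν : ℕ} {k : Ch P × Ch T}
    (h : (cone (phi q hq univ isCompact_univ)).Cob univ ν k) : (AS P).Cob univ ν k.1 := by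
  obtain ⟨k', hk'⟩ := h
  refine ⟨k'.1, fun z hz => ?_⟩
  have h1 := ((cone_N _ z ν _).1 (hk' z hz)).1
  exact h1

theorem j15389_local {T P : Type*} [MetricSpace T] [MetricSpace P] [CompactSpace T]
    (q : T → P) (hq : Continuous q) {d : ℕ} (hd : 1 ≤ d) (U : Set P) (a : Ch T)
    (ha : (AS T).Coc (q ⁻¹' U) d a) (hRT : ∀ w' ∈ U, (AS T).RT one d a (q ⁻¹' {w'})) :
    (cone (phi q hq univ isCompact_univ)).Coc U (d + 1) (0, a) ∧
      ∀ w' ∈ U, (cone (phi q hq univ isCompact_univ)).One w' (d + 1) (0, a) := by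
  constructor
  · intro z hz
    rw [cone_N, cone_D]
    constructor
    · show (AS P).D 0 ∈ (AS P).N z (d + 1 + 1)
      rw [map_zero]
      exact zero_mem _
    · show (phi q hq univ isCompact_univ).f 0 - (PF q hq univ isCompact_univ).D a ∈
        (PF q hq univ isCompact_univ).N z (d + 1)
      rw [map_zero, zero_sub]
      apply neg_mem
      rw [mem_push_N]
      intro x hx
      have hxz : q x = z := hx.2
      have hxU : x ∈ q ⁻¹' U := by
        show q x ∈ U
        rw [hxz]; exact hz
      exact ha x hxU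
  · intro w' hw'
    apply one_of_rt (phi q hq univ isCompact_univ) one hd a w' (one_D_mem w') (acy_singleton w')
    have h1 : (phi q hq univ isCompact_univ).f one = one := by
      rw [phi_f, pb_one]
    rw [h1, push_rt]
    have h2 : (univ : Set T) ∩ q ⁻¹' {w'} = q ⁻¹' {w'} := univ_inter _
    rw [h2]
    exact hRT w' hw'

theorem j15389_gen {T P : Type*} [MetricSpace T] [MetricSpace P] [CompactSpace T]
    [CompactSpace P] (q : T → P) (hq : Continuous q) {d : ℕ} (hd : 1 ≤ d)
    (hloc : ∀ w : P, ∃ U : Set P, IsOpen U ∧ w ∈ U ∧ ∃ a : Ch T, (AS T).Coc (q ⁻¹' U) d a ∧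
      ∀ w' ∈ U, (AS T).RT one d a (q ⁻¹' {w'})) :
    ∃ (u : Ch P) (a : Ch T), (AS P).Coc univ (d + 1) u ∧
      (∀ x : T, pb q u - dd a ∈ Nz x (d + 1)) ∧
      ∀ w, (cone (phi q hq univ isCompact_univ)).One w (d + 1) (u, a) := by
  obtain ⟨⟨u, a⟩, h1, h2⟩ := exists_generator (C := cone (phi q hq univ isCompact_univ))
    (A := univ) isCompact_univ (e := d + 1) (by
      intro w _
      obtain ⟨U, hU, hwU, a, ha, hRT⟩ := hloc w
      obtain ⟨h3, h4⟩ := j15389_local q hq hd U a ha hRT
      refine ⟨U, hU, hwU, (0, a), ?_, ?_⟩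
      · exact h3.mono inter_subset_left
      · intro w' hw'
        exact h4 w' hw'.1)
  refine ⟨u, a, ?_, ?_, fun w => h2 w (mem_univ w)⟩
  · intro z hz
    exact ((cone_N _ z _ _).1 (h1 z hz)).1
  · intro x
    have h3 := ((cone_N _ (q x) _ _).1 (h1 (q x) (mem_univ _))).2
    have h4 := (mem_push_N (AS T) q hq univ isCompact_univ (q x) (d + 1) _).1 h3 x
      ⟨mem_univ _, rfl⟩
    exact h4

theorem j15389_cone {T P : Type*} [MetricSpace T] [MetricSpace P] [CompactSpace T]
    [CompactSpace P] (q : T → P) (hq : Continuous q) {d : ℕ} (hd : 1 ≤ d) (u : Ch P) (a : Ch T)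
    (hu : (AS P).Coc univ (d + 1) u)
    (ha : ∀ x : T, pb q u - dd a ∈ Nz x (d + 1))
    (hone : ∀ w, (cone (phi q hq univ isCompact_univ)).One w (d + 1) (u, a)) (ν : ℕ) :
    (cone (Gys q hq hd u a hu ha)).Ex univ ν := by
  apply ex_of_pointwise ν isCompact_univ
  intro w _ m _
  apply cone_one_ex (Gys q hq hd u a hu ha) one w (one_D_mem w) (acy_singleton w)
  apply One.congr (hone w)
  apply Cob.of_mem
  intro z hz
  rw [Gys_f, cone_N]
  constructor
  · show u - cup d u one ∈ Nz z (d + 1)
    refine mem_Nz_of Filter.univ_mem fun l hl _ => ?_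
    rw [Pi.sub_apply, cup_of_lt (by omega), List.take_of_length_le (by omega)]
    show u l - u l * 1 = 0
    rw [mul_one, sub_self]
  · show a - cup (d - 1) a (pb q one) ∈ (PF q hq univ isCompact_univ).N z d
    rw [mem_push_N]
    intro x _
    refine mem_Nz_of Filter.univ_mem fun l hl _ => ?_
    rw [Pi.sub_apply, cup_of_lt (by omega), List.take_of_length_le (by omega)]
    show a l - a l * 1 = 0
    rw [mul_one, sub_self]

/-- The cohomology ring of the base of a sphere bundle with highly connected total space is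
generated by one class. -/
theorem ring_of_bundle {T P : Type*} [MetricSpace T] [MetricSpace P] [CompactSpace T]
    [CompactSpace P] [ConnectedSpace P] (q : T → P) (hq : Continuous q) {d n : ℕ} (hd : 1 ≤ d)
    (hT : ∀ ν, 2 ≤ ν → ν ≤ d * n → (AS T).Ex univ ν)
    (hloc : ∀ w : P, ∃ U : Set P, IsOpen U ∧ w ∈ U ∧ ∃ a : Ch T, (AS T).Coc (q ⁻¹' U) d a ∧
      ∀ w' ∈ U, (AS T).RT one d a (q ⁻¹' {w'})) :
    ∃ u : Ch P, (AS P).Coc univ (d + 1) u ∧ ∀ ν, 2 ≤ ν → ν ≤ d * n →
      ∀ c, (AS P).Coc univ ν c → (AS P).Cob univ ν c ∨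
        ∃ i, ν = i * d + 1 ∧ (AS P).Cob univ ν (c - upow d u i) := by
  obtain ⟨u, a, hu, ha, hone⟩ := j15389_gen q hq hd hloc
  refine ⟨u, hu, ?_⟩
  have hEx := j15389_cone q hq hd u a hu ha hone
  have hkey : ∀ ν k, ((AS P).shift d).Cob univ ν k → (AS P).Cob univ ν (cup d u k) := by
    intro ν k hk
    have h1 := Mor.cob (Gys q hq hd u a hu ha) hk
    rw [Gys_f] at h1
    exact j15389_fst q hq h1
  have hsub : ∀ b b' : Ch P, cup d u (b - b') = cup d u b - cup d u b' := by
    intro b b'
    have h1 := cup_add_right d u (b - b') b'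
    rw [sub_add_cancel] at h1
    rw [h1, add_sub_cancel_right]
  intro ν
  induction ν using Nat.strong_induction_on with
  | _ ν ih =>
    intro hν2 hνn c hc
    have hpc : (AS T).Coc univ ν (pb q c) :=
      coc_pb (F := univ) (F' := univ) (fun x _ => hq.continuousAt) (fun _ _ => mem_univ _) hc
    obtain ⟨f', hf'⟩ := hT ν hν2 hνn _ hpc
    have hcc : (cone (phi q hq univ isCompact_univ)).Coc univ ν (c, f') := by
      intro z hz
      rw [cone_N, cone_D]
      refine ⟨hc z hz, ?_⟩
      show (phi q hq univ isCompact_univ).f c - (PF q hq univ isCompact_univ).D f' ∈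
        (PF q hq univ isCompact_univ).N z ν
      rw [mem_push_N]
      intro x _
      exact hf' x (mem_univ _)
    obtain ⟨b, hb1, hb2⟩ := cone_surj (Gys q hq hd u a hu ha) (hEx (ν + 1)) hcc
    rw [Gys_f] at hb2
    have hb3 : (AS P).Cob univ ν (c - cup d u b) := j15389_fst q hq hb2
    rcases Nat.lt_or_ge d ν with h | h
    · rcases Nat.eq_or_lt_of_le (Nat.succ_le_of_lt h) with h' | h'
      · -- ν = d + 1
        have h'' : ν = d + 1 := h'.symm
        subst h''
        have hb4 : (AS P).Coc univ 1 b := by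
          intro z hz
          have h5 := hb1 z hz
          have h6 : d + 1 + 1 - d = 1 + 1 := by omega
          have h7 : (AS P).D b ∈ (AS P).N z (d + 1 + 1 - d) := h5
          rwa [h6] at h7
        rcases coc_one_connected b hb4 with h8 | h8
        · left
          have h9 : ((AS P).shift d).Cob univ (d + 1) b := by
            apply Cob.of_mem
            intro z hz
            show b ∈ (AS P).N z (d + 1 - d)
            rw [show d + 1 - d = 1 by omega]
            exact h8 z hz
          have h10 := hb3.add (hkey _ _ h9)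
          rwa [sub_add_cancel] at h10
        · right
          refine ⟨1, by omega, ?_⟩
          have h9 : ((AS P).shift d).Cob univ (d + 1) (b - one) := by
            apply Cob.of_mem
            intro z hz
            show b - one ∈ (AS P).N z (d + 1 - d)
            rw [show d + 1 - d = 1 by omega]
            exact h8 z hz
          have h10 := hb3.add (hkey _ _ h9)
          rw [hsub, sub_add_sub_cancel] at h10
          exact h10
      · -- ν ≥ d + 2
        have h2 : d + 2 ≤ ν := h'
        have hb4 : (AS P).Coc univ (ν - d) b := by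
          intro z hz
          have h7 : (AS P).D b ∈ (AS P).N z (ν + 1 - d) := hb1 z hz
          have h6 : ν + 1 - d = ν - d + 1 := by omega
          rwa [h6] at h7
        rcases ih (ν - d) (by omega) (by omega) (by omega) b hb4 with h8 | ⟨i, hi, h8⟩
        · left
          have h10 := hb3.add (hkey ν b h8)
          rwa [sub_add_cancel] at h10
        · right
          refine ⟨i + 1, ?_, ?_⟩
          · have : (i + 1) * d = i * d + d := by ring
            omega
          · have h10 := hb3.add (hkey ν _ h8)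
            rw [hsub, sub_add_sub_cancel] at h10
            exact h10
    · -- ν ≤ d
      left
      have h9 : ((AS P).shift d).Cob univ ν b := by
        apply Cob.of_mem
        intro z hz
        show b ∈ (AS P).N z (ν - d)
        rw [show ν - d = 0 by omega]
        exact (AS P).N_zero z b
      have h10 := hb3.add (hkey _ _ h9)
      rwa [sub_add_cancel] at h10

end Pool.Agent.Helper775.Tight
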