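import Pool.Agent.Helper775.Proj.Rel
import Pool.Agent.Helper775.Tight.Dim

/-! The tower of fibre powers of the incidence space. -/

set_option autoImplicit false

namespace Pool.Agent.Helper775.Tight

open Set Topology SoftCx
open scoped InnerProductSpace

/-- the `r`-fold fibre power of the incidence space over the sphere. -/
def TG {X E : Type*} [NormedAddCommGroup E] [InnerProductSpace ℝ E] (f : X → E) (r : ℕ) :
    Set ((Fin r → X) × E) := {q | ‖q.2‖ = 1 ∧ ∀ i, q.1 i ∈ top f q.2}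

section tower

variable {X : Type*} [MetricSpace X] [CompactSpace X] {E : Type*} [NormedAddCommGroup E]
  [InnerProductSpace ℝ E] [FiniteDimensional ℝ E] {f : X → E} (hf : Continuous f)

include hf

omit hf in
/-- transfer of the type `FT` along a homeomorphism. -/
theorem ft_transfer15147 {Ω Ω' : Type*} [MetricSpace Ω] [MetricSpace Ω'] {F : Set Ω} {F' : Set Ω'}
    {g : Ω → Ω'} {g' : Ω' → Ω}
    (hg : ∀ x ∈ F, ContinuousAt g x) (hg' : ∀ y ∈ F', ContinuousAt g' y) (hF : MapsTo g F F')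
    (hF' : MapsTo g' F' F) (hgg : ∀ x ∈ F, g' (g x) = x) (hgg' : ∀ y ∈ F', g (g' y) = y)
    {γ : ℕ → Ch Ω'} {d m : ℕ} (hγ : ∀ i ≤ m, (AS Ω').Coc F' (i * d + 1) (γ i))
    (h : (AS Ω').FT γ d m F') : (AS Ω).FT (fun i => pb g (γ i)) d m F := by
  refine ⟨fun i hi => ⟨fun k hk => ?_, fun hc => ?_⟩, fun n hn => ?_⟩
  · have h1 : (AS Ω').Coc F' (i * d + 1) (pb g' k) := coc_pb hg' hF' hk
    have h2 : (AS Ω).Cob F (i * d + 1) (k - pb g (pb g' k)) :=
      cob_retract hg hg' hF hF' hgg hk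
    rcases (h.1 i hi).1 _ h1 with h3 | h3
    · left
      have h4 := h2.add (cob_pb hg hF h3)
      rwa [sub_add_cancel] at h4
    · right
      have h4 : (AS Ω).Cob F (i * d + 1) (pb g (pb g' k) - pb g (γ i)) := cob_pb hg hF h3
      have h5 := h2.add h4
      rwa [sub_add_sub_cancel] at h5
  · apply (h.1 i hi).2
    have h3 : (AS Ω').Cob F' (i * d + 1) (pb g' (pb g (γ i))) := cob_pb hg' hF' hc
    have h4 : (AS Ω').Cob F' (i * d + 1) (γ i - pb g' (pb g (γ i))) :=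
      cob_retract hg' hg hF' hF hgg' (hγ i hi)
    have h5 := h4.add h3
    rwa [sub_add_cancel] at h5
  · exact ex_retract hg hg' hF hF' hgg (h.2 n hn)

omit [FiniteDimensional ℝ E] in
theorem isClosed_TG15147 (r : ℕ) : IsClosed (TG f r) := by
  refine (isClosed_eq (continuous_snd.norm) continuous_const).inter ?_
  have h : {q : (Fin r → X) × E | ∀ i, q.1 i ∈ top f q.2} =
      ⋂ i, ⋂ y, {q : (Fin r → X) × E | ⟪q.2, f y⟫_ℝ ≤ ⟪q.2, f (q.1 i)⟫_ℝ} := by
    ext q; simp [top]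
  change IsClosed {q : (Fin r → X) × E | ∀ i, q.1 i ∈ top f q.2}
  rw [h]
  refine isClosed_iInter fun i => isClosed_iInter fun y => isClosed_le ?_ ?_
  · exact continuous_snd.inner continuous_const
  · exact continuous_snd.inner (hf.comp ((continuous_apply i).comp continuous_fst))

theorem isCompact_TG (r : ℕ) : IsCompact (TG f r) := by
  refine (isCompact_univ.prod (isCompact_sphere (0 : E) 1)).of_isClosed_subset
    (isClosed_TG15147 hf r) ?_
  intro q hq
  exact ⟨mem_univ _, by simpa using hq.1⟩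

omit hf in
theorem continuous_pr15147 (r : ℕ) :
    Continuous (fun q : (Fin (r + 1) → X) × E => ((Fin.tail q.1, q.2) : (Fin r → X) × E)) :=
  (continuous_pi fun i => (continuous_apply i.succ).comp continuous_fst).prodMk continuous_snd

omit hf in
theorem pre_eq15147 (f : X → E) (r : ℕ) (B : Set E) :
    TG f (r + 1) ∩ (fun q : (Fin (r + 1) → X) × E => ((Fin.tail q.1, q.2) : (Fin r → X) × E)) ⁻¹'
      (TG f r ∩ Prod.snd ⁻¹' B) = TG f (r + 1) ∩ Prod.snd ⁻¹' B := by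
  ext q
  constructor
  · rintro ⟨h1, h2⟩
    exact ⟨h1, h2.2⟩
  · rintro ⟨h1, h2⟩
    exact ⟨h1, ⟨h1.1, fun i => h1.2 i.succ⟩, h2⟩

omit hf in
theorem fibre15147 {d m : ℕ} {g : ℕ → Ch X} (hg : ∀ i, (AS X).Coc univ (i * d + 1) (g i))
    {B B' : Set E} (hfib : ∀ z ∈ B \ B', (AS X).FT g d m (top f z)) (r : ℕ)
    (w : (Fin r → X) × E) (hw : w ∈ (TG f r ∩ Prod.snd ⁻¹' B) \ (TG f r ∩ Prod.snd ⁻¹' B')) :
    (AS ((Fin (r + 1) → X) × E)).FT
      (fun i => pb (fun q : (Fin (r + 1) → X) × E => q.1 0) (g i)) d m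
      (TG f (r + 1) ∩ (fun q : (Fin (r + 1) → X) × E =>
        ((Fin.tail q.1, q.2) : (Fin r → X) × E)) ⁻¹' {w}) := by
  obtain ⟨x, z⟩ := w
  obtain ⟨⟨hT, hB⟩, hn⟩ := hw
  have hz : z ∈ B \ B' := ⟨hB, fun h => hn ⟨hT, h⟩⟩
  have hz1 : ‖z‖ = 1 := hT.1
  have hx : ∀ i, x i ∈ top f z := hT.2
  have hcont0 : Continuous (fun q : (Fin (r + 1) → X) × E => q.1 0) :=
    (continuous_apply (0 : Fin (r + 1))).comp continuous_fst
  have hcons : Continuous (fun y : X => ((Fin.cons y x, z) : (Fin (r + 1) → X) × E)) := by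
    refine Continuous.prodMk ?_ continuous_const
    exact Continuous.finCons (A := fun _ : Fin (r + 1) => X) continuous_id continuous_const
  refine ft_transfer15147 (F' := top f z)
    (g := fun q : (Fin (r + 1) → X) × E => q.1 0)
    (g' := fun y : X => ((Fin.cons y x, z) : (Fin (r + 1) → X) × E))
    (fun q _ => hcont0.continuousAt) (fun y _ => hcons.continuousAt) ?_ ?_ ?_ ?_ ?_ (hfib z hz)
  · rintro q ⟨hq1, hq2⟩
    have e : q.2 = z := congrArg Prod.snd (show ((Fin.tail q.1, q.2) : (Fin r → X) × E) = (x, z) from hq2)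
    have := hq1.2 0
    rw [e] at this
    exact this
  · intro y hy
    refine ⟨⟨hz1, fun i => ?_⟩, ?_⟩
    · refine Fin.cases ?_ (fun j => ?_) i
      · exact hy
      · exact hx j
    · change ((Fin.tail (Fin.cons y x : Fin (r + 1) → X), z) : (Fin r → X) × E) = (x, z)
      rw [Fin.tail_cons]
  · rintro ⟨u, v⟩ ⟨hq1, hq2⟩
    have e : ((Fin.tail u, v) : (Fin r → X) × E) = (x, z) := hq2
    have e1 : Fin.tail u = x := congrArg Prod.fst e
    have e2 : v = z := congrArg Prod.snd e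
    change ((Fin.cons (u 0) x, z) : (Fin (r + 1) → X) × E) = (u, v)
    rw [← e1, ← e2, Fin.cons_self_tail]
  · intro y hy
    rfl
  · intro i _
    exact (hg i).mono (subset_univ _)

/-- one step of the tower: vanishing. -/
theorem tower_up {d m : ℕ} (hd : 1 ≤ d) {g : ℕ → Ch X}
    (hg : ∀ i, (AS X).Coc univ (i * d + 1) (g i)) {B B' : Set E} (hB : IsCompact B)
    (hB' : IsCompact B') (hBB : B' ⊆ B)
    (hfib : ∀ z ∈ B \ B', (AS X).FT g d m (top f z)) (r n : ℕ)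
    (h : ∀ i ≤ m, (AS ((Fin r → X) × E)).RelEx (TG f r ∩ Prod.snd ⁻¹' B)
      (TG f r ∩ Prod.snd ⁻¹' B') (n - i * d)) :
    (AS ((Fin (r + 1) → X) × E)).RelEx (TG f (r + 1) ∩ Prod.snd ⁻¹' B)
      (TG f (r + 1) ∩ Prod.snd ⁻¹' B') n := by
  have hcont0 : Continuous (fun q : (Fin (r + 1) → X) × E => q.1 0) :=
    (continuous_apply (0 : Fin (r + 1))).comp continuous_fst
  have key := rel_up (continuous_pr15147 (X := X) (E := E) r) (isCompact_TG hf (r + 1))
    ((isCompact_TG hf r).inter_right (hB.isClosed.preimage continuous_snd))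
    ((isCompact_TG hf r).inter_right (hB'.isClosed.preimage continuous_snd))
    (inter_subset_inter_right _ (preimage_mono hBB)) hd
    (g := fun i => pb (fun q : (Fin (r + 1) → X) × E => q.1 0) (g i))
    (fun i _ => coc_pb (fun q _ => hcont0.continuousAt) (fun q _ => mem_univ _) (hg i))
    (fibre15147 hg hfib r) n h
  rwa [pre_eq15147, pre_eq15147] at key

/-- one step of the tower: non-vanishing. -/
theorem tower_ne {d m : ℕ} (hd : 1 ≤ d) {g : ℕ → Ch X}
    (hg : ∀ i, (AS X).Coc univ (i * d + 1) (g i)) {B B' : Set E} (hB : IsCompact B)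
    (hB' : IsCompact B') (hBB : B' ⊆ B)
    (hfib : ∀ z ∈ B \ B', (AS X).FT g d m (top f z)) (r : ℕ) {ν : ℕ}
    (h : ¬ (AS ((Fin r → X) × E)).RelEx (TG f r ∩ Prod.snd ⁻¹' B)
      (TG f r ∩ Prod.snd ⁻¹' B') ν) :
    ¬ (AS ((Fin (r + 1) → X) × E)).RelEx (TG f (r + 1) ∩ Prod.snd ⁻¹' B)
      (TG f (r + 1) ∩ Prod.snd ⁻¹' B') (ν + m * d) := by
  have hcont0 : Continuous (fun q : (Fin (r + 1) → X) × E => q.1 0) :=
    (continuous_apply (0 : Fin (r + 1))).comp continuous_fst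
  have key := rel_ne (continuous_pr15147 (X := X) (E := E) r) (isCompact_TG hf (r + 1))
    ((isCompact_TG hf r).inter_right (hB.isClosed.preimage continuous_snd))
    ((isCompact_TG hf r).inter_right (hB'.isClosed.preimage continuous_snd))
    (inter_subset_inter_right _ (preimage_mono hBB)) hd
    (g := fun i => pb (fun q : (Fin (r + 1) → X) × E => q.1 0) (g i))
    (fun i _ => coc_pb (fun q _ => hcont0.continuousAt) (fun q _ => mem_univ _) (hg i))
    (fibre15147 hg hfib r) h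
  rwa [pre_eq15147, pre_eq15147] at key

theorem j15148_acy (h0 : ∀ z : E, z ≠ 0 → ∃ x, 0 < ⟪z, f x⟫_ℝ) {r : ℕ} (hr : 1 ≤ r)
    {x : Fin r → X} (hne : ∃ z : E, ‖z‖ = 1 ∧ ∀ i, x i ∈ top f z) :
    (AS E).Acy one {z : E | ‖z‖ = 1 ∧ ∀ i, x i ∈ top f z} := by
  have hcl : IsCompact {z : E | ‖z‖ = 1 ∧ ∀ i, x i ∈ top f z} := by
    have h1 : IsClosed {z : E | ‖z‖ = 1 ∧ ∀ i, x i ∈ top f z} := by
      refine (isClosed_eq continuous_norm continuous_const).inter ?_
      have : {z : E | ∀ i, x i ∈ top f z} =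
          ⋂ i, ⋂ y, {z : E | ⟪z, f y⟫_ℝ ≤ ⟪z, f (x i)⟫_ℝ} := by
        ext q; simp [top]
      change IsClosed {z : E | ∀ i, x i ∈ top f z}
      rw [this]
      exact isClosed_iInter fun i => isClosed_iInter fun y =>
        isClosed_le (continuous_id.inner continuous_const)
          (continuous_id.inner continuous_const)
    refine (isCompact_sphere (0 : E) 1).of_isClosed_subset h1 ?_
    intro z hz
    simpa using hz.1
  let i0 : Fin r := ⟨0, hr⟩
  have hpos : ∀ z : E, ‖z‖ = 1 → x i0 ∈ top f z → 0 < ⟪z, f (x i0)⟫_ℝ := by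
    intro z hz hx
    obtain ⟨y, hy⟩ := h0 z (by rintro rfl; simp at hz)
    exact hy.trans_le (hx y)
  refine acy_spherical hcl hne (fun z hz => hz.1) (f (x i0))
    (fun z hz => hpos z hz.1 (hz.2 i0)) ?_
  intro z hz z' hz' t ht
  have hne0 : (1 - t) • z + t • z' ≠ 0 := by
    intro h
    have h1 : 0 < ⟪(1 - t) • z + t • z', f (x i0)⟫_ℝ := by
      rw [inner_add_left, real_inner_smul_left, real_inner_smul_left]
      have h2 := hpos z hz.1 (hz.2 i0)
      have h3 := hpos z' hz'.1 (hz'.2 i0)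
      rcases eq_or_lt_of_le ht.1 with h | h
      · rw [← h]; simpa using h2
      · have := mul_pos h h3
        have := mul_nonneg (sub_nonneg.2 ht.2) h2.le
        linarith
    rw [h, inner_zero_left] at h1
    exact lt_irrefl _ h1
  refine ⟨norm_smul_inv_norm hne0, fun i => ?_⟩
  rw [smul_add, smul_smul, smul_smul]
  exact top_conv (hz.2 i) (hz'.2 i) (mul_nonneg (by positivity) (sub_nonneg.2 ht.2))
    (mul_nonneg (by positivity) ht.1)

/-- high-dimensional vanishing for the fibre powers. -/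
theorem tower_ex (h0 : ∀ z : E, z ≠ 0 → ∃ x, 0 < ⟪z, f x⟫_ℝ) {D : ℕ} (r : ℕ) (hr : 1 ≤ r)
    (hdim : ∀ Z : Set (Fin r → X), IsCompact Z → ∀ ν, r * D + 2 ≤ ν → (AS (Fin r → X)).Ex Z ν)
    (ν : ℕ) (hν : r * D + 2 ≤ ν) : (AS ((Fin r → X) × E)).Ex (TG f r) ν := by
  have hG := isCompact_TG hf r
  refine vietoris_begle (p := Prod.fst) continuous_fst hG ?_
    (hdim _ (hG.image continuous_fst) ν hν)
  rintro w ⟨⟨w', z⟩, hq, hw⟩
  have hw2 : w' = w := hw
  subst hw2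
  have h1 := j15148_acy hf h0 hr (x := w') ⟨z, hq.1, hq.2⟩
  refine acy_retract (g := Prod.snd) (g' := fun z => (w', z))
    (fun x _ => continuous_snd.continuousAt)
    (fun x _ => (Continuous.prodMk_right w').continuousAt) ?_ ?_ ?_ ⟨_, hq, rfl⟩ h1
  · rintro ⟨x, z⟩ ⟨h2, h3⟩
    have : x = w' := h3
    subst this
    exact ⟨h2.1, h2.2⟩
  · rintro z ⟨h2, h3⟩
    exact ⟨⟨h2, h3⟩, rfl⟩
  · rintro ⟨x, z⟩ ⟨h2, h3⟩
    have : x = w' := h3
    rw [this]

end tower

/-- arithmetic: `σ m = ∑_{i=1}^m (i d + 1)`. -/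
def sg (d m : ℕ) : ℕ := m + d * (m * (m + 1) / 2)

theorem j15149_tri (m : ℕ) : 2 * (m * (m + 1) / 2) = m * (m + 1) := by
  rw [mul_comm]
  exact Nat.div_mul_cancel (Nat.even_mul_succ_self m).two_dvd

theorem j15149_two (d m : ℕ) : 2 * sg d m = 2 * m + d * (m * (m + 1)) := by
  unfold sg
  have h := j15149_tri m
  calc 2 * (m + d * (m * (m + 1) / 2)) = 2 * m + d * (2 * (m * (m + 1) / 2)) := by ring
    _ = _ := by rw [h]

theorem sg_zero (d : ℕ) : sg d 0 = 0 := by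
  simp [sg]

theorem sg_up {d p m : ℕ} (h : p < m) : sg d p + d * (m - p) * (p + 1) + 1 ≤ sg d m := by
  obtain ⟨t, rfl⟩ : ∃ t, m = p + 1 + t := ⟨m - (p + 1), by omega⟩
  have e : p + 1 + t - p = t + 1 := by omega
  rw [e]
  have h1 := j15149_two d p
  have h2 := j15149_two d (p + 1 + t)
  have h3 : 2 * (sg d p + d * (t + 1) * (p + 1) + 1) ≤ 2 * sg d (p + 1 + t) := by
    have h4 : 2 * (sg d p + d * (t + 1) * (p + 1) + 1) + (2 * t + d * (t + t * t))
        = 2 * sg d (p + 1 + t) := by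
      rw [h2]
      have : 2 * (sg d p + d * (t + 1) * (p + 1) + 1) =
        2 * sg d p + 2 * (d * (t + 1) * (p + 1) + 1) := by ring
      rw [this, h1]
      ring
    omega
  omega

theorem sg_down {d p m : ℕ} (hd : 1 ≤ d) (h : m < p) :
    sg d p ≤ sg d m + d * (p - m) * (p + 1) := by
  obtain ⟨t, rfl⟩ : ∃ t, p = m + 1 + t := ⟨p - (m + 1), by omega⟩
  obtain ⟨c, rfl⟩ : ∃ c, d = c + 1 := ⟨d - 1, by omega⟩
  have e : m + 1 + t - m = t + 1 := by omega
  rw [e]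
  have h1 := j15149_two (c + 1) m
  have h2 := j15149_two (c + 1) (m + 1 + t)
  have h4 : 2 * sg (c + 1) (m + 1 + t) + (c * ((t + 1) * (t + 2)) + t * (t + 1)) =
      2 * (sg (c + 1) m + (c + 1) * (t + 1) * (m + 1 + t + 1)) := by
    have : 2 * (sg (c + 1) m + (c + 1) * (t + 1) * (m + 1 + t + 1)) =
      2 * sg (c + 1) m + 2 * ((c + 1) * (t + 1) * (m + 1 + t + 1)) := by ring
    rw [this, h1, h2]
    ring
  omega

theorem sg_final {d n p N ν : ℕ} (hp : p < n) (h1 : N ≤ ν + sg d p)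
    (h2 : ν + (p + 1) * (p * d) ≤ (p + 1) * (d * n) + 1) : N ≤ n + d * (n * (n + 1) / 2) := by
  have h3 := sg_up (d := d) hp
  obtain ⟨s, rfl⟩ : ∃ s, n = p + 1 + s := ⟨n - (p + 1), by omega⟩
  have e : p + 1 + s - p = s + 1 := by omega
  rw [e] at h3
  change N ≤ sg d (p + 1 + s)
  have h4 : (p + 1) * (d * (p + 1 + s)) = (p + 1) * (p * d) + d * (s + 1) * (p + 1) := by ring
  rw [h4] at h2
  omega

theorem tw15150_max {n M : ℕ} (Bad : ℕ → ℕ → Prop) (hM : ∀ m k, m < n → Bad m k → k < M)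
    (s : ℕ → ℕ) (m0 k0 : ℕ) (hm0 : m0 < n) (h0 : Bad m0 k0) :
    ∃ p v, p < n ∧ Bad p v ∧ ∀ m k, m < n → Bad m k →
      k + s m < v + s p ∨ (k + s m = v + s p ∧ m ≤ p) := by
  classical
  set F : Finset (ℕ × ℕ) := (Finset.range n ×ˢ Finset.range M).filter fun q => Bad q.1 q.2 with hF
  have hne : F.Nonempty := ⟨(m0, k0), by
    rw [hF, Finset.mem_filter, Finset.mem_product]
    exact ⟨⟨Finset.mem_range.2 hm0, Finset.mem_range.2 (hM _ _ hm0 h0)⟩, h0⟩⟩
  obtain ⟨⟨p, v⟩, hpv, hmax⟩ := F.exists_max_image (fun q => (q.2 + s q.1) * (n + 1) + q.1) hne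
  rw [hF, Finset.mem_filter, Finset.mem_product] at hpv
  have hp : p < n := Finset.mem_range.1 hpv.1.1
  refine ⟨p, v, hp, hpv.2, fun m k hm hmk => ?_⟩
  have h1 := hmax (m, k) (by
    rw [hF, Finset.mem_filter, Finset.mem_product]
    exact ⟨⟨Finset.mem_range.2 hm, Finset.mem_range.2 (hM _ _ hm hmk)⟩, hmk⟩)
  simp only at h1
  rcases Nat.lt_trichotomy (k + s m) (v + s p) with h2 | h2 | h2
  · exact Or.inl h2
  · right
    rw [h2] at h1
    exact ⟨h2, by omega⟩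
  · exfalso
    have h3 : (v + s p + 1) * (n + 1) ≤ (k + s m) * (n + 1) := Nat.mul_le_mul_right _ h2
    have h4 : (v + s p + 1) * (n + 1) = (v + s p) * (n + 1) + (n + 1) := by ring
    omega

section tw15150

variable {Y K : Type*} [TopologicalSpace Y] [AddCommGroup K]

theorem tw15150_empty (C : SoftCx Y K) {A : Set Y} (hA : A = ∅) (n : ℕ) : C.Ex A n := by
  intro k _
  refine ⟨0, fun z hz => ?_⟩
  rw [hA] at hz
  exact absurd hz (Set.notMem_empty z)

theorem tw15150_relempty (C : SoftCx Y K) {A A' : Set Y} (hA : A = ∅) (hA' : A' = ∅) (n : ℕ) :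
    C.RelEx A A' n := by
  intro k _
  refine ⟨0, fun z hz => ?_, fun z hz => ?_⟩
  · rw [hA] at hz
    exact absurd hz (Set.notMem_empty z)
  · rw [hA'] at hz
    exact absurd hz (Set.notMem_empty z)

theorem tw15150_relzero (C : SoftCx Y K) (A A' : Set Y) : C.RelEx A A' 0 :=
  fun _ _ => ⟨0, fun z _ => C.N_zero z _, fun z _ => C.N_zero z _⟩

theorem tw15150_down (C : SoftCx Y K) (T : ℕ → Set Y) (hT : ∀ m, T (m + 1) ⊆ T m) {n l : ℕ}
    (hn : T n = ∅) (a : ℕ) (h : ∀ m, a ≤ m → m < n → C.RelEx (T m) (T (m + 1)) l) :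
    ∀ m, a ≤ m → m ≤ n → C.Ex (T m) l := by
  have key : ∀ j m, a ≤ m → m + j = n → C.Ex (T m) l := by
    intro j
    induction j with
    | zero =>
      intro m _ hm
      rw [Nat.add_zero] at hm
      rw [hm]
      exact tw15150_empty C hn l
    | succ j ih =>
      intro m ham hm
      exact ex_of_rel (hT m) (h m ham (by omega)) (ih (m + 1) (by omega) (by omega))
  intro m ham hmn
  exact key (n - m) m ham (by omega)

theorem tw15150_ext (C : SoftCx Y K) (T : ℕ → Set Y) (hT : ∀ m, T (m + 1) ⊆ T m) {l p : ℕ}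
    (h : ∀ m < p, C.RelEx (T m) (T (m + 1)) (l + 1)) {k : K} (hk : C.Coc (T p) l k)
    (hne : ¬ C.Cob (T p) l k) : ¬ C.Ex (T 0) l := by
  have key : ∀ j m, m + j = p → ∃ k', C.Coc (T m) l k' ∧ ¬ C.Cob (T m) l k' := by
    intro j
    induction j with
    | zero =>
      intro m hm
      rw [Nat.add_zero] at hm
      rw [hm]
      exact ⟨k, hk, hne⟩
    | succ j ih =>
      intro m hm
      obtain ⟨k1, hk1, hk1'⟩ := ih (m + 1) (by omega)
      obtain ⟨k2, hk2, hk2'⟩ := extend_of_rel hk1 (h m (by omega))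
      refine ⟨k2, hk2, fun hc => hk1' ?_⟩
      have h1 := (hc.mono (hT m)).sub (Cob.of_mem hk2')
      have h2 : k2 - (k2 - k1) = k1 := by abel
      rwa [h2] at h1
  obtain ⟨k', h1, h2⟩ := key p 0 (by omega)
  exact fun hE => h2 (hE k' h1)

end tw15150

theorem tw15150_ex0 {X : Type*} [MetricSpace X] {N : ℕ}
    {Z : Set ((Fin 0 → X) × EuclideanSpace ℝ (Fin N))} (hZ : IsCompact Z) {n : ℕ}
    (hn : N + 1 ≤ n) (hn2 : 2 ≤ n) :
    (AS ((Fin 0 → X) × EuclideanSpace ℝ (Fin N))).Ex Z n := by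
  refine ex_of_embed (m := N) hZ (φ := fun q => WithLp.ofLp q.2) ?_ ?_ hn hn2
  · exact ((PiLp.continuous_ofLp 2 _).comp continuous_snd).continuousOn
  · intro a _ b _ hab
    refine Prod.ext (Subsingleton.elim _ _) ?_
    exact (WithLp.ofLp_injective 2) hab

section tw15150b

variable {X : Type*} [MetricSpace X] [CompactSpace X] {E : Type*} [NormedAddCommGroup E]
  [InnerProductSpace ℝ E] [FiniteDimensional ℝ E] {f : X → E} (hf : Continuous f)

include hf

theorem tw15150_up {d m : ℕ} (hd : 1 ≤ d) {g : ℕ → Ch X}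
    (hg : ∀ i, (AS X).Coc univ (i * d + 1) (g i)) {B B' : Set E} (hB : IsCompact B)
    (hB' : IsCompact B') (hBB : B' ⊆ B)
    (hfib : ∀ z ∈ B \ B', (AS X).FT g d m (top f z)) (r : ℕ) : ∀ n : ℕ,
    (∀ j ≤ r * m, (AS ((Fin 0 → X) × E)).RelEx (TG f 0 ∩ Prod.snd ⁻¹' B)
      (TG f 0 ∩ Prod.snd ⁻¹' B') (n - j * d)) →
    (AS ((Fin r → X) × E)).RelEx (TG f r ∩ Prod.snd ⁻¹' B)
      (TG f r ∩ Prod.snd ⁻¹' B') n := by
  induction r with
  | zero =>
    intro n h
    have h1 := h 0 (Nat.zero_le _)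
    rwa [Nat.zero_mul, Nat.sub_zero] at h1
  | succ r ih =>
    intro n h
    refine tower_up hf hd hg hB hB' hBB hfib r n fun i hi => ih _ fun j hj => ?_
    have h1 := h (i + j) (by
      have : (r + 1) * m = r * m + m := by ring
      omega)
    rwa [add_mul, ← Nat.sub_sub] at h1

theorem tw15150_ne {d m : ℕ} (hd : 1 ≤ d) {g : ℕ → Ch X}
    (hg : ∀ i, (AS X).Coc univ (i * d + 1) (g i)) {B B' : Set E} (hB : IsCompact B)
    (hB' : IsCompact B') (hBB : B' ⊆ B)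
    (hfib : ∀ z ∈ B \ B', (AS X).FT g d m (top f z)) {v : ℕ}
    (h : ¬ (AS ((Fin 0 → X) × E)).RelEx (TG f 0 ∩ Prod.snd ⁻¹' B)
      (TG f 0 ∩ Prod.snd ⁻¹' B') v) (r : ℕ) :
    ¬ (AS ((Fin r → X) × E)).RelEx (TG f r ∩ Prod.snd ⁻¹' B)
      (TG f r ∩ Prod.snd ⁻¹' B') (v + r * (m * d)) := by
  induction r with
  | zero => rwa [Nat.zero_mul, Nat.add_zero]
  | succ r ih =>
    have h1 := tower_ne hf hd hg hB hB' hBB hfib r ih
    have h2 : v + (r + 1) * (m * d) = v + r * (m * d) + m * d := by ring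
    rwa [h2]

end tw15150b

/-- The main inequality, abstract form. -/
theorem tower {X : Type*} [MetricSpace X] [CompactSpace X] {N : ℕ}
    {f : X → EuclideanSpace ℝ (Fin N)} (hf : Continuous f)
    (h0 : ∀ z : EuclideanSpace ℝ (Fin N), z ≠ 0 → ∃ x, 0 < ⟪z, f x⟫_ℝ) {d n : ℕ} (hd : 1 ≤ d)
    (hn : 1 ≤ n) {g : ℕ → Ch X} (hg : ∀ i, (AS X).Coc univ (i * d + 1) (g i))
    (B : ℕ → Set (EuclideanSpace ℝ (Fin N))) (hBc : ∀ m, IsCompact (B m))
    (hB0 : B 0 = Metric.sphere 0 1) (hBa : ∀ m, B (m + 1) ⊆ B m) (hBn : B n = ∅)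
    (hfib : ∀ m, ∀ z ∈ B m \ B (m + 1), (AS X).FT g d m (top f z))
    (hdim : ∀ r, 1 ≤ r → ∀ Z : Set (Fin r → X), IsCompact Z → ∀ ν, r * (d * n) + 2 ≤ ν →
      (AS (Fin r → X)).Ex Z ν)
    (hS : ¬ (AS (EuclideanSpace ℝ (Fin N))).Ex (Metric.sphere 0 1) N) :
    N ≤ n + d * (n * (n + 1) / 2) := by
  rcases Nat.eq_zero_or_pos N with hN0 | hN0
  · rw [hN0]; exact Nat.zero_le _
  -- the sets
  have hTm : ∀ r m, TG f r ∩ Prod.snd ⁻¹' B (m + 1) ⊆ TG f r ∩ Prod.snd ⁻¹' B m :=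
    fun r m => Set.inter_subset_inter_right _ (Set.preimage_mono (hBa m))
  have hBbig : ∀ m, n ≤ m → B m = ∅ := by
    intro m hm
    induction m, hm using Nat.le_induction with
    | base => exact hBn
    | succ m _ ih => exact Set.subset_empty_iff.1 (ih ▸ hBa m)
  have hTe : ∀ r m, n ≤ m → TG f r ∩ Prod.snd ⁻¹' B m = ∅ := by
    intro r m hm
    rw [hBbig m hm]
    simp
  have hT0 : ∀ r, TG f r ∩ Prod.snd ⁻¹' B 0 = TG f r := by
    intro r
    refine Set.inter_eq_left.2 fun q hq => ?_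
    rw [hB0]
    simpa using hq.1
  have hTc : ∀ r m, IsCompact (TG f r ∩ Prod.snd ⁻¹' B m) := fun r m =>
    (isCompact_TG hf r).inter_right ((hBc m).isClosed.preimage continuous_snd)
  -- step 1
  have hbig : ∀ m k, N + 2 ≤ k → (AS ((Fin 0 → X) × EuclideanSpace ℝ (Fin N))).RelEx
      (TG f 0 ∩ Prod.snd ⁻¹' B m) (TG f 0 ∩ Prod.snd ⁻¹' B (m + 1)) k := by
    intro m k hk
    obtain ⟨l, rfl⟩ : ∃ l, k = l + 1 := ⟨k - 1, by omega⟩
    exact rel_of_ex (hTm 0 m) (tw15150_ex0 (hTc 0 m) (by omega) (by omega))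
      (tw15150_ex0 (hTc 0 (m + 1)) (by omega) (by omega))
  -- step 2
  have hbad : ∃ m, m < n ∧ ¬ (AS ((Fin 0 → X) × EuclideanSpace ℝ (Fin N))).RelEx
      (TG f 0 ∩ Prod.snd ⁻¹' B m) (TG f 0 ∩ Prod.snd ⁻¹' B (m + 1)) N := by
    by_contra hcon
    have hcon' : ∀ m, 0 ≤ m → m < n → (AS ((Fin 0 → X) × EuclideanSpace ℝ (Fin N))).RelEx
      (TG f 0 ∩ Prod.snd ⁻¹' B m) (TG f 0 ∩ Prod.snd ⁻¹' B (m + 1)) N := by
      intro m _ hm
      by_contra h
      exact hcon ⟨m, hm, h⟩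
    have h1 := tw15150_down (AS ((Fin 0 → X) × EuclideanSpace ℝ (Fin N)))
      (fun m => TG f 0 ∩ Prod.snd ⁻¹' B m) (hTm 0) (hTe 0 n le_rfl) 0 hcon' 0 le_rfl
      (Nat.zero_le _)
    simp only [hT0] at h1
    refine hS (ex_retract (F' := TG f 0) (g := fun z => (default, z)) (g' := Prod.snd)
      (fun x _ => (continuous_const.prodMk continuous_id).continuousAt)
      (fun x _ => continuous_snd.continuousAt) ?_ ?_ (fun x _ => rfl) h1)
    · intro z hz
      refine ⟨by simpa using hz, fun i => i.elim0⟩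
    · intro q hq
      simpa using hq.1
  obtain ⟨m0, hm0, hm0'⟩ := hbad
  -- step 3
  obtain ⟨p, v, hp, hpv, hmax⟩ := tw15150_max (n := n) (M := N + 2)
    (fun m k => ¬ (AS ((Fin 0 → X) × EuclideanSpace ℝ (Fin N))).RelEx
      (TG f 0 ∩ Prod.snd ⁻¹' B m) (TG f 0 ∩ Prod.snd ⁻¹' B (m + 1)) k)
    (fun m k _ hk => by
      by_contra h
      exact hk (hbig m k (by omega))) (sg d) m0 N hm0 hm0'
  have hNv : N ≤ v + sg d p := by
    rcases hmax m0 N hm0 hm0' with h | h <;> omega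
  have hv1 : 1 ≤ v := by
    by_contra h
    have h0 : v = 0 := by omega
    rw [h0] at hpv
    exact hpv (tw15150_relzero _ _ _)
  have hQup : ∀ m k, p < m → v + sg d p ≤ k + sg d m →
      (AS ((Fin 0 → X) × EuclideanSpace ℝ (Fin N))).RelEx
      (TG f 0 ∩ Prod.snd ⁻¹' B m) (TG f 0 ∩ Prod.snd ⁻¹' B (m + 1)) k := by
    intro m k hm hk
    rcases Nat.lt_or_ge m n with hmn | hmn
    · by_contra h
      rcases hmax m k hmn h with h1 | h1 <;> omega
    · exact tw15150_relempty _ (hTe 0 m hmn) (hTe 0 (m + 1) (by omega)) k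
  have hQdn : ∀ m k, m < p → v + sg d p < k + sg d m →
      (AS ((Fin 0 → X) × EuclideanSpace ℝ (Fin N))).RelEx
      (TG f 0 ∩ Prod.snd ⁻¹' B m) (TG f 0 ∩ Prod.snd ⁻¹' B (m + 1)) k := by
    intro m k hm hk
    by_contra h
    rcases hmax m k (by omega) h with h1 | h1 <;> omega
  -- step 5
  obtain ⟨l, hl⟩ : ∃ l, v + (p + 1) * (p * d) = l + 1 :=
    ⟨v + (p + 1) * (p * d) - 1, by omega⟩
  have hup : ∀ m, p + 1 ≤ m → m < n →
      (AS ((Fin (p + 1) → X) × EuclideanSpace ℝ (Fin N))).RelEx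
      (TG f (p + 1) ∩ Prod.snd ⁻¹' B m) (TG f (p + 1) ∩ Prod.snd ⁻¹' B (m + 1)) l := by
    intro m hm _
    refine tw15150_up hf hd hg (hBc m) (hBc (m + 1)) (hBa m) (hfib m) (p + 1) l fun j hj => ?_
    rcases Nat.eq_zero_or_pos (l - j * d) with h0 | h0
    · rw [h0]; exact tw15150_relzero _ _ _
    · refine hQup m _ (by omega) ?_
      have h1 := sg_up (d := d) (show p < m by omega)
      have h2 : j * d ≤ (p + 1) * m * d := Nat.mul_le_mul_right _ hj
      obtain ⟨t, rfl⟩ : ∃ t, m = p + t := ⟨m - p, by omega⟩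
      have h3 : p + t - p = t := by omega
      rw [h3] at h1
      have h4 : (p + 1) * (p + t) * d = (p + 1) * (p * d) + d * t * (p + 1) := by ring
      rw [h4] at h2
      omega
  have hdn : ∀ m < p, (AS ((Fin (p + 1) → X) × EuclideanSpace ℝ (Fin N))).RelEx
      (TG f (p + 1) ∩ Prod.snd ⁻¹' B m) (TG f (p + 1) ∩ Prod.snd ⁻¹' B (m + 1)) (l + 1 + 1) := by
    intro m hm
    refine tw15150_up hf hd hg (hBc m) (hBc (m + 1)) (hBa m) (hfib m) (p + 1) _ fun j hj => ?_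
    refine hQdn m _ hm ?_
    have h1 := sg_down hd hm
    have h2 : j * d ≤ (p + 1) * m * d := Nat.mul_le_mul_right _ hj
    obtain ⟨t, rfl⟩ : ∃ t, p = m + t := ⟨p - m, by omega⟩
    have h3 : m + t - m = t := by omega
    rw [h3] at h1
    have h4 : (m + t + 1) * ((m + t) * d) = (m + t + 1) * m * d + d * t * (m + t + 1) := by ring
    rw [h4] at hl
    omega
  -- step 6
  have hnr := tw15150_ne hf hd hg (hBc p) (hBc (p + 1)) (hBa p) (hfib p) hpv (p + 1)
  rw [hl] at hnr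
  have hEx : (AS ((Fin (p + 1) → X) × EuclideanSpace ℝ (Fin N))).Ex
      (TG f (p + 1) ∩ Prod.snd ⁻¹' B (p + 1)) l :=
    tw15150_down (AS ((Fin (p + 1) → X) × EuclideanSpace ℝ (Fin N)))
      (fun m => TG f (p + 1) ∩ Prod.snd ⁻¹' B m) (hTm (p + 1)) (hTe (p + 1) n le_rfl) (p + 1)
      hup (p + 1) le_rfl (by omega)
  obtain ⟨w, hw1, hw2⟩ : ∃ w, (AS ((Fin (p + 1) → X) × EuclideanSpace ℝ (Fin N))).RelCoc
      (TG f (p + 1) ∩ Prod.snd ⁻¹' B p) (TG f (p + 1) ∩ Prod.snd ⁻¹' B (p + 1)) (l + 1) w ∧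
      ¬ (AS ((Fin (p + 1) → X) × EuclideanSpace ℝ (Fin N))).RelCob
      (TG f (p + 1) ∩ Prod.snd ⁻¹' B p) (TG f (p + 1) ∩ Prod.snd ⁻¹' B (p + 1)) (l + 1) w := by
    by_contra hcon
    apply hnr
    intro k hk
    by_contra h
    exact hcon ⟨k, hk, h⟩
  have hnc := not_cob_of_rel (hTm (p + 1) p) hw1 hw2 hEx
  have hfin := tw15150_ext (AS ((Fin (p + 1) → X) × EuclideanSpace ℝ (Fin N)))
      (fun m => TG f (p + 1) ∩ Prod.snd ⁻¹' B m) (hTm (p + 1)) hdn hw1.1 hnc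
  simp only [hT0] at hfin
  have hlam : v + (p + 1) * (p * d) ≤ (p + 1) * (d * n) + 1 := by
    by_contra h
    apply hfin
    refine tower_ex hf h0 (D := d * n) (p + 1) (by omega) (hdim (p + 1) (by omega)) (l + 1) ?_
    omega
  exact sg_final hp hNv hlam

end Pool.Agent.Helper775.Tight
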