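import Pool.Agent.Helper775.Proj.Defs
import Pool.Agent.Helper775.Proj.Tower
import Pool.Agent.Helper775.Proj.Bundle
import Pool.Agent.Helper775.Tight.Final

/-! Tight maps of spaces whose cohomology ring is generated by one class. -/

set_option autoImplicit false

namespace Pool.Agent.Helper775.Tight

open Set Topology SoftCx
open scoped InnerProductSpace

theorem j15520_dist (x y : EuclideanSpace ℝ (Fin 1)) : dist x y = |x 0 - y 0| := by
  rw [EuclideanSpace.dist_eq, Fin.sum_univ_one, Real.sqrt_sq dist_nonneg, Real.dist_eq]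

theorem j15520_opp (a p x : EuclideanSpace ℝ (Fin 1)) (h : dist x a = dist p a) (hne : x ≠ p) :
    x = (2 : ℝ) • a - p := by
  rw [j15520_dist, j15520_dist] at h
  have h0 : x 0 ≠ p 0 := by
    intro e
    apply hne
    ext i
    rw [Subsingleton.elim i 0, e]
  ext i
  rw [Subsingleton.elim i 0]
  simp only [PiLp.sub_apply, PiLp.smul_apply, smul_eq_mul]
  rcases abs_eq_abs.1 h with h1 | h1
  · exact absurd (by linarith) h0
  · linarith

theorem j15520_sub {P : Type*} [MetricSpace P] {S T : Set P} (hS : S.Subsingleton) (b : Ch P)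
    (hb : (AS P).Coc S 1 b) : ∃ b', (AS P).Coc T 1 b' ∧ (AS P).Cob S 1 (b - b') := by
  rcases hS.eq_empty_or_singleton with rfl | ⟨x, rfl⟩
  · exact ⟨0, coc_zero _ _, Cob.of_mem (by simp)⟩
  · rcases (acy_singleton x).2.1 b hb with h | h
    · refine ⟨0, coc_zero _ _, Cob.of_mem ?_⟩
      rw [sub_zero]; exact h
    · exact ⟨one, fun z _ => one_D_mem z, Cob.of_mem h⟩

/-- proper closed subsets of a compact connected 1-manifold have no cohomology in index 2. -/
theorem ex_top_one {P : Type*} [MetricSpace P] [CompactSpace P] [ConnectedSpace P]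
    [ChartedSpace (EuclideanSpace ℝ (Fin 1)) P] {Z : Set P} (hZ : IsClosed Z)
    (hne : Z ≠ univ) : (AS P).Ex Z 2 := by
  intro k hk
  refine not_cob_induction hZ.isCompact fun Z' hZ' hc hmin => ?_
  rcases Z'.eq_empty_or_nonempty with rfl | hne'
  · exact Cob.of_mem (by simp)
  have hZ'ne : Z' ≠ univ := by
    rintro rfl
    exact hne (univ_subset_iff.1 hZ')
  obtain ⟨q, hq⟩ : (frontier Z').Nonempty := nonempty_frontier_iff.2 ⟨hne', hZ'ne⟩
  have hqZ : q ∈ Z' := hc.isClosed.frontier_subset hq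
  have hqc : q ∈ closure Z'ᶜ := by
    rw [frontier_eq_closure_inter_closure] at hq
    exact hq.2
  set φ := chartAt (EuclideanSpace ℝ (Fin 1)) q with hφ
  have hqs : q ∈ φ.source := mem_chart_source _ q
  obtain ⟨r0, hr0, hball⟩ : ∃ r0 > 0, Metric.closedBall (φ q) r0 ⊆ φ.target :=
    Metric.nhds_basis_closedBall.mem_iff.1 (φ.open_target.mem_nhds (φ.map_source hqs))
  have hnh : φ.source ∩ φ ⁻¹' Metric.ball (φ q) r0 ∈ 𝓝 q :=
    (φ.isOpen_inter_preimage Metric.isOpen_ball).mem_nhds ⟨hqs, Metric.mem_ball_self hr0⟩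
  obtain ⟨p, ⟨hps, hpb⟩, hpZ⟩ := mem_closure_iff_nhds.1 hqc _ hnh
  have hpb' : dist (φ p) (φ q) < r0 := hpb
  have hpq : p ≠ q := fun h => hpZ (h ▸ hqZ)
  have hpq' : φ p ≠ φ q := fun h => hpq (φ.injOn hps hqs h)
  set ρ := dist (φ p) (φ q) with hρ
  have hρ0 : 0 < ρ := dist_pos.2 hpq'
  have hcb : Metric.closedBall (φ q) ρ ⊆ φ.target :=
    (Metric.closedBall_subset_closedBall hpb'.le).trans hball
  have hbt : Metric.ball (φ q) ρ ⊆ φ.target := Metric.ball_subset_closedBall.trans hcb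
  set K : Set P := φ.symm '' Metric.closedBall (φ q) ρ with hK
  set U : Set P := φ.symm '' Metric.ball (φ q) ρ with hU
  have hKc : IsCompact K :=
    (isCompact_closedBall _ _).image_of_continuousOn (φ.continuousOn_symm.mono hcb)
  have hUo : IsOpen U := φ.symm.isOpen_image_of_subset_source Metric.isOpen_ball hbt
  have hUK : U ⊆ K := image_mono Metric.ball_subset_closedBall
  have hqU : q ∈ U := ⟨φ q, Metric.mem_ball_self hρ0, φ.left_inv hqs⟩
  have hKs : K ⊆ φ.source := by
    rintro _ ⟨y, hy, rfl⟩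
    exact φ.map_target (hcb hy)
  have hA : IsCompact (Z' ∩ K) := hc.inter hKc
  have hB : IsCompact (Z' \ U) := hc.diff hUo
  have hun : Z' = (Z' ∩ K) ∪ (Z' \ U) := by
    ext x
    constructor
    · intro hx
      by_cases h : x ∈ U
      · exact Or.inl ⟨hx, hUK h⟩
      · exact Or.inr ⟨hx, h⟩
    · rintro (h | h)
      · exact h.1
      · exact h.1
  rw [hun]
  refine mv' (n := 1) hA.isClosed hB.isClosed ?_ ?_ ?_
  · -- the intersection
    have hmaps : ∀ x ∈ (Z' ∩ K) ∩ (Z' \ U), φ x = (2 : ℝ) • φ q - φ p := by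
      rintro x ⟨⟨hxZ, y, hy, rfl⟩, -, hxU⟩
      rw [φ.right_inv (hcb hy)]
      apply j15520_opp
      · refine le_antisymm hy ?_
        by_contra hlt
        exact hxU ⟨y, not_le.1 hlt, rfl⟩
      · intro h
        have h' : y = φ p := h
        apply hpZ
        rw [h', φ.left_inv hps] at hxZ
        exact hxZ
    have hsub : (Z' ∩ K) ∩ (Z' \ U) ⊆ φ.source := fun x hx => hKs hx.1.2
    intro b hb
    refine j15520_sub ?_ b hb
    intro x hx y hy
    exact φ.injOn (hsub hx) (hsub hy) (by rw [hmaps x hx, hmaps y hy])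
  · refine ex_of_embed (m := 1) hA (φ := fun x => (φ x).ofLp) ?_ ?_ (le_refl _) (by omega) k
      (hk.mono (inter_subset_left.trans hZ'))
    · exact (PiLp.continuous_ofLp 2 _).comp_continuousOn
        (φ.continuousOn.mono fun x hx => hKs hx.2)
    · intro x hx y hy hxy
      apply φ.injOn (hKs hx.2) (hKs hy.2)
      ext i
      exact congrFun hxy i
  · refine hmin _ sdiff_subset hB fun h => ?_
    have : q ∈ Z' \ U := by rw [h]; exact hqZ
    exact this.2 hqU

/-- dimension of powers of a manifold. -/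
theorem pow_dim {P : Type*} [MetricSpace P] [CompactSpace P] {D : ℕ}
    [ChartedSpace (EuclideanSpace ℝ (Fin D)) P] (hD : 1 ≤ D) (r : ℕ) (hr : 1 ≤ r)
    (Z : Set (Fin r → P)) (hZ : IsCompact Z) (ν : ℕ) (hν : r * D + 2 ≤ ν) :
    (AS (Fin r → P)).Ex Z ν := by
  have hrD : 1 ≤ r * D := Nat.mul_pos hr hD
  refine ex_of_locally_embed (m := r * D) ?_ hZ hν (by omega)
  intro q
  choose K hK hKc φ hφ hφi using fun i : Fin r => exists_local_embed (D := D) (q i)
  refine ⟨Set.pi univ K, set_pi_mem_nhds Set.finite_univ (fun i _ => hK i),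
    isCompact_univ_pi hKc,
    fun x j => φ (finProdFinEquiv.symm j).1 (x (finProdFinEquiv.symm j).1)
      (finProdFinEquiv.symm j).2, ?_, ?_⟩
  · rw [continuousOn_pi]
    intro j
    have h1 : ContinuousOn (fun y => φ (finProdFinEquiv.symm j).1 y (finProdFinEquiv.symm j).2)
        (K (finProdFinEquiv.symm j).1) :=
      (continuousOn_pi.1 (hφ (finProdFinEquiv.symm j).1)) (finProdFinEquiv.symm j).2
    exact h1.comp (continuous_apply (finProdFinEquiv.symm j).1).continuousOn
      (fun x hx => hx (finProdFinEquiv.symm j).1 (mem_univ _))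
  · intro x hx y hy hxy
    funext i
    apply hφi i (hx i (mem_univ _)) (hy i (mem_univ _))
    funext l
    have h1 := congrFun hxy (finProdFinEquiv (i, l))
    simpa using h1

/-- proper closed subsets of a compact connected manifold have no top cohomology. -/
theorem j15523_ex_top_any {P : Type*} [MetricSpace P] [CompactSpace P] [ConnectedSpace P] {D : ℕ}
    (hD : 1 ≤ D) [ChartedSpace (EuclideanSpace ℝ (Fin D)) P] {Z : Set P} (hZ : IsClosed Z)
    (hne : Z ≠ univ) : (AS P).Ex Z (D + 1) := by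
  rcases Nat.lt_or_ge D 2 with h | h
  · obtain rfl : D = 1 := by omega
    exact ex_top_one hZ hne
  · exact ex_top h hZ hne

theorem j15523_iter {X : Type*} [MetricSpace X] {d : ℕ} {u : Ch X}
    (hu : (AS X).Coc univ (d + 1) u) {Z : Set X} {i : ℕ}
    (h : (AS X).Cob Z (i * d + 1) (upow d u i)) (m : ℕ) (hm : i ≤ m) :
    (AS X).Cob Z (m * d + 1) (upow d u m) := by
  induction m, hm using Nat.le_induction with
  | base => exact h
  | succ m hm ih => exact upow_cob_succ hu ih

theorem j15523_fibre {P : Type*} [MetricSpace P] [CompactSpace P] {E : Type*}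
    [NormedAddCommGroup E] [InnerProductSpace ℝ E] [FiniteDimensional ℝ E] {f : P → E}
    (hG : IsCompact (GG f)) {z : E} (hz : ‖z‖ = 1) (ν : ℕ) (c : Ch P) :
    (PF Prod.snd continuous_snd (GG f) hG).Cob {z} ν (pb Prod.fst c) ↔
      (AS P).Cob (top f z) ν c := by
  rw [push_cob]
  constructor
  · intro h
    have h1 := cob_pb (g := fun x : P => (x, z)) (F := top f z) (F' := GG f ∩ Prod.snd ⁻¹' {z})
      (fun x _ => (Continuous.prodMk_left z).continuousAt) (fun x hx => ⟨⟨hz, hx⟩, rfl⟩) h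
    have e : pb (fun x : P => (x, z)) (pb Prod.fst c) = c := by
      funext l
      simp [pb, Function.comp_def]
    rwa [e] at h1
  · intro h
    refine cob_pb (fun x _ => continuous_fst.continuousAt) ?_ h
    rintro ⟨x, z'⟩ ⟨h1, h2⟩
    have : z' = z := h2
    subst this
    exact h1.2

/-- the bad set is compact. -/
theorem j15523_bad {P : Type*} [MetricSpace P] [CompactSpace P] {E : Type*}
    [NormedAddCommGroup E] [InnerProductSpace ℝ E] [FiniteDimensional ℝ E] {f : P → E}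
    (hf : Continuous f) (ν : ℕ) (c : Ch P) :
    IsCompact (Metric.sphere (0 : E) 1 ∩ {z | ¬ (AS P).Cob (top f z) ν c}) := by
  have hG : IsCompact (GG f) := isCompact_GG hf
  have e : Metric.sphere (0 : E) 1 ∩ {z | ¬ (AS P).Cob (top f z) ν c} =
      Metric.sphere (0 : E) 1 ∩
        {z | ¬ (PF Prod.snd continuous_snd (GG f) hG).Cob {z} ν (pb Prod.fst c)} := by
    ext z
    simp only [mem_inter_iff, mem_sphere_zero_iff_norm, mem_ofPred_eq, and_congr_right_iff]
    intro hz
    rw [j15523_fibre hG hz]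
  rw [e]
  refine (isCompact_sphere (0 : E) 1).inter_right (t := {z | ¬ (PF Prod.snd continuous_snd
    (GG f) hG).Cob {z} ν (pb Prod.fst c)}) ?_
  rw [← isOpen_compl_iff, isOpen_iff_forall_mem_open]
  intro z hz
  have hz' : (PF Prod.snd continuous_snd (GG f) hG).Cob {z} ν (pb Prod.fst c) := by
    by_contra h
    exact hz h
  obtain ⟨U, hU, hzU, hc⟩ := hz'.isOpen
  exact ⟨U, fun w hw h => h (hc.mono (singleton_subset_iff.2 hw)), hU, hzU rfl⟩

theorem j15523_class {P : Type*} [MetricSpace P] [CompactSpace P] [ConnectedSpace P] {d n N : ℕ}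
    (hd : 1 ≤ d) (hn : 1 ≤ n) [ChartedSpace (EuclideanSpace ℝ (Fin (d * n))) P]
    (f : P → EuclideanSpace ℝ (Fin N)) (hf : Continuous f)
    (hs : ∀ (z : EuclideanSpace ℝ (Fin N)) (t : ℝ), z ≠ 0 → ∃ x, ⟪z, f x⟫_ℝ ≠ t)
    (hsurj : ∀ z : EuclideanSpace ℝ (Fin N), z ≠ 0 → ∀ n, 1 ≤ n → ∀ c,
      (AS P).Coc (top f z) n c → ∃ c', (AS P).Coc univ n c' ∧ (AS P).Cob (top f z) n (c - c'))
    (u : Ch P)
    (hring : ∀ ν, 2 ≤ ν → ν ≤ d * n → ∀ c, (AS P).Coc univ ν c → (AS P).Cob univ ν c ∨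
      ∃ i, ν = i * d + 1 ∧ (AS P).Cob univ ν (c - upow d u i))
    {z : EuclideanSpace ℝ (Fin N)} (hz0 : z ≠ 0) (ν : ℕ) (k : Ch P)
    (hk : (AS P).Coc (top f z) ν k) :
    (AS P).Cob (top f z) ν k ∨
      ∃ i, ν = i * d + 1 ∧ (ν ≤ d * n) ∧ (AS P).Cob (top f z) ν (k - upow d u i) := by
  obtain ⟨x₀⟩ := (inferInstance : Nonempty P)
  have hdn : 1 ≤ d * n := Nat.mul_pos hd hn
  have hZc : IsCompact (top f z) := isCompact_top hf z
  have hZu : top f z ≠ univ := by
    intro h
    obtain ⟨x, hx⟩ := hs z ⟪z, f x₀⟫_ℝ hz0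
    apply hx
    have h1 : x ∈ top f z := h ▸ mem_univ x
    have h2 : x₀ ∈ top f z := h ▸ mem_univ x₀
    exact le_antisymm (h2 x) (h1 x₀)
  rcases Nat.eq_zero_or_pos ν with rfl | hν
  · exact Or.inl (cob_index_zero _ _)
  rcases Nat.lt_or_ge (d * n) ν with h | h
  · left
    rcases Nat.lt_or_ge (d * n + 1) ν with h' | h'
    · exact ex_of_locally_embed (m := d * n) exists_local_embed hZc (by omega) (by omega) k hk
    · obtain rfl : ν = d * n + 1 := by omega
      exact j15523_ex_top_any hdn hZc.isClosed hZu k hk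
  · obtain ⟨c', hc', hcob⟩ := hsurj z hz0 ν hν k hk
    rcases Nat.lt_or_ge ν 2 with h2 | h2
    · obtain rfl : ν = 1 := by omega
      rcases coc_one_connected c' hc' with h3 | h3
      · left
        have h4 : (AS P).Cob (top f z) 1 c' := cob_one.2 fun w _ => h3 w (mem_univ w)
        have := hcob.add h4
        simpa using this
      · right
        refine ⟨0, by simp, h, ?_⟩
        have h4 : (AS P).Cob (top f z) 1 (c' - one) := cob_one.2 fun w _ => h3 w (mem_univ w)
        have := hcob.add h4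
        have e : k - c' + (c' - one) = k - upow d u 0 := by
          rw [show upow d u 0 = one from rfl]; abel
        rwa [e] at this
    · rcases hring ν h2 h c' hc' with h3 | ⟨i, hi, h3⟩
      · left
        have := hcob.add (h3.mono (subset_univ _))
        simpa using this
      · right
        refine ⟨i, hi, h, ?_⟩
        have := hcob.add (h3.mono (subset_univ _))
        have e : k - c' + (c' - upow d u i) = k - upow d u i := by abel
        rwa [e] at this

theorem j15523_centered {P : Type*} [MetricSpace P] [CompactSpace P] [ConnectedSpace P]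
    {d n N : ℕ}
    (hd : 1 ≤ d) (hn : 1 ≤ n) [ChartedSpace (EuclideanSpace ℝ (Fin (d * n))) P]
    (f : P → EuclideanSpace ℝ (Fin N)) (hf : Continuous f)
    (h0 : ∀ z : EuclideanSpace ℝ (Fin N), z ≠ 0 → ∃ x, 0 < ⟪z, f x⟫_ℝ)
    (hs : ∀ (z : EuclideanSpace ℝ (Fin N)) (t : ℝ), z ≠ 0 → ∃ x, ⟪z, f x⟫_ℝ ≠ t)
    (hsurj : ∀ z : EuclideanSpace ℝ (Fin N), z ≠ 0 → ∀ n, 1 ≤ n → ∀ c,
      (AS P).Coc (top f z) n c → ∃ c', (AS P).Coc univ n c' ∧ (AS P).Cob (top f z) n (c - c'))
    (u : Ch P) (hu : (AS P).Coc univ (d + 1) u)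
    (hring : ∀ ν, 2 ≤ ν → ν ≤ d * n → ∀ c, (AS P).Coc univ ν c → (AS P).Cob univ ν c ∨
      ∃ i, ν = i * d + 1 ∧ (AS P).Cob univ ν (c - upow d u i)) :
    N ≤ n + d * (n * (n + 1) / 2) := by
  classical
  rcases Nat.lt_or_ge N 2 with hN | hN
  · omega
  have hdn : 1 ≤ d * n := Nat.mul_pos hd hn
  set B : ℕ → Set (EuclideanSpace ℝ (Fin N)) := fun m => if m < n then
    Metric.sphere 0 1 ∩ {z | ¬ (AS P).Cob (top f z) (m * d + 1) (upow d u m)} else ∅ with hB
  have hB1 : ∀ m, m < n → B m =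
      Metric.sphere 0 1 ∩ {z | ¬ (AS P).Cob (top f z) (m * d + 1) (upow d u m)} := by
    intro m hm; rw [hB]; simp only; rw [if_pos hm]
  have hB2 : ∀ m, ¬ m < n → B m = ∅ := by
    intro m hm; rw [hB]; simp only; rw [if_neg hm]
  have hcl := fun z (hz0 : z ≠ 0) ν k hk =>
    j15523_class hd hn f hf hs hsurj u hring (z := z) hz0 ν k hk
  refine tower hf h0 hd hn (g := upow d u) (fun i => upow_coc hu i) B ?_ ?_ ?_ ?_ ?_ ?_ ?_
  · intro m
    by_cases hm : m < n
    · rw [hB1 m hm]; exact j15523_bad hf _ _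
    · rw [hB2 m hm]; exact isCompact_empty
  · rw [hB1 0 (by omega)]
    apply inter_eq_left.2
    intro z hz
    have hZne : (top f z).Nonempty := by
      obtain ⟨x, -, hx⟩ := isCompact_univ.exists_isMaxOn (univ_nonempty (α := P))
        ((continuous_const.inner hf : Continuous fun x => ⟪z, f x⟫_ℝ).continuousOn)
      exact ⟨x, fun y => hx (mem_univ y)⟩
    intro h
    rw [Nat.zero_mul, Nat.zero_add] at h
    exact not_one_mem hZne (cob_one.1 h)
  · intro m
    by_cases hm : m + 1 < n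
    · rw [hB1 (m + 1) hm, hB1 m (by omega)]
      rintro z ⟨hz, hz2⟩
      exact ⟨hz, fun h => hz2 (upow_cob_succ hu h)⟩
    · rw [hB2 (m + 1) hm]; exact empty_subset _
  · exact hB2 n (lt_irrefl n)
  · intro m z hz
    have hmn : m < n := by
      by_contra hm
      have := hz.1
      rw [hB2 m hm] at this
      exact this
    have hz1 := hz.1
    rw [hB1 m hmn] at hz1
    obtain ⟨hzS, hzB⟩ := hz1
    have hzB' : ¬ (AS P).Cob (top f z) (m * d + 1) (upow d u m) := hzB
    have hnorm : ‖z‖ = 1 := by simpa using hzS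
    have hz0 : z ≠ 0 := by rintro rfl; simp at hnorm
    have hup : (AS P).Cob (top f z) ((m + 1) * d + 1) (upow d u (m + 1)) := by
      by_cases hm : m + 1 < n
      · by_contra h
        apply hz.2
        rw [hB1 (m + 1) hm]
        exact ⟨hzS, h⟩
      · have hmn' : m + 1 = n := by omega
        rcases hcl z hz0 ((m + 1) * d + 1) (upow d u (m + 1))
          ((upow_coc hu (m + 1)).mono (subset_univ _)) with h | ⟨i, hi, hle, -⟩
        · exact h
        · exfalso
          rw [hmn', Nat.mul_comm] at hle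
          omega
    refine ⟨fun i hi => ⟨fun k hk => ?_, fun h => hzB' (j15523_iter hu h m hi)⟩,
      fun ν hν k hk => ?_⟩
    · rcases hcl z hz0 _ k hk with h | ⟨i', hi', -, h⟩
      · exact Or.inl h
      · right
        have e : i' = i := by
          have : i * d = i' * d := by omega
          exact (Nat.eq_of_mul_eq_mul_right hd this).symm
        rw [e] at h
        exact h
    · rcases hcl z hz0 ν k hk with h | ⟨i, hi, -, h⟩
      · exact h
      · have him : m + 1 ≤ i := by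
          by_contra hlt
          exact hν i (by omega) hi
        have h2 := j15523_iter hu hup i him
        rw [← hi] at h2
        simpa using h.add h2
  · intro r hr Z hZ ν hν
    exact pow_dim hdn r hr Z hZ ν hν
  · intro h
    obtain ⟨c, hc, hnc⟩ := sp_top (M := N) (k := N) hN le_rfl
    rw [sp_eq_sphere] at hc hnc
    exact hnc (h c hc)

/-- The codimension bound for spaces whose cohomology ring is generated by one class. -/
theorem cps_bound {P : Type*} [MetricSpace P] [CompactSpace P] [ConnectedSpace P] {d n N : ℕ}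
    (hd : 1 ≤ d) (hn : 1 ≤ n) [ChartedSpace (EuclideanSpace ℝ (Fin (d * n))) P]
    (f : P → EuclideanSpace ℝ (Fin N)) (hf : Continuous f)
    (hs : ∀ (z : EuclideanSpace ℝ (Fin N)) (t : ℝ), z ≠ 0 → ∃ x, ⟪z, f x⟫_ℝ ≠ t)
    (hsurj : ∀ z : EuclideanSpace ℝ (Fin N), z ≠ 0 → ∀ n, 1 ≤ n → ∀ c,
      (AS P).Coc (top f z) n c → ∃ c', (AS P).Coc univ n c' ∧ (AS P).Cob (top f z) n (c - c'))
    (u : Ch P) (hu : (AS P).Coc univ (d + 1) u)
    (hring : ∀ ν, 2 ≤ ν → ν ≤ d * n → ∀ c, (AS P).Coc univ ν c → (AS P).Cob univ ν c ∨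
      ∃ i, ν = i * d + 1 ∧ (AS P).Cob univ ν (c - upow d u i)) :
    N ≤ n + d * (n * (n + 1) / 2) := by
  obtain ⟨c₀, hc₀⟩ := exists_center hf hs
  have htop : ∀ z, top (fun x => f x - c₀) z = top f z := by
    intro z
    ext x
    simp only [top, mem_ofPred_eq, inner_sub_right, sub_le_sub_iff_right]
  refine j15523_centered hd hn (fun x => f x - c₀) (hf.sub continuous_const) hc₀ ?_ ?_ u hu hring
  · intro z t hz
    obtain ⟨x, hx⟩ := hs z (t + ⟪z, c₀⟫_ℝ) hz
    refine ⟨x, fun h => hx ?_⟩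
    rw [inner_sub_right] at h
    linarith
  · intro z hz
    rw [htop]
    exact hsurj z hz

/-- surjectivity in germ-singular cohomology from injectivity in singular homology. -/
theorem j15525_sing_ext_open {P : Type*} [MetricSpace P] [CompactSpace P] (g : P → ℝ) (hg : Continuous g)
    (T : ℝ) (h : ∀ t < T, HomologyInjective {x | t < g x}) (n : ℕ) (s : SCh P)
    (hs : (Sg P).Coc {x | T ≤ g x} n s) :
    ∃ s', (Sg P).Coc univ n s' ∧ (Sg P).Cob {x | T ≤ g x} n (s - s') := by
  classical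
  rcases n with _ | k
  · exact ⟨0, coc_zero _ _, cob_index_zero _ _⟩
  -- the good open sets
  set 𝒲 : Set (Set P) := {W | IsOpen W ∧ ∀ σ : Sing P (k + 1), range σ ⊆ W →
    ∑ i : Fin (k + 2), s k (sface k i σ) = 0} with h𝒲
  have hZW : ∀ z : P, T ≤ g z → ∃ W ∈ 𝒲, z ∈ W := by
    intro z hz
    obtain ⟨W, hW, h1⟩ := hs z hz
    obtain ⟨U, hUW, hU, hzU⟩ := mem_nhds_iff.1 hW
    exact ⟨U, ⟨hU, fun σ hσ => h1 σ (hσ.trans hUW)⟩, hzU⟩
  have hU0 : IsOpen (⋃₀ 𝒲) := isOpen_sUnion fun W hW => hW.1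
  obtain ⟨t0, ht0, ht0U⟩ : ∃ t0 < T, {x | t0 ≤ g x} ⊆ ⋃₀ 𝒲 := by
    rcases (⋃₀ 𝒲)ᶜ.eq_empty_or_nonempty with he | hne
    · refine ⟨T - 1, by linarith, ?_⟩
      rw [compl_empty_iff.1 he]; exact subset_univ _
    · have hc : IsCompact (⋃₀ 𝒲)ᶜ := hU0.isClosed_compl.isCompact
      obtain ⟨x, hx, hmax⟩ := hc.exists_isMaxOn hne hg.continuousOn
      have hxT : g x < T := by
        by_contra hlt
        push Not at hlt
        obtain ⟨W, hW, hxW⟩ := hZW x hlt
        exact hx ⟨W, hW, hxW⟩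
      refine ⟨(g x + T) / 2, by linarith, fun y hy => ?_⟩
      by_contra hyn
      have h1 : g y ≤ g x := hmax hyn
      have h2 : (g x + T) / 2 ≤ g y := hy
      linarith
  set V : Set P := {x | t0 < g x} with hV
  have hVo : IsOpen V := isOpen_lt continuous_const hg
  set A : Set P := {x | g x < t0} with hA
  have hAo : IsOpen A := isOpen_lt hg continuous_const
  set 𝒞 : Set (Set P) := insert A 𝒲 with h𝒞
  have hCo : ∀ C ∈ 𝒞, IsOpen C := by
    rintro C (rfl | hC)
    · exact hAo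
    · exact hC.1
  have hCcov : ∀ x : P, ∃ C ∈ 𝒞, x ∈ C := by
    intro x
    rcases lt_or_ge (g x) t0 with h1 | h1
    · exact ⟨A, mem_insert _ _, h1⟩
    · obtain ⟨W, hW, hxW⟩ := ht0U h1
      exact ⟨W, mem_insert_of_mem _ hW, hxW⟩
  -- small simplices in V are in a good set
  have hgood : ∀ (σ : Sing P (k + 1)), range σ ⊆ V → (∃ C ∈ 𝒞, range σ ⊆ C) →
      ∑ i : Fin (k + 2), s k (sface k i σ) = 0 := by
    rintro σ hσV ⟨C, (rfl | hC), hσC⟩
    · exfalso
      have h1 : σ (stdSimplex.vertex 0) ∈ V := hσV ⟨_, rfl⟩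
      have h2 : σ (stdSimplex.vertex 0) ∈ A := hσC ⟨_, rfl⟩
      have h1' : t0 < g (σ (stdSimplex.vertex 0)) := h1
      have h2' : g (σ (stdSimplex.vertex 0)) < t0 := h2
      exact lt_asymm h1' h2'
    · exact hC.2 σ hσC
  -- linear algebra
  set sk : (Sing P k →₀ ZMod 2) →ₗ[ZMod 2] ZMod 2 :=
    Finsupp.linearCombination (ZMod 2) (s k) with hsk
  have hsk1 : ∀ τ, sk (Finsupp.single τ 1) = s k τ := by
    intro τ; simp [hsk, Finsupp.linearCombination_single]
  set S1 : Submodule (ZMod 2) (Sing P (k + 1) →₀ ZMod 2) :=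
    Finsupp.supported (ZMod 2) (ZMod 2) {σ | ∃ C ∈ 𝒞, range σ ⊆ C} with hS1
  set B : Submodule (ZMod 2) (Sing P k →₀ ZMod 2) := S1.map (bdry P k) with hB
  set VS : Submodule (ZMod 2) (Sing P k →₀ ZMod 2) :=
    Finsupp.supported (ZMod 2) (ZMod 2) {σ | range σ ⊆ V ∧ ∃ C ∈ 𝒞, range σ ⊆ C} with hVS
  -- Claim A
  have claimA : ∀ z ∈ VS, IsCycle k z → (∃ w, bdry P k w = z) → sk z = 0 := by
    intro z hz hcyc hbd
    have hzs : ∀ σ ∈ z.support, range σ ⊆ V ∧ ∃ C ∈ 𝒞, range σ ⊆ C := by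
      intro σ hσ
      exact (Finsupp.mem_supported _ _).1 hz (by exact_mod_cast hσ)
    -- find t'
    obtain ⟨t', ht0', htT, hin⟩ : ∃ t', t0 < t' ∧ t' < T ∧ ∀ σ ∈ z.support,
        range σ ⊆ {x | t' ≤ g x} := by
      have hcomp : IsCompact (⋃ σ ∈ z.support, range (σ : Sing P k)) := by
        apply z.support.finite_toSet.isCompact_biUnion
        intro σ _
        exact isCompact_range σ.continuous
      rcases (⋃ σ ∈ z.support, range (σ : Sing P k)).eq_empty_or_nonempty with he | hne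
      · refine ⟨(t0 + T) / 2, by linarith, by linarith, fun σ hσ => ?_⟩
        have : range (σ : Sing P k) ⊆ ⋃ σ ∈ z.support, range (σ : Sing P k) :=
          subset_biUnion_of_mem (u := fun σ : Sing P k => range σ) hσ
        rw [he] at this
        exact this.trans (empty_subset _)
      · obtain ⟨x, hx, hmin⟩ := hcomp.exists_isMinOn hne hg.continuousOn
        have hxV : t0 < g x := by
          simp only [mem_iUnion] at hx
          obtain ⟨σ, hσ, hxσ⟩ := hx
          exact (hzs σ hσ).1 hxσ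
        refine ⟨min (g x) ((t0 + T) / 2), lt_min hxV (by linarith),
          lt_of_le_of_lt (min_le_right _ _) (by linarith), fun σ hσ y hy => ?_⟩
        have hy' : y ∈ ⋃ σ ∈ z.support, range (σ : Sing P k) := by
          simp only [mem_iUnion]
          exact ⟨σ, hσ, hy⟩
        exact (min_le_left _ _).trans (isMinOn_iff.1 hmin y hy')
    obtain ⟨b, hb, hbz⟩ := h ((t0 + t') / 2) (by linarith) k z (fun σ hσ x hx => by
      have hx1 : t' ≤ g x := hin σ hσ hx
      show (t0 + t') / 2 < g x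
      linarith) hcyc hbd
    have hbV : ChainIn V b := by
      intro σ hσ
      refine (hb σ hσ).trans fun x hx => ?_
      have hx1 : (t0 + t') / 2 < g x := hx
      show t0 < g x
      linarith
    obtain ⟨b', hb', hbz'⟩ := small_bound 𝒞 V hCo (fun x _ => hCcov x) k z hzs b hbV hbz
    rw [← hbz']
    apply sx_bdry_zero
    intro σ hσ
    simp only [hsk1]
    exact hgood σ (hb' σ hσ).1 (hb' σ hσ).2
  -- Claim B
  obtain ⟨φ, hφ1, hφ2⟩ : ∃ φ : (Sing P k →₀ ZMod 2) →ₗ[ZMod 2] ZMod 2,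
      (∀ z ∈ VS, IsCycle k z → φ z = sk z) ∧ (∀ z ∈ B, φ z = 0) := by
    set Zc : Submodule (ZMod 2) (Sing P k →₀ ZMod 2) := VS ⊓ sx_cyc P k with hZc
    have hfac : ∀ x : Zc, (B.mkQ ∘ₗ Zc.subtype) x = 0 → (sk ∘ₗ Zc.subtype) x = 0 := by
      rintro ⟨z, hz⟩ hz0
      have h1 : z ∈ B := by
        have : B.mkQ z = 0 := hz0
        rwa [Submodule.mkQ_apply, Submodule.Quotient.mk_eq_zero] at this
      obtain ⟨w, _, hw⟩ := h1
      exact claimA z hz.1 (sx_mem_cyc.1 hz.2) ⟨w, hw⟩
    obtain ⟨ψ, hψ⟩ := sx_factor (E := Zc) (B.mkQ ∘ₗ Zc.subtype) (sk ∘ₗ Zc.subtype) hfac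
    refine ⟨ψ ∘ₗ B.mkQ, ?_, ?_⟩
    · intro z hz hc
      exact hψ ⟨z, hz, sx_mem_cyc.2 hc⟩
    · intro z hz
      have : B.mkQ z = 0 := by
        rw [Submodule.mkQ_apply, Submodule.Quotient.mk_eq_zero]; exact hz
      rw [LinearMap.comp_apply, this, map_zero]
  set s' : SCh P := Function.update 0 k (fun σ => φ (Finsupp.single σ 1)) with hs'
  have hs'k : ∀ σ, s' k σ = φ (Finsupp.single σ 1) := by
    intro σ; rw [hs', Function.update_self]
  have hVSs : ∀ σ : Sing P k, range σ ⊆ V → (∃ C ∈ 𝒞, range σ ⊆ C) →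
      Finsupp.single σ (1 : ZMod 2) ∈ VS := by
    intro σ h1 h2
    exact Finsupp.single_mem_supported _ _ ⟨h1, h2⟩
  refine ⟨s', ?_, ?_⟩
  · -- cocycle
    intro z _
    obtain ⟨C, hC, hzC⟩ := hCcov z
    refine ⟨C, (hCo C hC).mem_nhds hzC, fun σ hσ => ?_⟩
    change ∑ i : Fin (k + 2), s' k (sface k i σ) = 0
    have h1 : bdry P k (Finsupp.single σ 1) ∈ B :=
      Submodule.mem_map_of_mem (Finsupp.single_mem_supported _ _ ⟨C, hC, hσ⟩)
    have h2 := hφ2 _ h1
    rw [sx_bdry_single, map_sum] at h2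
    simp only [hs'k]
    exact h2
  · -- coboundary
    obtain ⟨r, hr⟩ : ∃ r : SCh P, ∀ σ : Sing P k, range σ ⊆ V → (∃ C ∈ 𝒞, range σ ⊆ C) →
        s k σ - s' k σ - sdf r k σ = 0 := by
      obtain ⟨r, hr⟩ := sx_cob k VS (sk - φ) (fun z hz hc => by
        rw [LinearMap.sub_apply, hφ1 z hz hc, sub_self])
      refine ⟨r, fun σ h1 h2 => ?_⟩
      have h3 := hr σ (hVSs σ h1 h2)
      rwa [LinearMap.sub_apply, hsk1, ← hs'k] at h3
    refine ⟨r, fun z hz => ?_⟩
    obtain ⟨W, hW, hzW⟩ := hZW z hz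
    refine ⟨W ∩ V, Filter.inter_mem (hW.1.mem_nhds hzW) (hVo.mem_nhds (lt_of_lt_of_le ht0 hz)),
      fun σ hσ => ?_⟩
    exact hr σ (hσ.trans inter_subset_right) ⟨W, mem_insert_of_mem _ hW,
      hσ.trans inter_subset_left⟩

/-- tightness for singular homology and open sets gives surjectivity in cohomology. -/
theorem surj_of_sing_open {P : Type*} [MetricSpace P] [CompactSpace P] {m : ℕ}
    [ChartedSpace (EuclideanSpace ℝ (Fin m)) P] (g : P → ℝ) (hg : Continuous g)
    (T : ℝ) (h : ∀ t < T, HomologyInjective {x | t < g x}) (n : ℕ) (c : Ch P)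
    (hc : (AS P).Coc {x | T ≤ g x} n c) :
    ∃ c', (AS P).Coc univ n c' ∧ (AS P).Cob {x | T ≤ g x} n (c - c') := by
  have hZ : IsCompact {x | T ≤ g x} := (isClosed_le continuous_const hg).isCompact
  have h1 : (Sg P).Coc {x | T ≤ g x} n (theta c) := by
    intro z hz
    have h2 := Theta.comm z (n + 1) c
    have h3 := Theta.mem z (n + 1) _ (hc z hz)
    simpa using add_mem h2 h3
  obtain ⟨s', hs', hs''⟩ := j15525_sing_ext_open g hg T h n (theta c) h1
  obtain ⟨c', hc', hc''⟩ := theta_surj (m := m) isCompact_univ hs'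
  refine ⟨c', hc', theta_inj (m := m) hZ (hc.sub (hc'.mono (subset_univ _))) ?_⟩
  have := hs''.add (hc''.mono (subset_univ _))
  rw [theta_sub]
  simpa using this

end Pool.Agent.Helper775.Tight
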