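import Pool.Agent.Helper775.Tight.SingDefs

/-! Projective spaces over division rings and tightness with respect to open half-spaces. -/

set_option autoImplicit false

namespace Pool.Agent.Helper775.Tight

open scoped InnerProductSpace

/-- `f` is tight with respect to singular homology mod 2 and open half-spaces: for every open
half-space `{y | t < ⟪z, y⟫}`, `z ≠ 0`, the inclusion of its preimage is injective in homology. -/
def OpenTightMap {X : Type*} [TopologicalSpace X] {N : ℕ} (f : X → EuclideanSpace ℝ (Fin N)) :
    Prop :=
  ∀ (z : EuclideanSpace ℝ (Fin N)) (t : ℝ), z ≠ 0 → HomologyInjective {x | t < ⟪z, f x⟫_ℝ}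

/-- The `n`-dimensional projective space over the division ring `F`: the set of lines of the
(left) vector space `F^{n+1}`. -/
def ProjSpace (F : Type) [DivisionRing F] (n : ℕ) : Type :=
  Projectivization F (Fin (n + 1) → F)

/-- The quotient topology of `F^{n+1} \ {0}`. -/
instance instTopologicalSpaceProjSpace (F : Type) [DivisionRing F] [TopologicalSpace F] (n : ℕ) :
    TopologicalSpace (ProjSpace F n) :=
  inferInstanceAs (TopologicalSpace (Quotient (projectivizationSetoid F (Fin (n + 1) → F))))

end Pool.Agent.Helper775.Tight
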