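import Pool.Agent.Helper775.Proj.Cps

/-! Projective spaces over finite dimensional normed division algebras. -/

set_option autoImplicit false

namespace Pool.Agent.Helper775.Tight

open Set Topology SoftCx
open scoped InnerProductSpace

section

variable {F : Type} [NormedDivisionRing F] [NormedAlgebra ℝ F] [FiniteDimensional ℝ F] {n : ℕ}

/-- the projection of the unit sphere. -/
def qmap (F : Type) [NormedDivisionRing F] (n : ℕ) :
    Metric.sphere (0 : Fin (n + 1) → F) 1 → ProjSpace F n := fun v =>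
  Projectivization.mk F v.1 (by
    rintro h
    have h1 := v.2
    rw [h] at h1
    simp at h1)

theorem qmap_continuous : Continuous (qmap F n) := by
  have h1 : Continuous (fun v : Metric.sphere (0 : Fin (n + 1) → F) 1 =>
      (⟨v.1, by
        rintro h
        have h1 := v.2
        rw [h] at h1
        simp at h1⟩ : {v : Fin (n + 1) → F // v ≠ 0})) :=
    Continuous.subtype_mk continuous_subtype_val _
  exact continuous_quotient_mk'.comp h1

theorem qmap_surjective : Function.Surjective (qmap F n) := by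
  intro w
  obtain ⟨v, hv, rfl⟩ : ∃ (v : Fin (n + 1) → F) (hv : v ≠ 0), Projectivization.mk F v hv = w :=
    ⟨Projectivization.rep (K := F) (V := Fin (n + 1) → F) w,
      Projectivization.rep_nonzero (K := F) (V := Fin (n + 1) → F) w,
      Projectivization.mk_rep (K := F) (V := Fin (n + 1) → F) w⟩
  have hr : 0 < ‖v‖ := norm_pos_iff.mpr hv
  have hne : (algebraMap ℝ F ‖v‖⁻¹) ≠ 0 := by
    rw [Ne, map_eq_zero]
    exact inv_ne_zero hr.ne'
  have hnorm : ‖(algebraMap ℝ F ‖v‖⁻¹) • v‖ = 1 := by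
    rw [norm_smul, norm_algebraMap', norm_inv, norm_norm, inv_mul_cancel₀ hr.ne']
  refine ⟨⟨(algebraMap ℝ F ‖v‖⁻¹) • v, by rw [mem_sphere_zero_iff_norm]; exact hnorm⟩, ?_⟩
  exact (Projectivization.mk_eq_mk_iff F _ _ _ hv).mpr ⟨Units.mk0 _ hne, rfl⟩

theorem qmap_eq_iff (x y : Metric.sphere (0 : Fin (n + 1) → F) 1) :
    qmap F n x = qmap F n y ↔ ∃ c : F, ‖c‖ = 1 ∧ ∀ i, x.1 i = c * y.1 i := by
  have hx : ‖x.1‖ = 1 := mem_sphere_zero_iff_norm.mp x.2
  have hy : ‖y.1‖ = 1 := mem_sphere_zero_iff_norm.mp y.2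
  refine Iff.trans (Projectivization.mk_eq_mk_iff F _ _ _ _) ?_
  constructor
  · rintro ⟨a, ha⟩
    have ha' : (a : F) • y.1 = x.1 := ha
    refine ⟨a, ?_, fun i => ?_⟩
    · have h2 : ‖(a : F) • y.1‖ = ‖x.1‖ := by rw [ha']
      rw [norm_smul, hx, hy, mul_one] at h2
      exact h2
    · rw [← ha']; rfl
  · rintro ⟨c, hc, h⟩
    have hc0 : c ≠ 0 := by
      rintro rfl
      simp at hc
    refine ⟨Units.mk0 c hc0, ?_⟩
    funext i
    exact (h i).symm

theorem ps_compact : CompactSpace (ProjSpace F n) := by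
  haveI : ProperSpace (Fin (n + 1) → F) := FiniteDimensional.proper ℝ (Fin (n + 1) → F)
  haveI : CompactSpace (Metric.sphere (0 : Fin (n + 1) → F) 1) :=
    isCompact_iff_compactSpace.mp (isCompact_sphere _ _)
  have hs : Function.Surjective (qmap F n) := qmap_surjective
  have hc : Continuous (qmap F n) := qmap_continuous
  constructor
  rw [← hs.range_eq, ← Set.image_univ]
  exact isCompact_univ.image hc

/-- normalisation of a nonzero vector -/
noncomputable def j15695_nv (v : {v : Fin (n + 1) → F // v ≠ 0}) :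
    Metric.sphere (0 : Fin (n + 1) → F) 1 :=
  ⟨(‖v.1‖⁻¹ : ℝ) • v.1, by
    rw [mem_sphere_zero_iff_norm, norm_smul, norm_inv, norm_norm,
      inv_mul_cancel₀ (norm_ne_zero_iff.2 v.2)]⟩

theorem j15695_nv_cont : Continuous (j15695_nv (F := F) (n := n)) := by
  refine Continuous.subtype_mk ?_ _
  have h1 : Continuous fun v : {v : Fin (n + 1) → F // v ≠ 0} => ‖v.1‖ :=
    continuous_norm.comp continuous_subtype_val
  have h2 : Continuous fun v : {v : Fin (n + 1) → F // v ≠ 0} => (‖v.1‖⁻¹ : ℝ) :=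
    h1.inv₀ fun v => norm_ne_zero_iff.2 v.2
  exact h2.smul continuous_subtype_val

theorem j15695_mk (v : {v : Fin (n + 1) → F // v ≠ 0}) :
    (Projectivization.mk F v.1 v.2 : ProjSpace F n) = qmap F n (j15695_nv v) := by
  unfold qmap
  refine (Projectivization.mk_eq_mk_iff' F _ _ _ _).2 ⟨algebraMap ℝ F ‖v.1‖, ?_⟩
  unfold j15695_nv
  simp only
  rw [algebraMap_smul, smul_smul, mul_inv_cancel₀ (norm_ne_zero_iff.2 v.2), one_smul]

theorem j15695_open : IsOpenMap (qmap F n) := by
  intro U hU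
  have h1 : IsOpen ((Quotient.mk (projectivizationSetoid F (Fin (n + 1) → F))) ⁻¹'
      (qmap F n '' U)) := by
    have e : ((Quotient.mk (projectivizationSetoid F (Fin (n + 1) → F))) ⁻¹' (qmap F n '' U)) =
        ⋃ c : {c : F // ‖c‖ = 1}, (fun v : {v : Fin (n + 1) → F // v ≠ 0} =>
          (fun i => c.1 * (j15695_nv v).1 i)) ⁻¹' (Subtype.val '' U) := by
      ext v
      simp only [mem_preimage, mem_iUnion]
      constructor
      · rintro ⟨u, hu, huv⟩
        have h2 : qmap F n u = qmap F n (j15695_nv v) := by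
          rw [← j15695_mk]
          exact huv
        obtain ⟨c, hc, hcu⟩ := (qmap_eq_iff _ _).1 h2
        exact ⟨⟨c, hc⟩, u, hu, funext hcu⟩
      · rintro ⟨⟨c, hc⟩, u, hu, huv⟩
        refine ⟨u, hu, ?_⟩
        have h2 : qmap F n u = qmap F n (j15695_nv v) :=
          (qmap_eq_iff _ _).2 ⟨c, hc, fun i => congrFun huv i⟩
        rw [h2, ← j15695_mk]
        rfl
    rw [e]
    refine isOpen_iUnion fun c => ?_
    obtain ⟨V, hV, rfl⟩ := isOpen_induced_iff.1 hU
    have e2 : (fun v : {v : Fin (n + 1) → F // v ≠ 0} =>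
          (fun i => c.1 * (j15695_nv v).1 i)) ⁻¹'
          (Subtype.val '' ((Subtype.val : Metric.sphere (0 : Fin (n + 1) → F) 1 → _) ⁻¹' V)) =
        (fun v : {v : Fin (n + 1) → F // v ≠ 0} => (fun i => c.1 * (j15695_nv v).1 i)) ⁻¹' V := by
      ext v
      simp only [mem_preimage]
      constructor
      · rintro ⟨u, hu, huv⟩
        rw [← huv]
        exact hu
      · intro h
        have hn : ‖(fun i => c.1 * (j15695_nv v).1 i)‖ = 1 := by
          have h3 : (fun i => c.1 * (j15695_nv v).1 i) = c.1 • (j15695_nv v).1 := rfl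
          rw [h3, norm_smul, c.2, one_mul]
          exact mem_sphere_zero_iff_norm.1 (j15695_nv v).2
        exact ⟨⟨_, mem_sphere_zero_iff_norm.2 hn⟩, h, rfl⟩
    rw [e2]
    refine hV.preimage (continuous_pi fun i => ?_)
    exact continuous_const.mul ((continuous_apply i).comp
      (continuous_subtype_val.comp j15695_nv_cont))
  exact h1

theorem j15695_closed : IsClosed {p : Metric.sphere (0 : Fin (n + 1) → F) 1 ×
    Metric.sphere (0 : Fin (n + 1) → F) 1 | qmap F n p.1 = qmap F n p.2} := by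
  haveI : ProperSpace F := FiniteDimensional.proper ℝ F
  haveI : ProperSpace (Fin (n + 1) → F) := FiniteDimensional.proper ℝ _
  haveI : CompactSpace (Metric.sphere (0 : F) 1) := isCompact_iff_compactSpace.1 (isCompact_sphere _ _)
  haveI : CompactSpace (Metric.sphere (0 : Fin (n + 1) → F) 1) :=
    isCompact_iff_compactSpace.1 (isCompact_sphere _ _)
  have e : {p : Metric.sphere (0 : Fin (n + 1) → F) 1 ×
      Metric.sphere (0 : Fin (n + 1) → F) 1 | qmap F n p.1 = qmap F n p.2} =
      Prod.snd '' {p : Metric.sphere (0 : F) 1 × (Metric.sphere (0 : Fin (n + 1) → F) 1 ×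
        Metric.sphere (0 : Fin (n + 1) → F) 1) | ∀ i, p.2.1.1 i = p.1.1 * p.2.2.1 i} := by
    ext p
    simp only [mem_ofPred_eq, mem_image]
    rw [qmap_eq_iff]
    constructor
    · rintro ⟨c, hc, hcp⟩
      exact ⟨(⟨c, mem_sphere_zero_iff_norm.2 hc⟩, p), hcp, rfl⟩
    · rintro ⟨⟨c, p'⟩, hp, rfl⟩
      exact ⟨c.1, mem_sphere_zero_iff_norm.1 c.2, hp⟩
  rw [e]
  refine IsCompact.isClosed (IsCompact.image (IsClosed.isCompact ?_) continuous_snd)
  simp only [setOf_forall]
  refine isClosed_iInter fun i => isClosed_eq ?_ ?_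
  · exact (continuous_apply i).comp (continuous_subtype_val.comp
      (continuous_fst.comp continuous_snd))
  · exact (continuous_subtype_val.comp continuous_fst).mul ((continuous_apply i).comp
      (continuous_subtype_val.comp (continuous_snd.comp continuous_snd)))

theorem ps_t2 : T2Space (ProjSpace F n) := by
  rw [t2Space_iff_of_isOpenQuotientMap ⟨qmap_surjective, qmap_continuous, j15695_open⟩]
  exact j15695_closed

theorem ps_connected (hn : 1 ≤ n) : ConnectedSpace (ProjSpace F n) := by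
  have h1 : 1 < Module.finrank ℝ (Fin (n + 1) → F) := by
    rw [Module.finrank_pi_fintype]
    simp only [Finset.sum_const, Finset.card_univ, Fintype.card_fin, smul_eq_mul]
    have h2 : 0 < Module.finrank ℝ F := Module.finrank_pos
    nlinarith
  have h3 : 1 < Module.rank ℝ (Fin (n + 1) → F) := by
    rw [← Module.finrank_eq_rank]
    exact_mod_cast h1
  have h4 : IsConnected (Metric.sphere (0 : Fin (n + 1) → F) 1) :=
    isConnected_sphere h3 0 zero_le_one
  haveI : ConnectedSpace (Metric.sphere (0 : Fin (n + 1) → F) 1) :=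
    isConnected_iff_connectedSpace.1 h4
  exact (qmap_surjective (F := F) (n := n)).connectedSpace qmap_continuous

/-- the quotient map -/
def j15698_pi (F : Type) [NormedDivisionRing F] (n : ℕ) (v : {v : Fin (n + 1) → F // v ≠ 0}) :
    ProjSpace F n := Projectivization.mk F v.1 v.2

omit [NormedAlgebra ℝ F] [FiniteDimensional ℝ F] in
theorem j15698_quot : IsQuotientMap (j15698_pi F n) := by
  letI : Setoid {v : Fin (n + 1) → F // v ≠ 0} := projectivizationSetoid F (Fin (n + 1) → F)
  exact isQuotientMap_quotient_mk'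

/-- the representative -/
noncomputable def j15698_rep (p : ProjSpace F n) : Fin (n + 1) → F :=
  Projectivization.rep (K := F) (V := Fin (n + 1) → F) p

omit [NormedAlgebra ℝ F] [FiniteDimensional ℝ F] in
theorem j15698_rep_ne (p : ProjSpace F n) : j15698_rep p ≠ 0 :=
  Projectivization.rep_nonzero (K := F) (V := Fin (n + 1) → F) p

omit [NormedAlgebra ℝ F] [FiniteDimensional ℝ F] in
theorem j15698_rep_pi (v : {v : Fin (n + 1) → F // v ≠ 0}) :
    ∃ a : F, a ≠ 0 ∧ ∀ i, j15698_rep (j15698_pi F n v) i = a * v.1 i := by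
  obtain ⟨a, ha⟩ := Projectivization.exists_smul_eq_mk_rep F v.1 v.2
  refine ⟨a, a.ne_zero, fun i => ?_⟩
  exact (congrFun ha i).symm

/-- the chart domain -/
def j15698_U (F : Type) [NormedDivisionRing F] (n : ℕ) (i : Fin (n + 1)) : Set (ProjSpace F n) :=
  {p | j15698_rep p i ≠ 0}

/-- the chart -/
noncomputable def j15698_phi (i : Fin (n + 1)) (p : ProjSpace F n) : Fin n → F :=
  fun k => (j15698_rep p i)⁻¹ * j15698_rep p (i.succAbove k)

omit [NormedAlgebra ℝ F] [FiniteDimensional ℝ F] in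
theorem j15698_ins_ne (i : Fin (n + 1)) (w : Fin n → F) :
    (Fin.insertNth i (1 : F) w : Fin (n + 1) → F) ≠ 0 := by
  intro h
  have h1 := congrFun h i
  rw [Fin.insertNth_apply_same] at h1
  exact one_ne_zero h1

/-- the inverse chart -/
def j15698_psi (i : Fin (n + 1)) (w : Fin n → F) : ProjSpace F n :=
  j15698_pi F n ⟨Fin.insertNth i (1 : F) w, j15698_ins_ne i w⟩

omit [NormedAlgebra ℝ F] [FiniteDimensional ℝ F] in
theorem j15698_phi_pi (i : Fin (n + 1)) (v : {v : Fin (n + 1) → F // v ≠ 0}) (k : Fin n) :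
    j15698_phi i (j15698_pi F n v) k = (v.1 i)⁻¹ * v.1 (i.succAbove k) := by
  obtain ⟨a, ha, h⟩ := j15698_rep_pi v
  unfold j15698_phi
  rw [h, h, mul_inv_rev, mul_assoc, inv_mul_cancel_left₀ ha]

omit [NormedAlgebra ℝ F] [FiniteDimensional ℝ F] in
theorem j15698_mem_U (i : Fin (n + 1)) (v : {v : Fin (n + 1) → F // v ≠ 0}) :
    j15698_pi F n v ∈ j15698_U F n i ↔ v.1 i ≠ 0 := by
  obtain ⟨a, ha, h⟩ := j15698_rep_pi v
  show j15698_rep (j15698_pi F n v) i ≠ 0 ↔ _
  rw [h]
  exact ⟨right_ne_zero_of_mul, fun h2 => mul_ne_zero ha h2⟩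

omit [NormedAlgebra ℝ F] [FiniteDimensional ℝ F] in
theorem j15698_isOpen_U (i : Fin (n + 1)) : IsOpen (j15698_U F n i) := by
  rw [← j15698_quot.isOpen_preimage]
  have h1 : j15698_pi F n ⁻¹' j15698_U F n i = {v | v.1 i ≠ 0} := by
    ext v
    exact j15698_mem_U i v
  rw [h1]
  exact isOpen_ne_fun ((continuous_apply i).comp continuous_subtype_val) continuous_const

omit [NormedAlgebra ℝ F] [FiniteDimensional ℝ F] in
theorem j15698_cont_phi (i : Fin (n + 1)) :
    ContinuousOn (j15698_phi (F := F) i) (j15698_U F n i) := by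
  rw [j15698_quot.continuousOn_isOpen_iff (j15698_isOpen_U i)]
  have h1 : j15698_phi (F := F) i ∘ j15698_pi F n =
      fun v k => (v.1 i)⁻¹ * v.1 (i.succAbove k) := by
    funext v k
    exact j15698_phi_pi i v k
  rw [h1, continuousOn_pi]
  intro k
  have c1 : Continuous fun v : {v : Fin (n + 1) → F // v ≠ 0} => v.1 i :=
    (continuous_apply i).comp continuous_subtype_val
  have c2 : Continuous fun v : {v : Fin (n + 1) → F // v ≠ 0} => v.1 (i.succAbove k) :=
    (continuous_apply _).comp continuous_subtype_val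
  refine ContinuousOn.mul (c1.continuousOn.inv₀ ?_) c2.continuousOn
  intro v hv
  exact (j15698_mem_U i v).1 hv

omit [NormedAlgebra ℝ F] [FiniteDimensional ℝ F] in
theorem j15698_cont_psi (i : Fin (n + 1)) : Continuous (j15698_psi (F := F) i) := by
  refine j15698_quot.continuous.comp (Continuous.subtype_mk ?_ _)
  exact Continuous.finInsertNth i continuous_const continuous_id

omit [NormedAlgebra ℝ F] [FiniteDimensional ℝ F] in
theorem j15698_psi_mem (i : Fin (n + 1)) (w : Fin n → F) :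
    j15698_psi i w ∈ j15698_U F n i := by
  unfold j15698_psi
  rw [j15698_mem_U]
  simp

omit [NormedAlgebra ℝ F] [FiniteDimensional ℝ F] in
theorem j15698_right (i : Fin (n + 1)) (w : Fin n → F) :
    j15698_phi i (j15698_psi i w) = w := by
  funext k
  unfold j15698_psi
  rw [j15698_phi_pi]
  simp

omit [NormedAlgebra ℝ F] [FiniteDimensional ℝ F] in
theorem j15698_left (i : Fin (n + 1)) (p : ProjSpace F n) (hp : p ∈ j15698_U F n i) :
    j15698_psi i (j15698_phi i p) = p := by
  obtain ⟨v, rfl⟩ := j15698_quot.surjective p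
  rw [j15698_mem_U] at hp
  have h1 : j15698_phi i (j15698_pi F n v) = fun k => (v.1 i)⁻¹ * v.1 (i.succAbove k) :=
    funext fun k => j15698_phi_pi i v k
  rw [h1]
  unfold j15698_psi j15698_pi
  refine (Projectivization.mk_eq_mk_iff' F _ _ _ _).2 ⟨(v.1 i)⁻¹, ?_⟩
  funext j
  rcases Fin.eq_self_or_eq_succAbove i j with h | ⟨k, h⟩
  · subst h
    simp [hp]
  · subst h
    simp

/-- the chart as a partial homeomorphism -/
noncomputable def j15698_chart {d : ℕ} (L : (Fin n → F) ≃L[ℝ] EuclideanSpace ℝ (Fin (d * n)))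
    (i : Fin (n + 1)) : OpenPartialHomeomorph (ProjSpace F n) (EuclideanSpace ℝ (Fin (d * n))) where
  toFun p := L (j15698_phi i p)
  invFun y := j15698_psi i (L.symm y)
  source := j15698_U F n i
  target := univ
  map_source' _ _ := mem_univ _
  map_target' y _ := j15698_psi_mem i _
  left_inv' p hp := by
    rw [ContinuousLinearEquiv.symm_apply_apply]
    exact j15698_left i p hp
  right_inv' y _ := by
    rw [j15698_right, ContinuousLinearEquiv.apply_symm_apply]
  open_source := j15698_isOpen_U i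
  open_target := isOpen_univ
  continuousOn_toFun := L.continuous.comp_continuousOn (j15698_cont_phi i)
  continuousOn_invFun := ((j15698_cont_psi i).comp L.symm.continuous).continuousOn

theorem ps_charts {d : ℕ} (hd : Module.finrank ℝ F = d) :
    Nonempty (ChartedSpace (EuclideanSpace ℝ (Fin (d * n))) (ProjSpace F n)) := by
  have hfr : Module.finrank ℝ (Fin n → F) =
      Module.finrank ℝ (EuclideanSpace ℝ (Fin (d * n))) := by
    rw [finrank_euclideanSpace_fin, Module.finrank_pi_fintype]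
    simp [hd, mul_comm]
  have L : (Fin n → F) ≃L[ℝ] EuclideanSpace ℝ (Fin (d * n)) :=
    ContinuousLinearEquiv.ofFinrankEq hfr
  have hex : ∀ p : ProjSpace F n, ∃ i, p ∈ j15698_U F n i := fun p =>
    Function.ne_iff.1 (j15698_rep_ne p)
  choose i hi using hex
  exact ⟨{
    atlas := range (j15698_chart L)
    chartAt := fun p => j15698_chart L (i p)
    mem_chart_source := fun p => hi p
    chart_mem_atlas := fun p => ⟨i p, rfl⟩ }⟩

/-- the phase of the coordinate `i`. -/
noncomputable def J15701ph (i : Fin (n + 1)) (x : Metric.sphere (0 : Fin (n + 1) → F) 1) :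
    Metric.sphere (0 : F) 1 := by
  classical
  exact if h : x.1 i = 0 then ⟨1, by rw [mem_sphere_zero_iff_norm, norm_one]⟩
    else ⟨(‖x.1 i‖⁻¹ : ℝ) • x.1 i, by
      rw [mem_sphere_zero_iff_norm, norm_smul, norm_inv, norm_norm,
        inv_mul_cancel₀ (norm_ne_zero_iff.2 h)]⟩

theorem J15701ph_val (i : Fin (n + 1)) (x : Metric.sphere (0 : Fin (n + 1) → F) 1)
    (h : x.1 i ≠ 0) : (J15701ph i x).1 = (‖x.1 i‖⁻¹ : ℝ) • x.1 i := by
  unfold J15701ph
  rw [dif_neg h]

theorem J15701ph_cont (i : Fin (n + 1)) (x : Metric.sphere (0 : Fin (n + 1) → F) 1)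
    (h : x.1 i ≠ 0) : ContinuousAt (J15701ph i) x := by
  rw [Topology.IsInducing.subtypeVal.continuousAt_iff]
  have hc : Continuous fun y : Metric.sphere (0 : Fin (n + 1) → F) 1 => y.1 i :=
    (continuous_apply i).comp continuous_subtype_val
  have h1 : ContinuousAt (fun y : Metric.sphere (0 : Fin (n + 1) → F) 1 =>
      (‖y.1 i‖⁻¹ : ℝ) • y.1 i) x :=
    ContinuousAt.smul ((hc.norm.continuousAt).inv₀ (norm_ne_zero_iff.2 h)) hc.continuousAt
  refine h1.congr ?_
  have h2 : {y : Metric.sphere (0 : Fin (n + 1) → F) 1 | y.1 i ≠ 0} ∈ 𝓝 x :=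
    (isOpen_ne.preimage hc).mem_nhds h
  filter_upwards [h2] with y hy
  exact (J15701ph_val i y hy).symm

theorem J15701ph_mul (i : Fin (n + 1)) (x y : Metric.sphere (0 : Fin (n + 1) → F) 1) (c : F)
    (hc : ‖c‖ = 1) (h : x.1 i = c * y.1 i) (hy : y.1 i ≠ 0) :
    (J15701ph i x).1 = c * (J15701ph i y).1 := by
  have hc0 : c ≠ 0 := by
    intro h0
    rw [h0, norm_zero] at hc
    exact zero_ne_one hc
  have hx : x.1 i ≠ 0 := by
    rw [h]
    exact mul_ne_zero hc0 hy
  rw [J15701ph_val i x hx, J15701ph_val i y hy, h, norm_mul, hc, one_mul, mul_smul_comm]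

theorem J15701norm (c : F) (hc : ‖c‖ = 1) (y : Fin (n + 1) → F) :
    ‖(fun j => c * y j : Fin (n + 1) → F)‖ = ‖y‖ := by
  have h1 : ∀ j, ‖c * y j‖₊ = ‖y j‖₊ := by
    intro j
    apply NNReal.eq
    rw [coe_nnnorm, coe_nnnorm, norm_mul, hc, one_mul]
  rw [Pi.norm_def, Pi.norm_def]
  congr 1
  apply Finset.sup_congr rfl
  intro j _
  exact h1 j

/-- the parametrization of a fibre. -/
noncomputable def J15701g (c : F) (y : Metric.sphere (0 : Fin (n + 1) → F) 1)
    (hc : ‖c‖ = 1) (μ : Metric.sphere (0 : F) 1) :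
    Metric.sphere (0 : Fin (n + 1) → F) 1 :=
  ⟨fun j => (μ.1 * c) * y.1 j, by
    rw [mem_sphere_zero_iff_norm, J15701norm, ← mem_sphere_zero_iff_norm]
    · exact y.2
    · rw [norm_mul, hc, mul_one, ← mem_sphere_zero_iff_norm]
      exact μ.2⟩

theorem J15701g_cont (c : F) (y : Metric.sphere (0 : Fin (n + 1) → F) 1) (hc : ‖c‖ = 1) :
    Continuous (J15701g c y hc) := by
  unfold J15701g
  apply Continuous.subtype_mk
  apply continuous_pi
  intro j
  exact (continuous_subtype_val.mul continuous_const).mul continuous_const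

theorem J15701open (i : Fin (n + 1)) : ∃ U : Set (ProjSpace F n), IsOpen U ∧
    ∀ x : Metric.sphere (0 : Fin (n + 1) → F) 1, qmap F n x ∈ U ↔ x.1 i ≠ 0 := by
  obtain ⟨U, hU⟩ : ∃ U : Set (ProjSpace F n),
      U = {w | ∃ v : {v : Fin (n + 1) → F // v ≠ 0}, v.1 i ≠ 0 ∧
        (Quotient.mk (projectivizationSetoid F (Fin (n + 1) → F)) v : ProjSpace F n) = w} :=
    ⟨_, rfl⟩
  have hmem : ∀ v : {v : Fin (n + 1) → F // v ≠ 0},
      (Quotient.mk (projectivizationSetoid F (Fin (n + 1) → F)) v : ProjSpace F n) ∈ U ↔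
        v.1 i ≠ 0 := by
    intro v
    rw [hU]
    constructor
    · rintro ⟨v', hv', he⟩
      have h1 := Quotient.exact he
      obtain ⟨c, hc⟩ := h1
      intro h0
      apply hv'
      have h2 := congrFun hc i
      have h3 : v'.1 i = c * v.1 i := h2.symm
      rw [h3, h0, mul_zero]
    · intro h
      exact ⟨v, h, rfl⟩
  refine ⟨U, ?_, ?_⟩
  · have hq : Topology.IsQuotientMap
        (Quotient.mk (projectivizationSetoid F (Fin (n + 1) → F))) := isQuotientMap_quotient_mk'
    have h1 : IsOpen ((Quotient.mk (projectivizationSetoid F (Fin (n + 1) → F))) ⁻¹' U) := by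
      have h2 : (Quotient.mk (projectivizationSetoid F (Fin (n + 1) → F))) ⁻¹' U =
          {v : {v : Fin (n + 1) → F // v ≠ 0} | v.1 i ≠ 0} := by
        ext v
        exact hmem v
      rw [h2]
      exact isOpen_ne.preimage ((continuous_apply i).comp continuous_subtype_val)
    exact hq.isOpen_preimage.1 h1
  · intro x
    exact hmem ⟨x.1, _⟩

/-- local generators of the sphere bundle. -/
theorem qmap_loc {d : ℕ} (hd : Module.finrank ℝ F = d) (w : ProjSpace F n) :
    ∃ U : Set (ProjSpace F n), IsOpen U ∧ w ∈ U ∧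
      ∃ a : Ch (Metric.sphere (0 : Fin (n + 1) → F) 1),
        (AS (Metric.sphere (0 : Fin (n + 1) → F) 1)).Coc (qmap F n ⁻¹' U) d a ∧
        ∀ w' ∈ U, (AS (Metric.sphere (0 : Fin (n + 1) → F) 1)).RT one d a
          (qmap F n ⁻¹' {w'}) := by
  have hd1 : 1 ≤ d := by
    rw [← hd]
    exact Module.finrank_pos
  obtain ⟨θ, hθ1, hθ2⟩ := nsphere F hd hd1
  obtain ⟨x0, hx0⟩ := qmap_surjective w
  have hx0n : ∃ i, x0.1 i ≠ 0 := by
    by_contra hcon
    push Not at hcon
    have h1 : x0.1 = 0 := funext hcon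
    have h2 := x0.2
    rw [mem_sphere_zero_iff_norm, h1, norm_zero] at h2
    exact zero_ne_one h2
  obtain ⟨i, hi⟩ := hx0n
  obtain ⟨U, hUo, hU⟩ := J15701open (F := F) (n := n) i
  refine ⟨U, hUo, ?_, pb (J15701ph i) θ, ?_, ?_⟩
  · rw [← hx0]
    exact (hU x0).2 hi
  · exact coc_pb (fun x hx => J15701ph_cont i x ((hU x).1 hx)) (mapsTo_univ _ _) hθ1
  · intro w' hw'
    obtain ⟨y0, hy0⟩ := qmap_surjective w'
    have hyi : y0.1 i ≠ 0 := by
      apply (hU y0).1
      rw [hy0]
      exact hw'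
    have hph : ‖(J15701ph i y0).1‖ = 1 := mem_sphere_zero_iff_norm.1 (J15701ph i y0).2
    have hph0 : (J15701ph i y0).1 ≠ 0 := by
      intro h0
      rw [h0, norm_zero] at hph
      exact zero_ne_one hph
    have hcn : ‖((J15701ph i y0).1)⁻¹‖ = 1 := by rw [norm_inv, hph, inv_one]
    have hfib : ∀ x ∈ qmap F n ⁻¹' {w'}, ∃ c : F, ‖c‖ = 1 ∧ ∀ j, x.1 j = c * y0.1 j := by
      intro x hx
      have hx' : qmap F n x = w' := hx
      rw [← hy0] at hx'
      exact (qmap_eq_iff x y0).1 hx'
    have hgc : ∀ μ : Metric.sphere (0 : F) 1, ‖μ.1 * ((J15701ph i y0).1)⁻¹‖ = 1 := by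
      intro μ
      rw [norm_mul, hcn, mul_one, ← mem_sphere_zero_iff_norm]
      exact μ.2
    refine rt_transfer (F' := univ) (g := J15701ph i)
      (g' := J15701g ((J15701ph i y0).1)⁻¹ y0 hcn) ?_ ?_ (mapsTo_univ _ _) ?_ ?_ ?_ hθ1 hθ2
    · intro x hx
      apply J15701ph_cont i x
      apply (hU x).1
      have hx' : qmap F n x = w' := hx
      rw [hx']
      exact hw'
    · intro μ _
      exact (J15701g_cont _ y0 hcn).continuousAt
    · intro μ _
      show qmap F n _ = w'
      rw [← hy0, qmap_eq_iff]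
      exact ⟨μ.1 * ((J15701ph i y0).1)⁻¹, hgc μ, fun j => rfl⟩
    · intro x hx
      obtain ⟨c, hc, hcx⟩ := hfib x hx
      apply Subtype.ext
      funext j
      show ((J15701ph i x).1 * ((J15701ph i y0).1)⁻¹) * y0.1 j = x.1 j
      rw [J15701ph_mul i x y0 c hc (hcx i) hyi, mul_assoc c, mul_inv_cancel₀ hph0, mul_one, hcx j]
    · intro μ _
      apply Subtype.ext
      rw [J15701ph_mul i _ y0 (μ.1 * ((J15701ph i y0).1)⁻¹) (hgc μ) rfl hyi, mul_assoc,
        inv_mul_cancel₀ hph0, mul_one]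

/-- job15702: exactness below the top from `RT`. -/
theorem job15702_ex_of_rt {T : Type*} [MetricSpace T] {D : ℕ} {θ : Ch T}
    (h : (AS T).RT one D θ univ) (ν : ℕ) (h2 : 2 ≤ ν) (hν : ν < D) : (AS T).Ex univ ν := by
  intro c hc
  rcases h.1 ν c hc with h1 | ⟨h1, _⟩ | ⟨h1, _⟩ | ⟨h1, _⟩
  · exact h1
  · omega
  · omega
  · omega

/-- job15702: the abstract form of the theorem. -/
theorem job15702_aux {P : Type*} [TopologicalSpace P] [CompactSpace P] [T2Space P]
    [ConnectedSpace P] {d n N : ℕ} (hd : 1 ≤ d) (hn : 1 ≤ n)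
    [ChartedSpace (EuclideanSpace ℝ (Fin (d * n))) P]
    {T : Type*} [MetricSpace T] [CompactSpace T] (q : T → P) (hq : Continuous q)
    (hT : ∀ ν, 2 ≤ ν → ν ≤ d * n → (AS T).Ex univ ν)
    (hloc : ∀ w : P, ∃ U : Set P, IsOpen U ∧ w ∈ U ∧ ∃ a : Ch T, (AS T).Coc (q ⁻¹' U) d a ∧
      ∀ w' ∈ U, (AS T).RT one d a (q ⁻¹' {w'}))
    (f : P → EuclideanSpace ℝ (Fin N)) (hf : Continuous f) (hs : Substantial f)
    (ht : OpenTightMap f ∨ TightMap f ∨ CechTightMap f) :
    N ≤ n + d * (n * (n + 1) / 2) := by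
  haveI : SecondCountableTopology P :=
    ChartedSpace.secondCountable_of_sigmaCompact (EuclideanSpace ℝ (Fin (d * n))) P
  haveI : TopologicalSpace.MetrizableSpace P :=
    TopologicalSpace.metrizableSpace_of_t3_secondCountable P
  letI : MetricSpace P := TopologicalSpace.metrizableSpaceMetric P
  obtain ⟨u, hu, hring⟩ := ring_of_bundle q hq hd hT hloc
  refine cps_bound hd hn f hf hs ?_ u hu hring
  intro z hz n' hn' c hc
  obtain ⟨x₁, -, hx₁⟩ := isCompact_univ.exists_isMaxOn (univ_nonempty (α := P))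
    ((continuous_const.inner hf : Continuous fun x => ⟪z, f x⟫_ℝ).continuousOn)
  have htop : top f z = {x | ⟪z, f x₁⟫_ℝ ≤ ⟪z, f x⟫_ℝ} := by
    ext x
    constructor
    · intro h
      exact h x₁
    · intro h y
      exact (hx₁ (mem_univ y)).trans h
  rw [htop] at hc ⊢
  rcases ht with ht | ht | ht
  · exact surj_of_sing_open (m := d * n) (fun x => ⟪z, f x⟫_ℝ) (continuous_const.inner hf) _
      (fun t _ => ht z t hz) n' c hc
  · exact surj_of_sing (m := d * n) (fun x => ⟪z, f x⟫_ℝ) (continuous_const.inner hf) _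
      (fun t _ => ht z t hz) n' c hc
  · exact surj_of_cech (isClosed_le continuous_const (continuous_const.inner hf)).isCompact
      (ht z _ hz) n' hn' c hc

/-- Tight substantial maps of projective spaces. -/
theorem proj_bound {d N : ℕ} (hd : Module.finrank ℝ F = d) (hn : 1 ≤ n)
    (f : ProjSpace F n → EuclideanSpace ℝ (Fin N)) (hf : Continuous f) (hs : Substantial f)
    (ht : OpenTightMap f ∨ TightMap f ∨ CechTightMap f) :
    N ≤ n + d * (n * (n + 1) / 2) := by
  have hd1 : 1 ≤ d := by rw [← hd]; exact Module.finrank_pos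
  obtain ⟨cs⟩ := ps_charts (F := F) (n := n) hd
  haveI : CompactSpace (ProjSpace F n) := ps_compact
  haveI : T2Space (ProjSpace F n) := ps_t2
  haveI : ConnectedSpace (ProjSpace F n) := ps_connected hn
  have hfr : Module.finrank ℝ (Fin (n + 1) → F) = (n + 1) * d := by
    rw [Module.finrank_pi_fintype]
    simp [hd]
  have hD1 : 1 ≤ (n + 1) * d := Nat.mul_pos (Nat.succ_pos n) hd1
  obtain ⟨θ, -, hRT⟩ := nsphere (Fin (n + 1) → F) hfr hD1
  haveI : ProperSpace (Fin (n + 1) → F) := FiniteDimensional.proper ℝ (Fin (n + 1) → F)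
  haveI : CompactSpace (Metric.sphere (0 : Fin (n + 1) → F) 1) :=
    isCompact_iff_compactSpace.1 (isCompact_sphere _ _)
  refine job15702_aux hd1 hn (qmap F n) qmap_continuous (fun ν h2 hν => ?_) (qmap_loc hd) f hf hs ht
  refine job15702_ex_of_rt hRT ν h2 (lt_of_le_of_lt hν ?_)
  nlinarith

end

open Quaternion in
/-- all three cases. -/
theorem proj_final {n N : ℕ} (hn : 1 ≤ n) :
    (∀ f : ProjSpace ℝ n → EuclideanSpace ℝ (Fin N), Continuous f → Substantial f →
      (OpenTightMap f ∨ TightMap f ∨ CechTightMap f) → N ≤ 1 * n + (n + 1 * n.choose 2)) ∧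
    (∀ f : ProjSpace ℂ n → EuclideanSpace ℝ (Fin N), Continuous f → Substantial f →
      (OpenTightMap f ∨ TightMap f ∨ CechTightMap f) → N ≤ 2 * n + (n + 2 * n.choose 2)) ∧
    (∀ f : ProjSpace ℍ[ℝ] n → EuclideanSpace ℝ (Fin N), Continuous f → Substantial f →
      (OpenTightMap f ∨ TightMap f ∨ CechTightMap f) → N ≤ 4 * n + (n + 4 * n.choose 2)) := by
  have key : n * (n + 1) / 2 = n + n.choose 2 := by
    have h1 : (n + 1).choose 2 = n.choose 1 + n.choose 2 := Nat.choose_succ_succ n 1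
    rw [Nat.choose_two_right, Nat.choose_one_right, Nat.add_sub_cancel] at h1
    rw [mul_comm, h1]
  refine ⟨fun f hf hs ht => ?_, fun f hf hs ht => ?_, fun f hf hs ht => ?_⟩
  · have h := proj_bound (F := ℝ) (d := 1) (Module.finrank_self ℝ) hn f hf hs ht
    rw [key] at h
    omega
  · have h := proj_bound (F := ℂ) (d := 2) Complex.finrank_real_complex hn f hf hs ht
    rw [key] at h
    omega
  · have h := proj_bound (F := ℍ[ℝ]) (d := 4) Quaternion.finrank_eq_four hn f hf hs ht
    rw [key] at h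
    omega

end Pool.Agent.Helper775.Tight
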