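import Pool.Agent.Helper775.Sym.AB
import Pool.Agent.Helper775.Tight.Core

/-! Relative cocycles, sums of shifted complexes, fibres with a truncated polynomial cohomology. -/

set_option autoImplicit false

namespace Pool.Agent.Helper775.Tight

open Set Topology

namespace SoftCx

section rel

variable {Y K : Type*} [TopologicalSpace Y] [AddCommGroup K]

/-- relative cocycles of the pair `(A, A')`. -/
def RelCoc (C : SoftCx Y K) (A A' : Set Y) (n : ℕ) (k : K) : Prop :=
  C.Coc A n k ∧ ∀ z ∈ A', k ∈ C.N z n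

/-- relative coboundaries of the pair `(A, A')`. -/
def RelCob (C : SoftCx Y K) (A A' : Set Y) (n : ℕ) (k : K) : Prop :=
  ∃ k', (∀ z ∈ A, k - C.D k' ∈ C.N z n) ∧ ∀ z ∈ A', k' ∈ C.N z (n - 1)

/-- relative exactness. -/
def RelEx (C : SoftCx Y K) (A A' : Set Y) (n : ℕ) : Prop :=
  ∀ k, C.RelCoc A A' n k → C.RelCob A A' n k

theorem ex_of_rel {C : SoftCx Y K} {A A' : Set Y} (h : A' ⊆ A) {n : ℕ} (h1 : C.RelEx A A' n)
    (h2 : C.Ex A' n) : C.Ex A n := by
  intro k hk
  obtain ⟨j, hj⟩ := h2 k (hk.mono h)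
  obtain ⟨k', hk', -⟩ := h1 (k - C.D j) ⟨hk.sub (coc_D A n j), hj⟩
  refine ⟨j + k', fun z hz => ?_⟩
  have h3 := hk' z hz
  rw [map_add, ← sub_sub]
  exact h3

theorem rel_of_ex {C : SoftCx Y K} {A A' : Set Y} (h : A' ⊆ A) {n : ℕ}
    (h1 : C.Ex A (n + 1)) (h2 : C.Ex A' n) : C.RelEx A A' (n + 1) := by
  rintro k ⟨hk, hk'⟩
  obtain ⟨j, hj⟩ := h1 k hk
  have hj' : C.Coc A' n j := by
    intro z hz
    have h3 := sub_mem (hk' z hz) (hj z (h hz))
    rwa [sub_sub_cancel] at h3
  obtain ⟨e, he⟩ := h2 j hj'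
  refine ⟨j - C.D e, fun z hz => ?_, fun z hz => he z hz⟩
  have e1 : k - C.D (j - C.D e) = (k - C.D j) + C.D (C.D e) := by
    rw [map_sub]; abel
  rw [e1]
  exact add_mem (hj z hz) (C.DD_mem z _ e)

theorem extend_of_rel {C : SoftCx Y K} {A A' : Set Y} {n : ℕ} {k : K}
    (hk : C.Coc A' n k) (h1 : C.RelEx A A' (n + 1)) :
    ∃ k', C.Coc A n k' ∧ ∀ z ∈ A', k' - k ∈ C.N z n := by
  obtain ⟨k2, h2, h3⟩ := h1 (C.D k) ⟨coc_D A (n + 1) k, hk⟩
  refine ⟨k - k2, fun z hz => ?_, fun z hz => ?_⟩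
  · rw [map_sub]
    exact h2 z hz
  · rw [sub_sub_cancel_left]
    exact neg_mem (h3 z hz)

theorem not_cob_of_rel {C : SoftCx Y K} {A A' : Set Y} (h : A' ⊆ A) {n : ℕ} {k : K}
    (hk : C.RelCoc A A' (n + 1) k) (hne : ¬ C.RelCob A A' (n + 1) k) (hex : C.Ex A' n) :
    ¬ C.Cob A (n + 1) k := by
  rintro ⟨j, hj⟩
  apply hne
  have hj' : C.Coc A' n j := by
    intro z hz
    have h3 := sub_mem (hk.2 z hz) (hj z (h hz))
    rwa [sub_sub_cancel] at h3
  obtain ⟨e, he⟩ := hex j hj'
  refine ⟨j - C.D e, fun z hz => ?_, fun z hz => he z hz⟩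
  have e1 : k - C.D (j - C.D e) = (k - C.D j) + C.D (C.D e) := by
    rw [map_sub]; abel
  rw [e1]
  exact add_mem (hj z hz) (C.DD_mem z _ e)

end rel

section relmetric

variable {Y K : Type*} [MetricSpace Y] [AddCommGroup K]

theorem rel_ex_of_pointwise {C : SoftCx Y K} {A A' : Set Y} (hA : IsCompact A)
    (hA' : IsCompact A') (h : A' ⊆ A) (hp : ∀ z ∈ A \ A', ∀ m, C.Ex {z} m) (n : ℕ) :
    C.RelEx A A' n := by
  rintro k ⟨hk, hk'⟩
  cases n with
  | zero => exact ⟨0, fun z _ => C.N_zero _ _, fun z _ => zero_mem _⟩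
  | succ n =>
    obtain ⟨A₁, A₂, h1, h2, hun, h3, h4, h5⟩ :=
      exists_split hA hA' (C.isOpen_N (n + 1) k) (fun z hz => hk' z hz)
    have hA2 : ∀ z ∈ A₂, z ∈ A \ A' := fun z hz =>
      ⟨by rw [hun]; exact Or.inr hz, fun hzB => (Set.disjoint_left.1 h4) hz hzB⟩
    obtain ⟨e, he⟩ := ex_of_pointwise (n + 1) h2 (fun z hz m _ => hp z (hA2 z hz) m) k
      (hk.mono (by rw [hun]; exact subset_union_right))
    have hcoc : C.Coc (A₁ ∩ A₂) n e := by
      intro z hz
      have h6 := sub_mem (h3 hz.1 : k ∈ C.N z (n + 1)) (he z hz.2)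
      rwa [sub_sub_cancel] at h6
    obtain ⟨g, hg⟩ := ex_of_pointwise n (h1.inter h2) (fun z hz m _ => hp z (hA2 z hz.2) m) e hcoc
    obtain ⟨m, hm1, hm2⟩ := C.soft n (e - C.D g) A₁ A₂ h1.isClosed h2.isClosed hg
    refine ⟨m, ?_, fun z hz => hm1 z (h5 ⟨h hz, hz⟩)⟩
    rw [hun]
    rintro z (hz | hz)
    · exact sub_mem (h3 hz : k ∈ C.N z (n + 1)) (C.D_mem z n m (hm1 z hz))
    · have e1 : k - C.D m = (k - C.D e) + C.D (e - C.D g - m) + C.D (C.D g) := by
        simp only [map_sub]; abel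
      rw [e1]
      exact add_mem (add_mem (he z hz) (C.D_mem z n _ (hm2 z hz))) (C.DD_mem z _ g)

end relmetric

section pow

variable {Y K K' : Type*} [TopologicalSpace Y] [AddCommGroup K] [AddCommGroup K']

/-- the sum of the shifts by `0, d, ..., m d`. -/
def powC (M : SoftCx Y K) (d m : ℕ) : SoftCx Y (Fin (m + 1) → K) where
  D :=
    { toFun := fun b i => M.D (b i)
      map_zero' := by funext i; simp
      map_add' := fun b c => by funext i; simp }
  N z n :=
    { carrier := {b | ∀ i : Fin (m + 1), b i ∈ M.N z (n - i.val * d)}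
      zero_mem' := fun i => zero_mem _
      add_mem' := fun hb hc i => add_mem (hb i) (hc i)
      neg_mem' := fun hb i => neg_mem (hb i) }
  N_zero z k := fun i => by
    rw [Nat.zero_sub]; exact M.N_zero z _
  D_mem z n k hk := fun i => (M.shift (i.val * d)).D_mem z n (k i) (hk i)
  DD_mem z n k := fun i => M.DD_mem z _ (k i)
  isOpen_N n k := by
    have : {z | ∀ i : Fin (m + 1), k i ∈ M.N z (n - i.val * d)} =
        ⋂ i : Fin (m + 1), {z | k i ∈ M.N z (n - i.val * d)} := by
      ext z; simp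
    change IsOpen {z | ∀ i : Fin (m + 1), k i ∈ M.N z (n - i.val * d)}
    rw [this]
    exact isOpen_iInter_of_finite fun i => M.isOpen_N _ _
  soft n k Z₁ Z₂ h₁ h₂ h := by
    have h3 : ∀ i : Fin (m + 1), ∃ k₁, (∀ z ∈ Z₁, k₁ ∈ M.N z (n - i.val * d)) ∧
        ∀ z ∈ Z₂, k i - k₁ ∈ M.N z (n - i.val * d) := fun i =>
      M.soft _ (k i) Z₁ Z₂ h₁ h₂ fun z hz => h z hz i
    choose k₁ h4 h5 using h3
    exact ⟨k₁, fun z hz i => h4 i z hz, fun z hz i => h5 i z hz⟩

theorem powC_D (M : SoftCx Y K) (d m : ℕ) (b : Fin (m + 1) → K) (i : Fin (m + 1)) :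
    (powC M d m).D b i = M.D (b i) := rfl

theorem mem_powC_N (M : SoftCx Y K) (d m : ℕ) (z : Y) (n : ℕ) (b : Fin (m + 1) → K) :
    b ∈ (powC M d m).N z n ↔ ∀ i : Fin (m + 1), b i ∈ M.N z (n - i.val * d) := Iff.rfl

variable {M : SoftCx Y K} {F : SoftCx Y K'}

/-- the sum of morphisms from the shifts. -/
def powMor {d m : ℕ} (lam : ∀ i : Fin (m + 1), Mor (M.shift (i.val * d)) F) :
    Mor (powC M d m) F where
  f := ∑ i : Fin (m + 1), (lam i).f.comp (Pi.evalAddMonoidHom (fun _ : Fin (m + 1) => K) i)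
  mem z n k hk := by
    rw [AddMonoidHom.finsetSum_apply]
    exact sum_mem fun i _ => (lam i).mem z n (k i) (hk i)
  comm z n k := by
    rw [AddMonoidHom.finsetSum_apply, AddMonoidHom.finsetSum_apply, map_sum,
      ← Finset.sum_sub_distrib]
    exact sum_mem fun i _ => (lam i).comm z n (k i)

theorem powMor_f {d m : ℕ} (lam : ∀ i : Fin (m + 1), Mor (M.shift (i.val * d)) F)
    (b : Fin (m + 1) → K) : (powMor lam).f b = ∑ i, (lam i).f (b i) := by
  change (∑ i : Fin (m + 1), (lam i).f.comp (Pi.evalAddMonoidHom (fun _ : Fin (m + 1) => K) i)) b = _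
  rw [AddMonoidHom.finsetSum_apply]
  rfl

/-- `Z` has the cohomology with basis `g 0, ..., g m`, with `g i` in degree `i d`. -/
def FT (C : SoftCx Y K) (g : ℕ → K) (d m : ℕ) (Z : Set Y) : Prop :=
  (∀ i ≤ m, (∀ k, C.Coc Z (i * d + 1) k → C.Cob Z (i * d + 1) k ∨
    C.Cob Z (i * d + 1) (k - g i)) ∧ ¬ C.Cob Z (i * d + 1) (g i)) ∧
  ∀ n, (∀ i ≤ m, n ≠ i * d + 1) → C.Ex Z n

/-- the cone over a fibre of type `FT` is exact. -/
theorem cone_pow_ex {d m : ℕ} (hd : 1 ≤ d)
    (lam : ∀ i : Fin (m + 1), Mor (M.shift (i.val * d)) F) (one : K) (g : ℕ → K') (w : Y)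
    (hone : M.D one ∈ M.N w 2)
    (hlam : ∀ i : Fin (m + 1), (lam i).f one - g i.val ∈ F.N w (i.val * d + 1))
    (hM : M.Acy one {w}) (hF : F.FT g d m {w}) (n : ℕ) : (cone (powMor lam)).Ex {w} n := by
  classical
  obtain ⟨-, hM1, hM2⟩ := hM
  obtain ⟨hF1, hF2⟩ := hF
  simp only [mem_singleton_iff, forall_eq] at hM1
  rintro ⟨e, f⟩ hk
  have hk' := hk w rfl
  rw [cone_D, cone_N] at hk'
  obtain ⟨he0, hf⟩ := hk'
  have he : ∀ i : Fin (m + 1), M.D (e i) ∈ M.N w (n + 1 - i.val * d) := he0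
  change (powMor lam).f e - F.D f ∈ F.N w n at hf
  rw [powMor_f] at hf
  rcases n with _ | q
  · exact cob_index_zero _ _
  have hadd : ∀ (i : Fin (m + 1)) (x : K) (c : K'),
      (lam i).f (e i) - (lam i).f (M.D x) - c ∈ F.N w (q + 1) →
      (lam i).f (e i) - F.D ((lam i).f x) - c ∈ F.N w (q + 1) := by
    intro i x c h
    have h2 := (lam i).comm w (q + 1) x
    change F.D ((lam i).f x) - (lam i).f (M.D x) ∈ F.N w (q + 1) at h2
    have h3 := sub_mem h h2
    convert h3 using 1
    abel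
  have hgood : ∀ (i : Fin (m + 1)) (x : K), e i - M.D x ∈ M.N w (q + 1 - i.val * d) →
      (lam i).f (e i) - F.D ((lam i).f x) - 0 ∈ F.N w (q + 1) := by
    intro i x h
    apply hadd
    have h1 := (lam i).mem w (q + 1) _ h
    rw [map_sub] at h1
    rw [sub_zero]
    exact h1
  have hpre : ∀ i : Fin (m + 1), q + 1 ≠ i.val * d + 1 →
      ∃ x, e i - M.D x ∈ M.N w (q + 1 - i.val * d) := by
    intro i hi
    rcases Nat.lt_or_ge (i.val * d) (q + 1) with h | h
    · have h2 : 2 ≤ q + 1 - i.val * d := by omega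
      have e1 : q + 1 + 1 - i.val * d = (q + 1 - i.val * d) + 1 := by omega
      have h3 := he i
      rw [e1] at h3
      obtain ⟨x, hx⟩ := hM2 _ h2 (e i) (by intro z hz; rw [mem_singleton_iff.1 hz]; exact h3)
      exact ⟨x, hx w rfl⟩
    · refine ⟨0, ?_⟩
      have : q + 1 - i.val * d = 0 := by omega
      rw [this]; exact M.N_zero _ _
  have hall : ∀ i : Fin (m + 1), ∃ x, e i - M.D x ∈ M.N w (q + 1 - i.val * d) := by
    intro i
    by_cases hi : q + 1 ≠ i.val * d + 1
    · exact hpre i hi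
    rw [not_not] at hi
    have e1 : q + 1 + 1 - i.val * d = 1 + 1 := by omega
    have e2 : q + 1 - i.val * d = 1 := by omega
    have h3 := he i
    rw [e1] at h3
    rcases hM1 (e i) (by intro z hz; rw [mem_singleton_iff.1 hz]; exact h3) with h1 | h1
    · refine ⟨0, ?_⟩
      rw [e2, map_zero, sub_zero]; exact h1
    · exfalso
      have hx : ∀ j : Fin (m + 1), ∃ x, j ≠ i → e j - M.D x ∈ M.N w (q + 1 - j.val * d) := by
        intro j
        by_cases hj : j = i
        · exact ⟨0, fun h => (h hj).elim⟩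
        · obtain ⟨x, hx⟩ := hpre j (by
            intro h
            apply hj
            have h5 : j.val * d = i.val * d := by omega
            exact Fin.ext (Nat.eq_of_mul_eq_mul_right hd h5))
          exact ⟨x, fun _ => hx⟩
      choose x hx using hx
      have hsum : ∀ j : Fin (m + 1), (lam j).f (e j) - F.D ((lam j).f (if j = i then 0 else x j)) -
          (if j = i then g i.val else 0) ∈ F.N w (q + 1) := by
        intro j
        by_cases hj : j = i
        · subst hj
          rw [if_pos rfl, if_pos rfl, map_zero, map_zero, sub_zero]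
          have h4 := (lam j).mem w (q + 1) (e j - one) (by
            change e j - one ∈ M.N w (q + 1 - j.val * d)
            rw [e2]; exact h1)
          rw [map_sub] at h4
          have h5 := hlam j
          rw [← hi] at h5
          have h6 := add_mem h4 h5
          convert h6 using 1
          abel
        · rw [if_neg hj, if_neg hj]
          exact hgood j _ (hx j hj)
      have hS := (F.N w (q + 1)).sum_mem (t := Finset.univ) fun j _ => hsum j
      rw [Finset.sum_sub_distrib, Finset.sum_sub_distrib, ← map_sum, Finset.sum_ite_eq' Finset.univ i,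
        if_pos (Finset.mem_univ i)] at hS
      refine (hF1 i.val (by omega)).2 ?_
      rw [← hi]
      refine ⟨f - ∑ j : Fin (m + 1), (lam j).f (if j = i then 0 else x j), fun z hz => ?_⟩
      rw [mem_singleton_iff.1 hz]
      have h7 := sub_mem hf hS
      convert h7 using 1
      rw [map_sub]
      abel
  choose x hx using hall
  have hS := (F.N w (q + 1)).sum_mem (t := Finset.univ) fun j _ => hgood j (x j) (hx j)
  rw [Finset.sum_sub_distrib, Finset.sum_sub_distrib, ← map_sum, Finset.sum_const_zero, sub_zero] at hS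
  have hcoc : F.Coc {w} q (f - ∑ j : Fin (m + 1), (lam j).f (x j)) := by
    intro z hz
    rw [mem_singleton_iff.1 hz]
    have h7 := sub_mem hS hf
    convert h7 using 1
    rw [map_sub]
    abel
  have key : ∀ (z : Fin (m + 1) → K) (g' : K'), (∀ j, M.D (z j) ∈ M.N w (q + 1 - j.val * d)) →
      f - (∑ j : Fin (m + 1), (lam j).f (x j)) - (∑ j : Fin (m + 1), (lam j).f (z j)) - F.D g'
        ∈ F.N w q →
      (cone (powMor lam)).Cob {w} (q + 1) (e, f) := by
    intro z g' hz hg'
    refine ⟨(x + z, -g'), fun v hv => ?_⟩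
    rw [mem_singleton_iff.1 hv, cone_D, cone_N]
    refine ⟨?_, ?_⟩
    · intro j
      change e j - M.D (x j + z j) ∈ M.N w (q + 1 - j.val * d)
      have := sub_mem (hx j) (hz j)
      rw [map_add]
      convert this using 1
      abel
    · change f - ((powMor lam).f (x + z) - F.D (-g')) ∈ F.N w q
      rw [map_add, powMor_f, powMor_f, map_neg]
      convert hg' using 1
      abel
  by_cases hq : ∃ j ≤ m, q = j * d + 1
  · obtain ⟨j, hj, hjq⟩ := hq
    obtain ⟨h1, -⟩ := hF1 j hj
    rw [← hjq] at h1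
    rcases h1 _ hcoc with ⟨g', hg'⟩ | ⟨g', hg'⟩
    · refine key 0 g' (fun i => ?_) ?_
      · change M.D 0 ∈ _
        rw [map_zero]; exact zero_mem _
      · have h8 := hg' w rfl
        have h9 : ∑ j : Fin (m + 1), (lam j).f ((0 : Fin (m + 1) → K) j) = 0 :=
          Finset.sum_eq_zero fun i _ => by simp
        rw [h9, sub_zero]
        exact h8
    · have hj' : j < m + 1 := by omega
      refine key (Pi.single (⟨j, hj'⟩ : Fin (m + 1)) one) g' (fun i => ?_) ?_
      · by_cases hi : i = ⟨j, hj'⟩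
        · subst hi
          rw [Pi.single_eq_same]
          have : q + 1 - j * d = 2 := by omega
          change M.D one ∈ M.N w (q + 1 - j * d)
          rw [this]
          exact hone
        · rw [Pi.single_eq_of_ne hi, map_zero]
          exact zero_mem _
      · have h8 := hg' w rfl
        have h9 : ∑ i : Fin (m + 1), (lam i).f ((Pi.single (⟨j, hj'⟩ : Fin (m + 1)) one :
            Fin (m + 1) → K) i) = (lam ⟨j, hj'⟩).f one := by
          rw [Finset.sum_eq_single (⟨j, hj'⟩ : Fin (m + 1))]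
          · rw [Pi.single_eq_same]
          · intro i _ hi
            rw [Pi.single_eq_of_ne hi, map_zero]
          · intro h
            exact (h (Finset.mem_univ _)).elim
        rw [h9]
        have h10 := hlam ⟨j, hj'⟩
        change (lam ⟨j, hj'⟩).f one - g j ∈ F.N w (j * d + 1) at h10
        rw [← hjq] at h10
        have h11 := sub_mem h8 h10
        convert h11 using 1
        abel
  · push Not at hq
    obtain ⟨g', hg'⟩ := hF2 q (fun i hi => hq i hi) _ hcoc
    refine key 0 g' (fun i => ?_) ?_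
    · change M.D 0 ∈ _
      rw [map_zero]; exact zero_mem _
    · have h8 := hg' w rfl
      have h9 : ∑ j : Fin (m + 1), (lam j).f ((0 : Fin (m + 1) → K) j) = 0 :=
        Finset.sum_eq_zero fun i _ => by simp
      rw [h9, sub_zero]
      exact h8

theorem push_ft {X : Type*} [TopologicalSpace X] [T2Space X] [T2Space Y]
    (C : SoftCx X K) (p : X → Y) (hp : Continuous p) (G : Set X) (hG : IsCompact G)
    (g : ℕ → K) (d m : ℕ) (Z : Set Y) :
    (push C p hp G hG).FT g d m Z ↔ C.FT g d m (G ∩ p ⁻¹' Z) := by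
  unfold FT
  simp only [push_coc, push_cob, push_ex]

end pow

end SoftCx

open SoftCx

/-- j15146: vanishing from relative exactness of the cone. -/
theorem j15146_up {Y K K' : Type*} [TopologicalSpace Y] [AddCommGroup K] [AddCommGroup K']
    {M : SoftCx Y K} {F : SoftCx Y K'} {d m : ℕ}
    (lam : ∀ i : Fin (m + 1), Mor (M.shift (i.val * d)) F) {A A' : Set Y} (n : ℕ)
    (hC : (cone (powMor lam)).RelEx A A' (n + 1))
    (h : ∀ i ≤ m, M.RelEx A A' (n - i * d)) : F.RelEx A A' n := by
  intro k hk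
  have h1 : (cone (powMor lam)).RelCoc A A' (n + 1) (0, k) := by
    constructor
    · intro z hz
      rw [cone_D, cone_N]
      constructor
      · change (powC M d m).D 0 ∈ _
        rw [map_zero]; exact zero_mem _
      · change (powMor lam).f 0 - F.D k ∈ F.N z (n + 1 + 1 - 1)
        rw [map_zero, zero_sub]
        exact neg_mem (hk.1 z hz)
    · intro z hz
      rw [cone_N]
      exact ⟨zero_mem _, hk.2 z hz⟩
  obtain ⟨⟨b, f⟩, hA, hA'⟩ := hC _ h1
  have hA1 : ∀ z ∈ A, ∀ i : Fin (m + 1), M.D (b i) ∈ M.N z (n + 1 - i.val * d) := by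
    intro z hz i
    have h2 := hA z hz
    rw [cone_D, cone_N] at h2
    have h3 := (mem_powC_N M d m z (n + 1) _).1 h2.1 i
    have h4 : ((0 : (Fin (m + 1) → K) × K') ).1 = 0 := rfl
    have h5 : -(M.D (b i)) ∈ M.N z (n + 1 - i.val * d) := by
      have h6 : (((0, k) : (Fin (m + 1) → K) × K') - ((powC M d m).D b,
        (powMor lam).f b - F.D f)).1 i = -(M.D (b i)) := by
        change (0 : Fin (m + 1) → K) i - (powC M d m).D b i = _
        rw [powC_D]; simp
      rw [← h6]; exact h3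
    have := neg_mem h5
    rwa [neg_neg] at this
  have hA2 : ∀ z ∈ A, k - ((∑ i, (lam i).f (b i)) - F.D f) ∈ F.N z n := by
    intro z hz
    have h2 := hA z hz
    rw [cone_D, cone_N, powMor_f] at h2
    exact h2.2
  have hA1' : ∀ z ∈ A', ∀ i : Fin (m + 1), b i ∈ M.N z (n - i.val * d) := by
    intro z hz i
    have h2 := hA' z hz
    rw [cone_N] at h2
    exact (mem_powC_N M d m z _ _).1 h2.1 i
  have hA2' : ∀ z ∈ A', f ∈ F.N z (n - 1) := by
    intro z hz
    have h2 := hA' z hz
    rw [cone_N] at h2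
    exact h2.2
  have h3 : ∀ i : Fin (m + 1), ∃ b', (∀ z ∈ A, b i - M.D b' ∈ M.N z (n - i.val * d)) ∧
      ∀ z ∈ A', b' ∈ M.N z (n - i.val * d - 1) := by
    intro i
    rcases le_or_gt (i.val * d) n with hin | hin
    · apply h i.val (by omega) (b i)
      refine ⟨fun z hz => ?_, fun z hz => hA1' z hz i⟩
      have := hA1 z hz i
      have e : n - i.val * d + 1 = n + 1 - i.val * d := by omega
      rw [e]; exact this
    · have e : n - i.val * d = 0 := by omega
      rw [e]
      exact ⟨0, fun z _ => M.N_zero z _, fun z _ => zero_mem _⟩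
  choose b' hb1 hb2 using h3
  refine ⟨(∑ i, (lam i).f (b' i)) - f, ?_, ?_⟩
  · intro z hz
    have h4 : ∑ i, (lam i).f (b i - M.D (b' i)) ∈ F.N z n :=
      sum_mem fun i _ => (lam i).mem z n _ (hb1 i z hz)
    have h5 : ∑ i, (F.D ((lam i).f (b' i)) - (lam i).f (M.D (b' i))) ∈ F.N z n :=
      sum_mem fun i _ => (lam i).comm z n (b' i)
    have h6 := sub_mem (add_mem (hA2 z hz) h4) h5
    have e : k - F.D ((∑ i, (lam i).f (b' i)) - f) =
        k - ((∑ i, (lam i).f (b i)) - F.D f) + ∑ i, (lam i).f (b i - M.D (b' i))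
          - ∑ i, (F.D ((lam i).f (b' i)) - (lam i).f (M.D (b' i))) := by
      simp only [map_sub, map_sum, Finset.sum_sub_distrib]
      abel
    rw [e]; exact h6
  · intro z hz
    refine sub_mem (sum_mem fun i _ => (lam i).mem z (n - 1) _ ?_) (hA2' z hz)
    change b' i ∈ M.N z (n - 1 - i.val * d)
    have e : n - 1 - i.val * d = n - i.val * d - 1 := by omega
    rw [e]; exact hb2 i z hz

/-- j15146: non-vanishing from relative exactness of the cone. -/
theorem j15146_ne {Y K K' : Type*} [TopologicalSpace Y] [AddCommGroup K] [AddCommGroup K']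
    {M : SoftCx Y K} {F : SoftCx Y K'} {d m : ℕ}
    (lam : ∀ i : Fin (m + 1), Mor (M.shift (i.val * d)) F) {A A' : Set Y} (ν : ℕ)
    (hC : (cone (powMor lam)).RelEx A A' (ν + m * d))
    (hF : F.RelEx A A' (ν + m * d)) : M.RelEx A A' ν := by
  intro w hw
  set i₀ : Fin (m + 1) := Fin.last m with hi₀
  have hi : i₀.val = m := rfl
  have hy : F.RelCoc A A' (ν + m * d) ((lam i₀).f w) := by
    constructor
    · intro z hz
      have h1 := (lam i₀).comm z (ν + m * d + 1) w
      have h2 : (lam i₀).f (M.D w) ∈ F.N z (ν + m * d + 1) := by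
        apply (lam i₀).mem
        change M.D w ∈ M.N z (ν + m * d + 1 - i₀.val * d)
        have e : ν + m * d + 1 - i₀.val * d = ν + 1 := by rw [hi]; omega
        rw [e]; exact hw.1 z hz
      have h3 := add_mem h1 h2
      have e : F.D ((lam i₀).f w) - (lam i₀).f ((M.shift (i₀.val * d)).D w)
          + (lam i₀).f (M.D w) = F.D ((lam i₀).f w) := by
        change F.D ((lam i₀).f w) - (lam i₀).f (M.D w) + (lam i₀).f (M.D w) = _
        abel
      rw [e] at h3; exact h3
    · intro z hz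
      apply (lam i₀).mem
      change w ∈ M.N z (ν + m * d - i₀.val * d)
      have e : ν + m * d - i₀.val * d = ν := by rw [hi]; omega
      rw [e]; exact hw.2 z hz
  obtain ⟨f, hf1, hf2⟩ := hF _ hy
  have hs : (powMor lam).f (Pi.single i₀ w) = (lam i₀).f w := by
    rw [powMor_f, Finset.sum_eq_single i₀]
    · rw [Pi.single_eq_same]
    · intro j _ hj
      rw [Pi.single_eq_of_ne hj, map_zero]
    · intro hj; exact absurd (Finset.mem_univ _) hj
  have h1 : (cone (powMor lam)).RelCoc A A' (ν + m * d) (Pi.single i₀ w, f) := by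
    constructor
    · intro z hz
      rw [cone_D, cone_N]
      constructor
      · change (powC M d m).D (Pi.single i₀ w) ∈ _
        rw [mem_powC_N]
        intro j
        rw [powC_D]
        by_cases hj : j = i₀
        · subst hj
          rw [Pi.single_eq_same]
          have e : ν + m * d + 1 - i₀.val * d = ν + 1 := by rw [hi]; omega
          rw [e]; exact hw.1 z hz
        · rw [Pi.single_eq_of_ne hj, map_zero]; exact zero_mem _
      · change (powMor lam).f (Pi.single i₀ w) - F.D f ∈ F.N z (ν + m * d + 1 - 1)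
        rw [hs]
        exact hf1 z hz
    · intro z hz
      rw [cone_N]
      refine ⟨?_, hf2 z hz⟩
      change Pi.single i₀ w ∈ (powC M d m).N z (ν + m * d)
      rw [mem_powC_N]
      intro j
      by_cases hj : j = i₀
      · subst hj
        rw [Pi.single_eq_same]
        have e : ν + m * d - i₀.val * d = ν := by rw [hi]; omega
        rw [e]; exact hw.2 z hz
      · rw [Pi.single_eq_of_ne hj]; exact zero_mem _
  obtain ⟨⟨b, f'⟩, hA, hA'⟩ := hC _ h1
  refine ⟨b i₀, ?_, ?_⟩
  · intro z hz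
    have h2 := hA z hz
    rw [cone_D, cone_N] at h2
    have h3 := (mem_powC_N M d m z _ _).1 h2.1 i₀
    have h6 : (((Pi.single i₀ w, f) : (Fin (m + 1) → K) × K') - ((powC M d m).D b,
        (powMor lam).f b - F.D f')).1 i₀ = w - M.D (b i₀) := by
      change (Pi.single i₀ w : Fin (m + 1) → K) i₀ - (powC M d m).D b i₀ = _
      rw [powC_D, Pi.single_eq_same]
    have e : ν + m * d - i₀.val * d = ν := by rw [hi]; omega
    rw [← h6, ← e]; exact h3
  · intro z hz
    have h2 := hA' z hz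
    rw [cone_N] at h2
    have h3 := (mem_powC_N M d m z _ _).1 h2.1 i₀
    have e : ν + m * d - 1 - i₀.val * d = ν - 1 := by rw [hi]; omega
    rw [e] at h3; exact h3

theorem j15146_push {X Y : Type*} [MetricSpace X] [MetricSpace Y] {p : X → Y}
    (hp : Continuous p) {G : Set X} (hG : IsCompact G) (A A' : Set Y) (n : ℕ) :
    (PF p hp G hG).RelEx A A' n ↔ (AS X).RelEx (G ∩ p ⁻¹' A) (G ∩ p ⁻¹' A') n := by
  have h1 : ∀ k, (PF p hp G hG).RelCoc A A' n k ↔
      (AS X).RelCoc (G ∩ p ⁻¹' A) (G ∩ p ⁻¹' A') n k := by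
    intro k
    unfold RelCoc
    rw [push_coc, forall_push_N]
  have h2 : ∀ k, (PF p hp G hG).RelCob A A' n k ↔
      (AS X).RelCob (G ∩ p ⁻¹' A) (G ∩ p ⁻¹' A') n k := by
    intro k
    unfold RelCob
    refine exists_congr fun k' => ?_
    rw [forall_push_N, forall_push_N, push_D]
  unfold RelEx
  refine forall_congr' fun k => ?_
  rw [h1, h2]

theorem j15146_cone {X Y : Type*} [MetricSpace X] [MetricSpace Y] {p : X → Y}
    (hp : Continuous p) {G : Set X} (hG : IsCompact G) {A A' : Set Y} (hA : IsCompact A)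
    (hA' : IsCompact A') (hAA : A' ⊆ A) {d m : ℕ} (hd : 1 ≤ d) {g : ℕ → Ch X}
    (hg : ∀ i ≤ m, (AS X).Coc G (i * d + 1) (g i))
    (hfib : ∀ w ∈ A \ A', (AS X).FT g d m (G ∩ p ⁻¹' {w})) (n : ℕ) :
    (cone (powMor (fun i : Fin (m + 1) =>
      lam p hp G hG (i.val * d) (g i.val) (hg i.val (by omega))))).RelEx A A' n := by
  apply rel_ex_of_pointwise hA hA' hAA
  intro z hz l
  apply cone_pow_ex hd _ one g z (one_D_mem z)
  · intro i
    exact lam_one_mem p hp G hG _ _ _ z
  · exact acy_singleton z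
  · rw [push_ft]
    exact hfib z hz

section AS

variable {X Y : Type*} [MetricSpace X] [MetricSpace Y] {p : X → Y} (hp : Continuous p)
  {G : Set X} (hG : IsCompact G) {A A' : Set Y} (hA : IsCompact A) (hA' : IsCompact A')
  (hAA : A' ⊆ A) {d m : ℕ} (hd : 1 ≤ d) {g : ℕ → Ch X}
  (hg : ∀ i ≤ m, (AS X).Coc G (i * d + 1) (g i))
  (hfib : ∀ w ∈ A \ A', (AS X).FT g d m (G ∩ p ⁻¹' {w}))

include hp hG hA hA' hAA hd hg hfib

/-- relative Leray-Hirsch: vanishing. -/
theorem rel_up (n : ℕ) (h : ∀ i ≤ m, (AS Y).RelEx A A' (n - i * d)) :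
    (AS X).RelEx (G ∩ p ⁻¹' A) (G ∩ p ⁻¹' A') n := by
  rw [← j15146_push hp hG]
  exact j15146_up _ n (j15146_cone hp hG hA hA' hAA hd hg hfib (n + 1)) h

/-- relative Leray-Hirsch: non-vanishing. -/
theorem rel_ne {ν : ℕ} (h : ¬ (AS Y).RelEx A A' ν) :
    ¬ (AS X).RelEx (G ∩ p ⁻¹' A) (G ∩ p ⁻¹' A') (ν + m * d) := by
  rw [← j15146_push hp hG]
  intro hF
  exact h (j15146_ne _ ν (j15146_cone hp hG hA hA' hAA hd hg hfib (ν + m * d)) hF)

end AS

end Pool.Agent.Helper775.Tight
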